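import Pool.Agent.N825.WP.Stm
import Pool.Agent.N825.WI.Tower

set_option autoImplicit false

/-! The three-dimensional form `⟨α (X² + 1), 1, -γ⟩`, `γ = 3 α + 3`, over `F(X)`. -/

namespace Pool.Agent.N825.WP

open Pool.Agent.N825.WI RatFunc

/-- A form is real when the first condition holds. -/
lemma C2.real {F : Type} [Field F] {α : F} (h : C2 F α) : FReal F := by
  intro n x hx i
  have := h n 0 0 x (by simp [hx])
  rw [this.2.2]; rfl

lemma C2.ne {F : Type} [Field F] {α : F} (h : C2 F α) : α ≠ 0 := by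
  intro h0
  have := h 0 1 0 (fun _ => 0) (by rw [h0]; simp)
  exact one_ne_zero this.1

lemma C2.ne' {F : Type} [Field F] {α : F} (h : C2 F α) : 3 * α + 3 ≠ 0 := by
  intro h0
  have := h 0 0 1 (fun _ => 0) (by rw [h0]; simp)
  exact one_ne_zero this.2.1

lemma C2.odd (hS : S_SPR) {F : Type} [Field F] {α : F} (h : C2 F α) {L : Type} [Field L]
    (f : F →+* L) (hf : OddHom f) : C2 L (f α) := by
  have hc : CharZero F := h.real.charZero
  intro m x y z hxyz
  have key := hS F L f hf (m + 2)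
    (Fin.cons α (Fin.cons (-(α * (3 * α + 3))) (fun _ : Fin m => 1)) : Fin (m + 2) → F) ?_
    (Fin.cons x (Fin.cons y z) : Fin (m + 2) → L) ?_
  · refine ⟨congrFun key 0, congrFun key 1, ?_⟩
    funext i
    exact congrFun key i.succ.succ
  · intro v hv
    rw [Fin.sum_univ_succ, Fin.sum_univ_succ] at hv
    simp only [Fin.cons_zero, Fin.cons_succ, one_mul] at hv
    obtain ⟨h1, h2, h3⟩ := h m (v 0) (v (Fin.succ 0)) (fun i => v i.succ.succ)
      (by rw [← hv]; ring)
    funext i
    refine Fin.cases h1 (fun i => ?_) i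
    refine Fin.cases h2 (fun i => ?_) i
    exact congrFun h3 i
  · rw [Fin.sum_univ_succ, Fin.sum_univ_succ]
    simp only [Fin.cons_zero, Fin.cons_succ, map_one, one_mul]
    rw [← hxyz]
    simp only [map_neg, map_mul, map_add, map_ofNat]
    ring

lemma C3.odd (hS : S_SPR) {F : Type} [Field F] [CharZero F] {α : F} (h : C3 F α) {L : Type}
    [Field L] (f : F →+* L) (hf : OddHom f) : C3 L (f α) := by
  intro m x y y' z hxyz
  have key := hS F L f hf (m + 3)
    (Fin.cons (-(3 * α + 3)) (Fin.cons α (Fin.cons α (fun _ : Fin m => 1))) : Fin (m + 3) → F) ?_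
    (Fin.cons x (Fin.cons y (Fin.cons y' z)) : Fin (m + 3) → L) ?_
  · refine ⟨congrFun key 0, congrFun key 1, congrFun key 2, ?_⟩
    funext i
    exact congrFun key i.succ.succ.succ
  · intro v hv
    rw [Fin.sum_univ_succ, Fin.sum_univ_succ, Fin.sum_univ_succ] at hv
    simp only [Fin.cons_zero, Fin.cons_succ, one_mul] at hv
    obtain ⟨h1, h2, h2', h3⟩ := h m (v 0) (v (Fin.succ 0)) (v (Fin.succ (Fin.succ 0)))
      (fun i => v i.succ.succ.succ) (by rw [← hv]; ring)
    funext i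
    refine Fin.cases h1 (fun i => ?_) i
    refine Fin.cases h2 (fun i => ?_) i
    refine Fin.cases h2' (fun i => ?_) i
    exact congrFun h3 i
  · rw [Fin.sum_univ_succ, Fin.sum_univ_succ, Fin.sum_univ_succ]
    simp only [Fin.cons_zero, Fin.cons_succ, map_one, one_mul]
    rw [← hxyz]
    simp only [map_neg, map_mul, map_add, map_ofNat]
    ring

/-- A sum of squares times a sum of squares is a sum of squares. -/
lemma sum_mul_sum {L : Type} [Field L] {n m : ℕ} (a : Fin n → L) (b : Fin m → L) :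
    ∃ (k : ℕ) (z : Fin k → L), (∑ i, z i ^ 2) = (∑ i, a i ^ 2) * (∑ i, b i ^ 2) := by
  refine ⟨n * m, fun i => a (finProdFinEquiv.symm i).1 * b (finProdFinEquiv.symm i).2, ?_⟩
  rw [← Equiv.sum_comp finProdFinEquiv]
  simp only [Equiv.symm_apply_apply, Fintype.sum_prod_type, Finset.sum_mul_sum, mul_pow]

/-- The vectors orthogonal to `(a, b)` in the plane. -/
lemma orth {κ : Type} [Field κ] {a b : κ} (hab : a ≠ 0 ∨ b ≠ 0) {n : ℕ} (u v : Fin n → κ)
    (h : ∀ k, a * u k + b * v k = 0) : ∃ l : Fin n → κ, ∀ k, u k = l k * b ∧ v k = -(l k * a) := by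
  have hex : ∀ k, ∃ l : κ, u k = l * b ∧ v k = -(l * a) := by
    intro k
    by_cases hb : b = 0
    · have ha : a ≠ 0 := by
        rcases hab with h | h
        · exact h
        · exact absurd hb h
      have hk := h k
      rw [hb, zero_mul, add_zero] at hk
      refine ⟨-(v k / a), ?_, by field_simp⟩
      rw [hb, mul_zero]
      exact (mul_eq_zero.1 hk).resolve_left ha
    · refine ⟨u k / b, by field_simp, ?_⟩
      have hk := h k
      field_simp
      linear_combination hk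
  choose l hl using hex
  exact ⟨l, hl⟩

/-- Reduced forms, first case. -/
lemma base_a {κ : Type} [Field κ] {α : κ} (h2 : C2 κ α) {s : κ} (hs : IsD2 s) {w : Fin 3 → κ}
    (hw : w ≠ 0) (h0 : w 0 = 0) : ¬ WIker ![α * s, 1, -(3 * α + 3)] w := by
  rintro ⟨n, y, hy, hlin, hsum⟩
  have hκ := h2.real
  have hα := h2.ne
  have hs0 := hs.ne_zero hκ
  have h12 : w 1 ≠ 0 ∨ w 2 ≠ 0 := by
    by_contra hcon
    push Not at hcon
    apply hw
    funext i
    fin_cases i
    · exact h0
    · exact hcon.1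
    · exact hcon.2
  obtain ⟨l, hl⟩ := orth h12 (fun k => y k 1) (fun k => y k 2) (fun k => by
    have := hlin k
    rw [Fin.sum_univ_three, h0, zero_mul, zero_add] at this
    exact this)
  obtain ⟨p, q, hpq, hspq⟩ := hs
  have hE : α * s * (∑ k, y k 0 ^ 2) + (w 2 ^ 2 - (3 * α + 3) * w 1 ^ 2) * (∑ k, l k ^ 2) = 0 := by
    rw [← hsum, Finset.mul_sum, Finset.mul_sum, ← Finset.sum_add_distrib]
    refine Finset.sum_congr rfl fun k _ => ?_
    rw [Fin.sum_univ_three, (hl k).1, (hl k).2]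
    simp
    ring
  by_cases hl0 : (∑ k, l k ^ 2) = 0
  · have hl1 := hκ n l hl0
    rw [hl0, mul_zero, add_zero] at hE
    have h5 := hκ n (fun k => y k 0) ((mul_eq_zero.1 hE).resolve_left (mul_ne_zero hα hs0))
    apply hy
    funext k i
    fin_cases i
    · exact h5 k
    · show y k 1 = 0
      rw [(hl k).1, hl1 k, zero_mul]
    · show y k 2 = 0
      rw [(hl k).2, hl1 k, zero_mul, neg_zero]
  · obtain ⟨m, z, hz⟩ := sum_mul_sum (fun k => y k 0) l
    obtain ⟨m', z', hz'⟩ := sum_mul_sum (![α * p, α * q] : Fin 2 → κ) z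
    have h6 := h2 m' (w 2 * (∑ k, l k ^ 2)) (w 1 * (∑ k, l k ^ 2)) z' (by
      rw [hz', hz, Fin.sum_univ_two]
      simp only [Matrix.cons_val_zero, Matrix.cons_val_one]
      rw [hspq] at hE
      linear_combination (α * (∑ k, l k ^ 2)) * hE)
    rcases h12 with h | h
    · exact h ((mul_eq_zero.1 h6.2.1).resolve_right hl0)
    · exact h ((mul_eq_zero.1 h6.1).resolve_right hl0)

/-- Reduced forms, second case. -/
lemma base_b {κ : Type} [Field κ] {α : κ} (h2 : C2 κ α) (h3 : C3 κ α) {s : κ} (hs : IsD2 s)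
    {w : Fin 3 → κ} (hw : w ≠ 0) (h1 : w 1 = 0) : ¬ WIker ![α * s, 1, -(3 * α + 3)] w := by
  rintro ⟨n, y, hy, hlin, hsum⟩
  have hκ := h2.real
  have h12 : w 0 ≠ 0 ∨ w 2 ≠ 0 := by
    by_contra hcon
    push Not at hcon
    apply hw
    funext i
    fin_cases i
    · exact hcon.1
    · exact h1
    · exact hcon.2
  obtain ⟨l, hl⟩ := orth h12 (fun k => y k 0) (fun k => y k 2) (fun k => by
    have := hlin k
    rw [Fin.sum_univ_three, h1, zero_mul, add_zero] at this
    exact this)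
  obtain ⟨p, q, hpq, hspq⟩ := hs
  have hE : (∑ k, y k 1 ^ 2) + (α * s * w 2 ^ 2 - (3 * α + 3) * w 0 ^ 2) * (∑ k, l k ^ 2) = 0 := by
    rw [← hsum, Finset.mul_sum, ← Finset.sum_add_distrib]
    refine Finset.sum_congr rfl fun k _ => ?_
    rw [Fin.sum_univ_three, (hl k).1, (hl k).2]
    simp
    ring
  by_cases hl0 : (∑ k, l k ^ 2) = 0
  · have hl1 := hκ n l hl0
    rw [hl0, mul_zero, add_zero] at hE
    have h5 := hκ n (fun k => y k 1) hE
    apply hy
    funext k i
    fin_cases i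
    · show y k 0 = 0
      rw [(hl k).1, hl1 k, zero_mul]
    · exact h5 k
    · show y k 2 = 0
      rw [(hl k).2, hl1 k, zero_mul, neg_zero]
  · obtain ⟨m, z, hz⟩ := sum_mul_sum (fun k => y k 1) l
    have h6 := h3 m (w 0 * (∑ k, l k ^ 2)) (p * w 2 * (∑ k, l k ^ 2)) (q * w 2 * (∑ k, l k ^ 2)) z
      (by
        rw [hz]
        rw [hspq] at hE
        linear_combination (∑ k, l k ^ 2) * hE)
    have h7 : w 0 = 0 := (mul_eq_zero.1 h6.1).resolve_right hl0
    have h8 : p * w 2 = 0 := (mul_eq_zero.1 h6.2.1).resolve_right hl0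
    have h9 : q * w 2 = 0 := (mul_eq_zero.1 h6.2.2.1).resolve_right hl0
    have h10 : w 2 = 0 := by
      rcases hpq with h | h
      · exact (mul_eq_zero.1 h8).resolve_left h
      · exact (mul_eq_zero.1 h9).resolve_left h
    rcases h12 with h | h
    · exact h h7
    · exact h h10

/-- The hyperplanes in the form are not weakly isotropic. -/
lemma core (hS : S_SPR) (hR : S_RED) (hO : S_OVER) (hP : S_PAR) {F : Type} [Field F] {α : F}
    (h2 : C2 F α) (h3 : C3 F α) (L : Type) [Field L] (f : RatFunc F →+* L) (hf : OddHom f)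
    (w : Fin 3 → L) (hw : w ≠ 0) :
    ¬ WIker ![f (C α) * (f X ^ 2 + 1), 1, -f (C (3 * α + 3))] w := by
  intro hwi
  have hc : CharZero F := h2.real.charZero
  obtain ⟨P, hPn⟩ := choose_place hO hP f hf (w 0) (w 1)
  have h2κ : C2 P.κ (P.j α) := h2.odd hS P.j P.odd
  have h3κ : C3 P.κ (P.j α) := h3.odd hS P.j P.odd
  have hκ : FReal P.κ := h2κ.real
  have hfX : f X ≠ 0 := (map_ne_zero f).2 RatFunc.X_ne_zero
  have hac : Ev P (f (C α)) 0 (P.j α) := Ev.const (P := P) h2.ne
  have hgc : Ev P (f (C (3 * α + 3))) 0 (P.j (3 * α + 3)) := Ev.const (P := P) h2.ne'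
  have h1c : Ev P (1 : L) 0 (1 : P.κ) :=
    (Ev.const (P := P) (a := (1 : F)) one_ne_zero).congr (by simp) rfl (by simp)
  obtain ⟨σ, hσD, hσ⟩ := ev_t P hκ hfX
  obtain ⟨w', hw', hz, hwi'⟩ := red' (P := P) hR
    (n := ![0 + min 0 (P.ord (f X)), 0, 0])
    (ρ := ![P.j α * σ, 1, -P.j (3 * α + 3)])
    (by
      intro i
      fin_cases i
      · exact hac.mul hσ
      · exact h1c
      · exact hgc.neg) hw hwi
  have hj : P.j (3 * α + 3) = 3 * P.j α + 3 := by rw [map_add, map_mul, map_ofNat]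
  rw [hj] at hwi'
  have hex : ∃ i, w i ≠ 0 := by
    by_contra hcon
    push Not at hcon
    exact hw (funext hcon)
  obtain ⟨i, hi⟩ := hex
  have hor : w' 0 = 0 ∨ w' 1 = 0 := by
    rcases hPn with h | h | h
    · exact Or.inl (hz i 0 hi (Or.inl h))
    · exact Or.inr (hz i 1 hi (Or.inl h))
    · by_cases ha : w 0 = 0
      · exact Or.inl (hz i 0 hi (Or.inl ha))
      by_cases hb : w 1 = 0
      · exact Or.inr (hz i 1 hi (Or.inl hb))
      rcases lt_trichotomy (P.ord (w 0) - (0 + min 0 (P.ord (f X)))) (P.ord (w 1) - 0)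
        with hlt | heq | hgt
      · exact Or.inr (hz 0 1 ha (Or.inr hlt))
      · exfalso; apply h; omega
      · exact Or.inl (hz 1 0 hb (Or.inr hgt))
  rcases hor with h | h
  · exact base_a h2κ hσD hw' h hwi'
  · exact base_b h2κ h3κ hσD hw' h hwi'

end Pool.Agent.N825.WP
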