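import Pool.Agent.N825.WP.Stm

/-!
WP/EMB: the embedding of the universal field.
-/

set_option autoImplicit false

namespace Pool.Agent.N825.WP

open Polynomial

namespace EMB

/-- two algebraically independent families of the same size generate isomorphic fields -/
theorem exists_hom {E C K : Type} [Field E] [Field C] [Algebra E C] [Field K] [Algebra E K]
    {n : ℕ} (x : Fin n → C) (x' : Fin n → K) (hx : AlgebraicIndependent E x)
    (hx' : AlgebraicIndependent E x') :
    ∃ τ : IntermediateField.adjoin E (Set.range x) →ₐ[E] K,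
      ∀ i, τ ⟨x i, IntermediateField.subset_adjoin E _ ⟨i, rfl⟩⟩ = x' i := by
  refine ⟨(IntermediateField.val _).comp
    ((hx'.aevalEquivField).toAlgHom.comp (hx.aevalEquivField.symm).toAlgHom), fun i => ?_⟩
  have h1 : hx.aevalEquivField.symm ⟨x i, IntermediateField.subset_adjoin E _ ⟨i, rfl⟩⟩ =
      algebraMap (MvPolynomial (Fin n) E) (FractionRing (MvPolynomial (Fin n) E))
        (MvPolynomial.X i) := by
    rw [AlgEquiv.symm_apply_eq]
    apply Subtype.ext
    rw [hx.aevalEquivField_algebraMap_apply_coe]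
    simp
  change ((hx'.aevalEquivField (hx.aevalEquivField.symm
    ⟨x i, IntermediateField.subset_adjoin E _ ⟨i, rfl⟩⟩)) : K) = x' i
  rw [h1, hx'.aevalEquivField_algebraMap_apply_coe]
  simp

/-- the evaluation of a polynomial of small degree -/
theorem eval_small {R : Type} [CommRing R] {n : ℕ} (a : R[X]) (ha : a.natDegree < n) (t : R) :
    a.eval t = ∑ i : Fin n, a.coeff i * t ^ (i : ℕ) := by
  rw [eval_eq_sum_range' ha, Finset.sum_range]

end EMB

open EMB in
/-- **EMB.** -/
theorem t_EMB : S_EMB := by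
  intro hS E C _ _ _ _ _ n x θ y f B hfn hn hx halg hθ hroot hy hB hBd M _ _ a b ha hb hab hdvd
  classical
  let Ω := AlgebraicClosure M
  let ι : M →ₐ[E] Ω := IsScalarTower.toAlgHom E M Ω
  have hι : Function.Injective ι := ι.toRingHom.injective
  have hf0 : f ≠ 0 := by
    rintro rfl
    simp at hfn
    omega
  have hθalg : ∀ k, IsAlgebraic E (θ k) := fun k => ⟨f, hf0, hroot k⟩
  -- the first homomorphism
  obtain ⟨τ0, hτ0⟩ := exists_hom x (fun i : Fin n => ι (a.coeff i)) hx (hab.map' hι)
  obtain ⟨τ, hτ⟩ := IsAlgClosed.surjective_domRestrict_of_isAlgebraic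
    (L := IntermediateField.adjoin E (Set.range x)) (E := C) (M := Ω) τ0
  have hτx : ∀ i, τ (x i) = ι (a.coeff i) := by
    intro i
    rw [← hτ0 i, ← hτ]
    rfl
  -- the values at the roots
  have haΩ : ∀ k, (a.map (algebraMap M Ω)).eval (τ (θ k)) =
      τ (∑ i, x i * θ k ^ (i : ℕ)) := by
    intro k
    rw [eval_small (n := n) _ ((natDegree_map_le).trans_lt ha), map_sum]
    refine Finset.sum_congr rfl fun i _ => ?_
    rw [coeff_map, map_mul, map_pow, hτx]
    rfl
  have hzero : ∀ k, ((a.map (algebraMap M Ω)).eval (τ (θ k))) ^ 2 +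
      ((b.map (algebraMap M Ω)).eval (τ (θ k))) ^ 2 + 1 = 0 := by
    intro k
    have h1 := Polynomial.map_dvd (algebraMap M Ω) hdvd
    have h2 := Polynomial.eval_dvd (x := τ (θ k)) h1
    have h3 : ((f.map (algebraMap E M)).map (algebraMap M Ω)).eval (τ (θ k)) = 0 := by
      rw [Polynomial.map_map, ← IsScalarTower.algebraMap_eq, eval_map_algebraMap]
      have h4 : aeval (τ (θ k)) f = τ (aeval (θ k) f) := (aeval_algHom_apply τ (θ k) f)
      rw [h4, hroot, map_zero]
    rw [h3, zero_dvd_iff] at h2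
    simpa using h2
  have hbsq : ∀ k, ((b.map (algebraMap M Ω)).eval (τ (θ k))) ^ 2 = (τ (y k)) ^ 2 := by
    intro k
    have h1 := hzero k
    rw [haΩ k] at h1
    rw [← map_pow, hy k, map_sub, map_neg, map_one, map_pow]
    linear_combination h1
  have hε : ∀ k, ∃ e : C, (e = 1 ∨ e = -1) ∧
      (b.map (algebraMap M Ω)).eval (τ (θ k)) = τ (e * y k) := by
    intro k
    rcases sq_eq_sq_iff_eq_or_eq_neg.1 (hbsq k) with h | h
    · exact ⟨1, Or.inl rfl, by rw [h, one_mul]⟩
    · exact ⟨-1, Or.inr rfl, by rw [h, neg_one_mul, map_neg]⟩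
  choose ε hε1 hε2 using hε
  obtain ⟨σ, hσx, hσθ, hσy⟩ := hS E C n x θ y hx halg hθ hθalg hy ε hε1
  obtain ⟨τ', hτ'⟩ : ∃ τ' : C →ₐ[E] Ω, τ' = τ.comp σ.toAlgHom := ⟨_, rfl⟩
  have hτ'a : ∀ z, τ' z = τ (σ z) := by
    intro z
    rw [hτ']
    rfl
  -- the polynomial
  have hBb : B.map (τ' : C →+* Ω) = b.map (algebraMap M Ω) := by
    apply Polynomial.eq_of_degrees_lt_of_eval_index_eq (s := (Finset.univ : Finset (Fin n)))
      (v := fun k => τ' (θ k))
    · intro k _ l _ h
      exact hθ (τ'.toRingHom.injective h)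
    · rw [Finset.card_univ, Fintype.card_fin]
      exact (degree_map_le).trans_lt hBd
    · rw [Finset.card_univ, Fintype.card_fin]
      refine (degree_map_le).trans_lt ?_
      exact (degree_le_natDegree).trans_lt (by exact_mod_cast hb)
    · intro k _
      have h1 : (B.map (τ' : C →+* Ω)).eval (τ' (θ k)) = τ' (B.eval (θ k)) :=
        Polynomial.eval_map_apply _ _
      rw [h1, hB, hτ'a, hσy, ← hε2, hτ'a, hσθ]
  have hcoef : ∀ j, τ' (B.coeff j) = ι (b.coeff j) := by
    intro j
    have h1 := congrArg (fun P : Polynomial Ω => P.coeff j) hBb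
    simp only [coeff_map] at h1
    exact h1
  -- the image
  have hle : IntermediateField.adjoin E (Set.range x ∪ Set.range B.coeff) ≤
      (ι.fieldRange).comap τ' := by
    rw [IntermediateField.adjoin_le_iff]
    rintro z (⟨i, rfl⟩ | ⟨j, rfl⟩)
    · refine ⟨a.coeff i, ?_⟩
      change ι (a.coeff i) = τ' (x i)
      rw [hτ'a, hσx, hτx]
    · refine ⟨b.coeff j, ?_⟩
      change ι (b.coeff j) = τ' (B.coeff j)
      rw [hcoef]
  let g : IntermediateField.adjoin E (Set.range x ∪ Set.range B.coeff) →ₐ[E] ι.range :=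
    (τ'.comp (IntermediateField.val _)).codRestrict ι.range (fun z => hle z.2)
  exact ⟨(AlgEquiv.ofInjective ι hι).symm.toAlgHom.comp g⟩

end Pool.Agent.N825.WP
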