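import Pool.Agent.N825.WP.Stm
import Mathlib.RingTheory.AlgebraicIndependent.RankAndCardinality

set_option autoImplicit false

/-! Project WP (helper825), leaf GEN: an uncountable field has algebraically independent families of
every finite size over a countable subfield. -/

namespace Pool.Agent.N825.WP

open Cardinal

theorem t_GEN : S_GEN := by
  intro E M _ _ _ hE hM n
  obtain ⟨s, hs⟩ := exists_isTranscendenceBasis E M
  have hinf : Infinite s := by
    by_contra hfin
    rw [not_infinite_iff_finite] at hfin
    have hsc : #s ≤ ℵ₀ := (Cardinal.lt_aleph0_of_finite s).le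
    have hEc : #E ≤ ℵ₀ := Cardinal.mk_le_aleph0_iff.2 hE
    apply hM
    rw [← Cardinal.mk_le_aleph0_iff]
    rcases isEmpty_or_nonempty s with h0 | h0
    · have halg : Algebra.IsAlgebraic E M := by
        have h1 := hs.isAlgebraic_field
        have h2 : Set.range ((↑) : s → M) = ∅ := Set.range_eq_empty _
        rw [h2, IntermediateField.adjoin_empty] at h1
        exact Algebra.IsAlgebraic.trans E (⊥ : IntermediateField E M) M
      exact (Algebra.IsAlgebraic.cardinalMk_le_max E M).trans (max_le hEc le_rfl)
    · have h1 := hs.lift_cardinalMk_eq_max_lift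
      simp only [Cardinal.lift_id] at h1
      rw [h1]
      exact max_le (max_le hEc hsc) le_rfl
  obtain ⟨f⟩ : Nonempty (Fin n ↪ s) := by
    have h := Infinite.natEmbedding s
    exact ⟨(Fin.valEmbedding).trans h⟩
  exact ⟨fun i => (f i : M), hs.1.comp f f.injective⟩

end Pool.Agent.N825.WP
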