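import Pool.Agent.N825.WP.Stm

set_option autoImplicit false

/-! HEN1: the valuation ring of a finite extension of the field of Laurent series. By helper711. -/

namespace Pool.Agent.N825.WP

open Pool.Agent.N825.WI Polynomial

namespace HEN1

theorem core (ha : S_HENa) (hb : S_HENb) (hc : S_HENc) (k : Type) [Field k] [CharZero k]
    (B : Type) [CommRing B] [IsDedekindDomain B] [Algebra (PowerSeries k) B]
    [Module.Finite (PowerSeries k) B] (hinj : Function.Injective (algebraMap (PowerSeries k) B))
    (L : Type) [Field L] [Algebra B L] [IsFractionRing B L] :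
    ∃ (κ : Type) (_ : Field κ) (_ : Algebra k κ) (res : B →+* κ),
      FiniteDimensional k κ ∧ Function.Surjective res ∧
      (∀ x : L, x ≠ 0 → (∃ b : B, algebraMap B L b = x) ∨ ∃ b : B, algebraMap B L b = x⁻¹) ∧
      ∀ y b : B, res b ≠ 0 → res (b ^ 2) = res y → ∃ c : B, c ^ 2 = y := by
  classical
  have hloc : IsLocalRing B := hb ha k B hinj
  have hnf : ¬ IsField B := fun h =>
    IsDiscreteValuationRing.not_isField (PowerSeries k) (isField_of_isIntegral_of_isField hinj h)
  have hT := IsDiscreteValuationRing.TFAE B hnf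
  have hT1 : IsDedekindDomain B ↔ ValuationRing B := hT.out 2 1
  have hT2 : IsDedekindDomain B ↔
      ∀ I : Ideal B, I ≠ ⊥ → ∃ n : ℕ, I = IsLocalRing.maximalIdeal B ^ n := hT.out 2 6
  have hVR : ValuationRing B := hT1.1 inferInstance
  have hpow := hT2.1 inferInstance
  obtain ⟨x, hx⟩ : ∃ x, x = algebraMap (PowerSeries k) B PowerSeries.X := ⟨_, rfl⟩
  have hx0 : x ≠ 0 := by
    rw [hx]
    intro h
    exact PowerSeries.X_ne_zero (hinj (h.trans (map_zero _).symm))
  have hxm : x ∈ IsLocalRing.maximalIdeal B := by
    rw [IsLocalRing.mem_maximalIdeal, mem_nonunits_iff]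
    intro h
    have := (faithfulSMul_iff_algebraMap_injective (PowerSeries k) B).mpr hinj
    rw [hx] at h
    have h1 : IsUnit (PowerSeries.X : PowerSeries k) := isUnit_of_map_unit (algebraMap _ B) _ h
    have h2 := PowerSeries.isUnit_constantCoeff _ h1
    rw [PowerSeries.constantCoeff_X] at h2
    exact not_isUnit_zero h2
  have hN : ∃ N : ℕ, IsLocalRing.maximalIdeal B ^ N ≤ Ideal.span {x} := by
    obtain ⟨N, hN⟩ := hpow (Ideal.span {x}) (by
      rw [Ne, Ideal.span_singleton_eq_bot]
      exact hx0)
    exact ⟨N, hN.symm.le⟩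
  obtain ⟨ψ, hψ⟩ : ∃ ψ : k →+* IsLocalRing.ResidueField B, ψ = (IsLocalRing.residue B).comp
      ((algebraMap (PowerSeries k) B).comp PowerSeries.C) := ⟨_, rfl⟩
  have hres : ∀ r : PowerSeries k, IsLocalRing.residue B (algebraMap _ B r) =
      ψ (PowerSeries.constantCoeff r) := by
    intro r
    have h1 : PowerSeries.X ∣ r - PowerSeries.C (PowerSeries.constantCoeff r) := by
      rw [PowerSeries.X_dvd_iff]
      simp
    obtain ⟨q, hq⟩ := h1
    have h2 : IsLocalRing.residue B (algebraMap _ B
        (r - PowerSeries.C (PowerSeries.constantCoeff r))) = 0 := by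
      rw [IsLocalRing.residue_eq_zero_iff, hq, map_mul, ← hx]
      exact Ideal.mul_mem_right _ _ hxm
    rw [map_sub, map_sub, sub_eq_zero] at h2
    rw [h2, hψ]
    rfl
  let _ : Algebra k (IsLocalRing.ResidueField B) := ψ.toAlgebra
  refine ⟨IsLocalRing.ResidueField B, inferInstance, ψ.toAlgebra, IsLocalRing.residue B, ?_,
    IsLocalRing.residue_surjective, ?_, ?_⟩
  · obtain ⟨n, f, hf⟩ := Module.Finite.exists_fin' (PowerSeries k) B
    refine Module.Finite.of_surjective (Fintype.linearCombination k
      (fun i : Fin n => IsLocalRing.residue B (f fun j => if i = j then 1 else 0))) ?_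
    intro y
    obtain ⟨b, rfl⟩ := IsLocalRing.residue_surjective y
    obtain ⟨w, rfl⟩ := hf b
    refine ⟨fun i => PowerSeries.constantCoeff (w i), ?_⟩
    rw [Fintype.linearCombination_apply, LinearMap.pi_apply_eq_sum_univ f w, map_sum]
    refine Finset.sum_congr rfl fun i _ => ?_
    rw [Algebra.smul_def (w i), map_mul, hres, Algebra.smul_def]
    rfl
  · intro z _
    rcases ValuationRing.isInteger_or_isInteger B z with h | h
    · obtain ⟨b, hb⟩ := h
      exact Or.inl ⟨b, hb⟩
    · obtain ⟨b, hb⟩ := h
      exact Or.inr ⟨b, hb⟩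
  · intro y b hb0 hby
    have h2 : IsUnit (2 : B) := by
      have h3 : IsUnit (2 : k) := (two_ne_zero).isUnit
      have h4 := h3.map ((algebraMap (PowerSeries k) B).comp PowerSeries.C)
      rwa [map_ofNat] at h4
    have h3 : HenselianRing B (Ideal.span {x}) := by
      rw [hx]
      exact ha k B hinj
    refine hc B x h2 h3 hN y b (fun h => hb0 ?_) ?_
    · exact (IsLocalRing.residue_eq_zero_iff b).2 h
    · rw [← IsLocalRing.residue_eq_zero_iff, map_sub, hby, sub_self]

end HEN1

theorem t_HEN1 : S_HEN1 := by
  intro ha hb hc k _ _ L _ _ _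
  let _ : Algebra (PowerSeries k) L :=
    ((algebraMap (LaurentSeries k) L).comp (algebraMap (PowerSeries k) (LaurentSeries k))).toAlgebra
  have hst : IsScalarTower (PowerSeries k) (LaurentSeries k) L := IsScalarTower.of_algebraMap_eq' rfl
  have hcz : CharZero (LaurentSeries k) := by
    have h1 : Function.Injective (((HahnSeries.C : k →+* HahnSeries ℤ k)) : k → LaurentSeries k) :=
      RingHom.injective _
    exact charZero_of_injective_ringHom (f := (HahnSeries.C : k →+* LaurentSeries k)) h1
  have hsep : Algebra.IsSeparable (LaurentSeries k) L := inferInstance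
  have hded : IsDedekindDomain (integralClosure (PowerSeries k) L) :=
    integralClosure.isDedekindDomain (PowerSeries k) (LaurentSeries k) L
  have hfin : Module.Finite (PowerSeries k) (integralClosure (PowerSeries k) L) :=
    IsIntegralClosure.finite (PowerSeries k) (LaurentSeries k) L _
  have hfr : IsFractionRing (integralClosure (PowerSeries k) L) L :=
    integralClosure.isFractionRing_of_finite_extension (LaurentSeries k) L
  have hinjL : Function.Injective (algebraMap (PowerSeries k) L) := by
    change Function.Injective (((algebraMap (LaurentSeries k) L).comp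
      (algebraMap (PowerSeries k) (LaurentSeries k))))
    rw [RingHom.coe_comp]
    exact (RingHom.injective _).comp (IsFractionRing.injective (PowerSeries k) (LaurentSeries k))
  have hinj : Function.Injective (algebraMap (PowerSeries k) (integralClosure (PowerSeries k) L)) := by
    intro a b h
    exact hinjL (congrArg (fun z : integralClosure (PowerSeries k) L => (z : L)) h)
  obtain ⟨κ, i1, i2, res, h1, h2, h3, h4⟩ := HEN1.core ha hb hc k
    (integralClosure (PowerSeries k) L) hinj L
  have hinjB : Function.Injective (algebraMap (integralClosure (PowerSeries k) L) L) :=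
    Subtype.val_injective
  let e : (integralClosure (PowerSeries k) L) ≃+*
      (algebraMap (integralClosure (PowerSeries k) L) L).range :=
    RingEquiv.ofBijective (algebraMap (integralClosure (PowerSeries k) L) L).rangeRestrict
      ⟨fun a b h => hinjB (show algebraMap _ L a = algebraMap _ L b from
        congrArg (fun z : (algebraMap (integralClosure (PowerSeries k) L) L).range => (z : L)) h),
        RingHom.rangeRestrict_surjective _⟩
  refine ⟨(algebraMap (integralClosure (PowerSeries k) L) L).range, κ, i1, i2,
    res.comp (e.symm : _ →+* _), h1, ?_, ?_, ?_⟩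
  · exact h2.comp e.symm.surjective
  · intro x hx
    rcases h3 x hx with ⟨b, hb⟩ | ⟨b, hb⟩
    · exact Or.inl ⟨b, hb⟩
    · exact Or.inr ⟨b, hb⟩
  · intro y b hb0 hby
    obtain ⟨c, hc⟩ := h4 (e.symm y) (e.symm b) hb0 (by
      have h5 : res (e.symm (b ^ 2)) = res (e.symm y) := hby
      rwa [map_pow] at h5)
    refine ⟨e c, ?_⟩
    rw [← map_pow, hc, e.apply_symm_apply]

end Pool.Agent.N825.WP
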