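import Pool.Agent.N825.WP.Stm

set_option autoImplicit false

/-! Condition (A) passes to the field of Laurent series. -/

namespace Pool.Agent.N825.WP.HEN2

open Pool.Agent.N825.WP

theorem list_of {R : Type} [CommRing R] {s : R} (h : IsSumSq s) :
    ∃ l : List R, (l.map fun x => x * x).sum = s := by
  induction h with
  | zero => exact ⟨[], rfl⟩
  | sq_add a _ ih =>
    obtain ⟨l, hl⟩ := ih
    exact ⟨a :: l, by rw [List.map_cons, List.sum_cons, hl]⟩

theorem of_list {R : Type} [CommRing R] (l : List R) : IsSumSq (l.map fun x => x * x).sum := by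
  induction l with
  | nil => exact IsSumSq.zero
  | cons a l ih =>
    rw [List.map_cons, List.sum_cons]
    exact IsSumSq.sq_add a ih

theorem choose {L : Type} [Field L] (B : Subring L) (h : ∀ x : L, x ≠ 0 → x ∈ B ∨ x⁻¹ ∈ B)
    (l : List L) : (∃ z ∈ l, z ≠ 0) → ∃ x ∈ l, x ≠ 0 ∧ ∀ y ∈ l, y * x⁻¹ ∈ B := by
  induction l with
  | nil => rintro ⟨z, hz, _⟩; simp at hz
  | cons a l ih =>
    intro hz
    by_cases hl : ∃ z ∈ l, z ≠ 0
    · obtain ⟨x, hx, hx0, hxl⟩ := ih hl
      by_cases ha : a = 0
      · refine ⟨x, List.mem_cons_of_mem _ hx, hx0, fun y hy => ?_⟩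
        rcases List.mem_cons.1 hy with rfl | hy
        · rw [ha, zero_mul]; exact B.zero_mem
        · exact hxl y hy
      · have hz0 : a * x⁻¹ ≠ 0 := mul_ne_zero ha (inv_ne_zero hx0)
        rcases h _ hz0 with h1 | h1
        · refine ⟨x, List.mem_cons_of_mem _ hx, hx0, fun y hy => ?_⟩
          rcases List.mem_cons.1 hy with rfl | hy
          · exact h1
          · exact hxl y hy
        · refine ⟨a, List.mem_cons_self, ha, fun y hy => ?_⟩
          rcases List.mem_cons.1 hy with rfl | hy
          · rw [mul_inv_cancel₀ ha]; exact B.one_mem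
          · have h2 : y * a⁻¹ = (y * x⁻¹) * (a * x⁻¹)⁻¹ := by
              rw [mul_inv, inv_inv]
              field_simp
            rw [h2]
            exact B.mul_mem (hxl y hy) h1
    · push Not at hl
      obtain ⟨z, hz, hz0⟩ := hz
      rcases List.mem_cons.1 hz with rfl | hz
      · refine ⟨z, List.mem_cons_self, hz0, fun y hy => ?_⟩
        rcases List.mem_cons.1 hy with rfl | hy
        · rw [mul_inv_cancel₀ hz0]; exact B.one_mem
        · rw [hl y hy, zero_mul]; exact B.zero_mem
      · exact absurd (hl z hz) hz0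

theorem sum_val {L : Type} [Field L] (B : Subring L) (l : List B) :
    (((l.map fun x => x * x).sum : B) : L) = ((l.map (fun x : B => (x : L))).map fun x => x * x).sum := by
  induction l with
  | nil => simp
  | cons a l ih => simp [ih]

theorem sum_res {R S : Type} [CommRing R] [CommRing S] (f : R →+* S) (l : List R) :
    f ((l.map fun x => x * x).sum) = ((l.map f).map fun x => x * x).sum := by
  induction l with
  | nil => simp
  | cons a l ih => simp [ih]

theorem sum_scale {L : Type} [Field L] (c : L) (l : List L) :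
    ((l.map fun y => y * c).map fun x => x * x).sum = (l.map fun x => x * x).sum * (c * c) := by
  induction l with
  | nil => simp
  | cons a l ih =>
    simp only [List.map_cons, List.sum_cons, ih]
    ring

end Pool.Agent.N825.WP.HEN2

namespace Pool.Agent.N825.WP

open Pool.Agent.N825.WP.HEN2 in
/-- HEN2: condition (A) passes to the field of Laurent series. -/
theorem t_HEN2 : S_HEN2 := by
  intro ha hb hc h1 k _ _ hA L _ _ _ hs
  obtain ⟨B, κ, _, _, res, hfin, hsur, htot, hhen⟩ := h1 ha hb hc k L
  -- `-1` is a sum of squares in `κ`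
  have hκ : IsSumSq (-1 : κ) := by
    obtain ⟨l, hl⟩ := list_of hs
    obtain ⟨x, hx, hx0, hxB⟩ := choose B htot (1 :: l) ⟨1, List.mem_cons_self, one_ne_zero⟩
    set l₁ : List L := (1 :: l).map fun y => y * x⁻¹ with hl₁
    have h2 : ∀ y ∈ l₁, y ∈ B := by
      intro y hy
      rw [hl₁, List.mem_map] at hy
      obtain ⟨z, hz, rfl⟩ := hy
      exact hxB z hz
    have h3 : (l₁.map fun x => x * x).sum = 0 := by
      rw [hl₁, sum_scale, List.map_cons, List.sum_cons, hl]
      ring
    have h4 : (1 : L) ∈ l₁ := by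
      rw [hl₁, List.mem_map]
      exact ⟨x, hx, mul_inv_cancel₀ hx0⟩
    obtain ⟨l₂, hl₂⟩ : ∃ l₂ : List B, l₂.map (fun x : B => (x : L)) = l₁ := by
      refine ⟨l₁.attach.map fun y => (⟨y.1, h2 y.1 y.2⟩ : B), ?_⟩
      rw [List.map_map]
      exact List.attach_map_subtype_val l₁
    have h5 : (l₂.map fun x => x * x).sum = 0 := by
      apply Subtype.ext
      rw [sum_val, hl₂, h3]
      rfl
    have h6 : (1 : B) ∈ l₂ := by
      rw [← hl₂, List.mem_map] at h4
      obtain ⟨b, hb, hb1⟩ := h4
      have hb2 : b = 1 := OneMemClass.coe_eq_one.mp hb1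
      rwa [← hb2]
    have h7 : ((l₂.map res).map fun x => x * x).sum = 0 := by
      rw [← sum_res, h5, map_zero]
    have h8 : (1 : κ) ∈ l₂.map res := by
      rw [List.mem_map]
      exact ⟨1, h6, map_one res⟩
    classical
    have h9 : ((l₂.map res).map fun x => x * x).sum
        = 1 * 1 + (((l₂.map res).erase 1).map fun x => x * x).sum := by
      rw [← List.sum_cons, ← List.map_cons (f := fun x : κ => x * x)]
      exact ((List.perm_cons_erase h8).map _).sum_eq
    have h10 : (((l₂.map res).erase 1).map fun x => x * x).sum = -1 := by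
      rw [h7, mul_one] at h9
      linear_combination -h9
    rw [← h10]
    exact of_list _
  obtain ⟨a, b, hab⟩ := hA κ hκ
  have main : ∀ a b : κ, b ≠ 0 → a ^ 2 + b ^ 2 = -1 → ∃ u v : L, u ^ 2 + v ^ 2 = -1 := by
    intro a b hb0 hab
    obtain ⟨A, rfl⟩ := hsur a
    obtain ⟨D, rfl⟩ := hsur b
    obtain ⟨c, hc⟩ := hhen (-1 - A ^ 2) D hb0 (by
      rw [map_pow, map_sub, map_neg, map_one, map_pow]
      linear_combination hab)
    refine ⟨(A : L), (c : L), ?_⟩
    have h := congrArg (fun z : B => (z : L)) hc
    push_cast at h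
    rw [h]
    ring
  by_cases hb0 : b = 0
  · have ha0 : a ≠ 0 := by
      rintro rfl
      rw [hb0] at hab
      have : (1 : κ) = 0 := by linear_combination hab
      exact one_ne_zero this
    exact main b a ha0 (by rw [add_comm]; exact hab)
  · exact main a b hb0 hab

end Pool.Agent.N825.WP
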