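import Pool.Agent.N825.WP.Stm

/-!
# Project WP (helper825), leaf HENa (helper492): a finite extension of `k⟦X⟧` is henselian at `X`
-/

set_option autoImplicit false

open PowerSeries

namespace Pool.Agent.N825.WP

namespace HENa

section

variable {R B : Type} [CommRing R] [CommRing B] [Algebra R B] {ι : Type} [Fintype ι]

/-- divisibility by an element of the base is seen on the coordinates -/
theorem dvd_iff (b : Module.Basis ι R B) (p : R) (x : B) :
    algebraMap R B p ∣ x ↔ ∀ i, p ∣ b.repr x i := by
  constructor
  · rintro ⟨y, rfl⟩ i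
    rw [← Algebra.smul_def, map_smul, Finsupp.smul_apply, smul_eq_mul]
    exact dvd_mul_right _ _
  · intro h
    choose d hd using h
    refine ⟨∑ i, d i • b i, ?_⟩
    rw [← Algebra.smul_def, Finset.smul_sum]
    conv_lhs => rw [← b.sum_repr x]
    refine Finset.sum_congr rfl fun i _ => ?_
    rw [hd i, smul_smul]

theorem smodEq_iff {A : Type} [CommRing A] (p : A) (n : ℕ) (x y : A) :
    x ≡ y [SMOD ((Ideal.span {p}) ^ n • ⊤ : Submodule A A)] ↔ p ^ n ∣ x - y := by
  rw [SModEq.sub_mem, smul_eq_mul, Ideal.mul_top, Ideal.span_singleton_pow,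
    Ideal.mem_span_singleton]

/-- finite free algebras over a complete ring are complete -/
theorem complete (b : Module.Basis ι R B) (p : R) [h : IsAdicComplete (Ideal.span {p}) R] :
    IsAdicComplete (Ideal.span {algebraMap R B p}) B := by
  have h1 : IsHausdorff (Ideal.span {algebraMap R B p}) B := by
    refine ⟨fun x hx => ?_⟩
    apply b.repr.injective
    rw [map_zero]
    ext i
    refine IsHausdorff.haus (I := Ideal.span {p}) inferInstance _ fun n => ?_
    have h2 := (smodEq_iff (algebraMap R B p) n x 0).1 (hx n)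
    rw [smodEq_iff, sub_zero]
    rw [sub_zero, ← map_pow] at h2
    exact (dvd_iff b (p ^ n) x).1 h2 i
  have h2 : IsPrecomplete (Ideal.span {algebraMap R B p}) B := by
    refine ⟨fun f hf => ?_⟩
    have h3 : ∀ i, ∃ L : R, ∀ n, b.repr (f n) i ≡ L
        [SMOD ((Ideal.span {p}) ^ n • ⊤ : Submodule R R)] := by
      intro i
      refine IsPrecomplete.prec (I := Ideal.span {p}) inferInstance fun {m n} hmn => ?_
      have h4 := (smodEq_iff (algebraMap R B p) m (f m) (f n)).1 (hf hmn)
      rw [← map_pow] at h4
      have h5 := (dvd_iff b (p ^ m) _).1 h4 i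
      rw [smodEq_iff]
      rwa [map_sub, Finsupp.sub_apply] at h5
    choose L hL using h3
    refine ⟨∑ i, L i • b i, fun n => ?_⟩
    rw [smodEq_iff, ← map_pow, dvd_iff b]
    intro i
    have h4 := (smodEq_iff p n _ _).1 (hL i n)
    have h5 : b.repr (∑ i, L i • b i) i = L i := by
      rw [b.repr_sum_self]
    rwa [map_sub, Finsupp.sub_apply, h5]
  exact { h1, h2 with }

end

end HENa

open HENa in
theorem t_HENa : S_HENa := by
  intro k _ B _ _ _ _ hinj
  have h1 : Module.IsTorsionFree (PowerSeries k) B :=
    Module.isTorsionFree_iff_algebraMap_injective.2 hinj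
  have h2 : Module.Free (PowerSeries k) B := Module.free_of_finite_type_torsion_free'
  have b := Module.Free.chooseBasis (PowerSeries k) B
  have h3 : IsAdicComplete (Ideal.span {algebraMap (PowerSeries k) B PowerSeries.X}) B :=
    complete b PowerSeries.X
  infer_instance

end Pool.Agent.N825.WP
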