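import Pool.Agent.N825.WP.Stm

/-!
# Project WP: a Dedekind domain which is finite over `k⟦X⟧` is local (helper543)
-/

set_option autoImplicit false

namespace Pool.Agent.N825.WP

open Polynomial

namespace HENb

theorem x_mem {k : Type} [Field k] {B : Type} [CommRing B] [Algebra (PowerSeries k) B]
    [Module.Finite (PowerSeries k) B] (P : Ideal B) (hP : P.IsMaximal) :
    algebraMap (PowerSeries k) B PowerSeries.X ∈ P := by
  have h1 : (P.comap (algebraMap (PowerSeries k) B)).IsMaximal :=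
    Ideal.isMaximal_comap_of_isIntegral_of_isMaximal P
  have h2 := IsLocalRing.eq_maximalIdeal h1
  have h3 : (PowerSeries.X : PowerSeries k) ∈ IsLocalRing.maximalIdeal (PowerSeries k) := by
    rw [IsLocalRing.mem_maximalIdeal, mem_nonunits_iff]
    exact PowerSeries.X_prime.not_isUnit
  rw [← h2] at h3
  exact h3

/-- the separating element -/
theorem sep {B : Type} [CommRing B] [IsDedekindDomain B] (x : B) (hx : x ≠ 0) (P Q : Ideal B)
    (hP : P.IsMaximal) (hQ : Q.IsMaximal) (hPQ : P ≠ Q) (hxP : x ∈ P) (hxQ : x ∈ Q) :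
    ∃ e : B, e ∈ P ∧ 1 - e ∈ Q ∧ e * (1 - e) ∈ Ideal.span {x} := by
  have hP0 : P ≠ ⊥ := by
    rintro rfl
    exact hx (Ideal.mem_bot.1 hxP)
  have hPp : Prime P := Ideal.prime_of_isPrime hP0 hP.isPrime
  have hX0 : Ideal.span {x} ≠ 0 := by
    rw [Ideal.zero_eq_bot, Ne, Ideal.span_singleton_eq_bot]
    exact hx
  obtain ⟨n, J, hJ, hf⟩ := WfDvdMonoid.max_power_factor hX0 hPp.irreducible
  rw [Ideal.dvd_iff_le] at hJ
  have hn : n ≠ 0 := by
    rintro rfl
    rw [pow_zero, one_mul] at hf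
    rw [← hf, Ideal.span_singleton_le_iff_mem] at hJ
    exact hJ hxP
  have hco : IsCoprime P J := by
    rw [Ideal.isCoprime_iff_sup_eq]
    refine hP.1.2 (P ⊔ J) (lt_of_le_of_ne le_sup_left fun h => hJ ?_)
    rw [h]
    exact le_sup_right
  have hco2 : IsCoprime (P ^ n) J := hco.pow_left
  rw [Ideal.isCoprime_iff_exists] at hco2
  obtain ⟨e, he, f, hfJ, hef⟩ := hco2
  have h1e : 1 - e = f := by rw [← hef]; ring
  refine ⟨e, Ideal.pow_le_self hn he, ?_, ?_⟩
  · rw [h1e]
    have h2 : P ^ n * J ≤ Q := by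
      rw [← hf, Ideal.span_singleton_le_iff_mem]
      exact hxQ
    rcases (hQ.isPrime.mul_le).1 h2 with h3 | h3
    · exfalso
      have h4 : P ≤ Q := hQ.isPrime.le_of_pow_le h3
      exact hPQ (hP.eq_of_le hQ.ne_top h4)
    · exact h3 hfJ
  · rw [h1e, hf]
    exact Ideal.mul_mem_mul he hfJ

end HENb

theorem t_HENb : S_HENb := by
  intro hA k _ B _ _ _ _ hinj
  have hH := hA k B hinj
  obtain ⟨x, hx⟩ : ∃ x, x = algebraMap (PowerSeries k) B PowerSeries.X := ⟨_, rfl⟩
  rw [← hx] at hH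
  have hx0 : x ≠ 0 := by
    intro h
    rw [hx] at h
    exact PowerSeries.X_prime.ne_zero (hinj (by rw [map_zero]; exact h))
  have hmem : ∀ P : Ideal B, P.IsMaximal → x ∈ P := fun P hP => by
    rw [hx]
    exact HENb.x_mem P hP
  apply IsLocalRing.of_unique_max_ideal
  obtain ⟨P, hP⟩ := Ideal.exists_maximal B
  refine ⟨P, hP, fun Q hQ => ?_⟩
  by_contra hQP
  obtain ⟨e, he, he1, hee⟩ := HENb.sep x hx0 P Q hP hQ (Ne.symm hQP) (hmem P hP) (hmem Q hQ)
  have hmonic : (X ^ 2 - X : B[X]).Monic := by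
    have h1 : (X ^ 2 - X : B[X]) = X ^ 2 + (-X) := by ring
    rw [h1]
    refine Polynomial.monic_X_pow_add ?_
    rw [Polynomial.degree_neg, Polynomial.degree_X]
    norm_num
  have hev : (X ^ 2 - X : B[X]).eval e ∈ Ideal.span {x} := by
    have h1 : (X ^ 2 - X : B[X]).eval e = -(e * (1 - e)) := by
      simp
      ring
    rw [h1]
    exact (Ideal.span {x}).neg_mem hee
  have hun : IsUnit (Ideal.Quotient.mk (Ideal.span {x}) ((X ^ 2 - X : B[X]).derivative.eval e)) := by
    have h1 : (X ^ 2 - X : B[X]).derivative.eval e = 2 * e - 1 := by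
      simp
      left
      norm_num
    rw [h1]
    refine IsUnit.of_mul_eq_one (Ideal.Quotient.mk (Ideal.span {x}) (2 * e - 1)) ?_
    rw [← map_mul, ← map_one (Ideal.Quotient.mk (Ideal.span {x})), Ideal.Quotient.eq]
    have h2 : (2 * e - 1) * (2 * e - 1) - 1 = (-4) * (e * (1 - e)) := by ring
    rw [h2]
    exact Ideal.mul_mem_left _ _ hee
  obtain ⟨a, ha, hae⟩ := hH.is_henselian _ hmonic e hev hun
  have ha' : a * (a - 1) = 0 := by
    have h1 : (X ^ 2 - X : B[X]).eval a = 0 := ha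
    simp at h1
    linear_combination h1
  have hle : ∀ R : Ideal B, R.IsMaximal → Ideal.span {x} ≤ R := fun R hR => by
    rw [Ideal.span_singleton_le_iff_mem]
    exact hmem R hR
  rcases mul_eq_zero.1 ha' with h0 | h0
  · have h1 : e ∈ Q := by
      have := hle Q hQ hae
      rw [h0, zero_sub] at this
      exact (Ideal.neg_mem_iff Q).1 this
    exact hQ.ne_top ((Ideal.eq_top_iff_one Q).2 (by
      have := Q.add_mem h1 he1
      rwa [add_sub_cancel] at this))
  · have h1 : 1 - e ∈ P := by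
      have := hle P hP hae
      rw [sub_eq_zero.1 h0] at this
      exact this
    exact hP.ne_top ((Ideal.eq_top_iff_one P).2 (by
      have := P.add_mem he h1
      rwa [add_sub_cancel] at this))

end Pool.Agent.N825.WP
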