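import Pool.Agent.N825.WP.Stm

/-!
# Project WP: square roots in a local domain which is henselian at `x` (helper169)
-/

set_option autoImplicit false

namespace Pool.Agent.N825.WP

namespace HENc

open IsLocalRing

theorem newton {B : Type} [CommRing B] [IsLocalRing B] (h2 : IsUnit (2 : B)) (y b : B)
    (hb : b ∉ maximalIdeal B) (hy : b ^ 2 - y ∈ maximalIdeal B) :
    ∀ j : ℕ, ∃ c : B, c ∉ maximalIdeal B ∧ c ^ 2 - y ∈ maximalIdeal B ^ (2 ^ j) := by
  intro j
  induction j with
  | zero => exact ⟨b, hb, by rw [pow_zero, pow_one]; exact hy⟩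
  | succ j ih =>
    obtain ⟨c, hc, hcy⟩ := ih
    have hu : IsUnit (2 * c) := h2.mul (notMem_maximalIdeal.1 hc)
    obtain ⟨w, hw⟩ := hu.exists_right_inv
    have he : (c ^ 2 - y) * w ∈ maximalIdeal B ^ (2 ^ j) := Ideal.mul_mem_right _ _ hcy
    refine ⟨c - (c ^ 2 - y) * w, fun h => hc ?_, ?_⟩
    · have h1 : (c ^ 2 - y) * w ∈ maximalIdeal B :=
        Ideal.pow_le_self (by positivity) he
      have h3 := add_mem h h1
      rwa [sub_add_cancel] at h3
    · have h1 : (c - (c ^ 2 - y) * w) ^ 2 - y = ((c ^ 2 - y) * w) * ((c ^ 2 - y) * w) := by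
        linear_combination (-(c ^ 2 - y)) * hw
      rw [h1, pow_succ, mul_two, pow_add]
      exact Ideal.mul_mem_mul he he

end HENc

open HENc in
/-- HENc: square roots. -/
theorem t_HENc : S_HENc := by
  intro B _ _ _ x h2 hH hN y b hb hy
  obtain ⟨N, hN⟩ := hN
  obtain ⟨c, hc, hcy⟩ := newton h2 y b hb hy N
  have hx : c ^ 2 - y ∈ Ideal.span {x} :=
    hN (Ideal.pow_le_pow_right (Nat.lt_two_pow_self).le hcy)
  obtain ⟨a, ha, -⟩ := hH.is_henselian (Polynomial.X ^ 2 - Polynomial.C y)
    (Polynomial.monic_X_pow_sub_C y two_ne_zero) c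
    (by simpa using hx)
    (by
      apply IsUnit.map
      have h3 : Polynomial.eval c (Polynomial.derivative (Polynomial.X ^ 2 - Polynomial.C y)) = 2 * c := by
        simp
        left
        norm_num
      rw [h3]
      exact h2.mul (IsLocalRing.notMem_maximalIdeal.1 hc))
  refine ⟨a, ?_⟩
  have h4 : a ^ 2 - y = 0 := by simpa using ha
  exact sub_eq_zero.1 h4

end Pool.Agent.N825.WP
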