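import Pool.Agent.N825.WP.Stm

set_option autoImplicit false

/-! The values of an anisotropic diagonal form over Laurent series have even order. -/

namespace Pool.Agent.N825.WP.LAU0

open Pool.Agent.N825.WP HahnSeries

/-- A Laurent series whose coefficients below `N` vanish is `X ^ N` times a power series. -/
theorem shift {k : Type} [Field k] (N : ℤ) (x : LaurentSeries k) (hx : ∀ j : ℤ, j < N → x.coeff j = 0) :
    x = (single N (1 : k) : LaurentSeries k) *
      (HahnSeries.ofPowerSeries ℤ k (PowerSeries.mk fun m : ℕ => x.coeff (N + m))) := by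
  ext j
  rw [coeff_single_mul, one_mul, PowerSeries.coeff_coe]
  split_ifs with h
  · exact hx j (by omega)
  · rw [PowerSeries.coeff_mk]
    congr 1
    omega

/-- A power series with nonzero constant coefficient has order zero. -/
theorem order_zero {k : Type} [Field k] (p : PowerSeries k) (hp : PowerSeries.constantCoeff p ≠ 0) :
    HahnSeries.ofPowerSeries ℤ k p ≠ 0 ∧ (HahnSeries.ofPowerSeries ℤ k p).order = 0 := by
  have h0 : (HahnSeries.ofPowerSeries ℤ k p).coeff 0 ≠ 0 := by
    rw [PowerSeries.coeff_coe]
    simpa using hp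
  have h1 : HahnSeries.ofPowerSeries ℤ k p ≠ 0 := by
    intro h
    rw [h] at h0
    exact h0 rfl
  refine ⟨h1, le_antisymm (order_le_of_coeff_ne_zero h0) ?_⟩
  rw [le_order_iff_forall h1]
  intro j hj
  rw [PowerSeries.coeff_coe, if_pos hj]

end Pool.Agent.N825.WP.LAU0

namespace Pool.Agent.N825.WP

open HahnSeries

/-- Values of an anisotropic diagonal form have even order. -/
theorem t_LAU0 : S_LAU0 := by
  intro k _ n c hc x hx
  classical
  have hne : (Finset.univ.filter fun i => x i ≠ 0).Nonempty := by
    by_contra h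
    rw [Finset.not_nonempty_iff_eq_empty] at h
    apply hx
    funext i
    by_contra hi
    have hi2 : x i ≠ 0 := hi
    have : i ∈ (Finset.univ.filter fun i => x i ≠ 0) := by simp [hi2]
    rw [h] at this
    simp at this
  obtain ⟨i₀, hi₀, hmin⟩ := Finset.exists_min_image _ (fun i => (x i).order) hne
  have hi₀' : x i₀ ≠ 0 := by simpa using hi₀
  set N : ℤ := (x i₀).order with hN
  have hlow : ∀ i, ∀ j : ℤ, j < N → (x i).coeff j = 0 := by
    intro i j hj
    by_cases hi : x i = 0
    · rw [hi]; rfl
    · have h1 : N ≤ (x i).order := hmin i (by simp [hi])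
      exact coeff_eq_zero_of_lt_order (lt_of_lt_of_le hj h1)
  set y : Fin n → PowerSeries k := fun i => PowerSeries.mk fun m : ℕ => (x i).coeff (N + m) with hy
  have hxy : ∀ i, x i = (single N (1 : k) : LaurentSeries k) * HahnSeries.ofPowerSeries ℤ k (y i) :=
    fun i => LAU0.shift N (x i) (hlow i)
  set S : PowerSeries k := ∑ i, c i * y i ^ 2 with hS
  have hS0 : PowerSeries.constantCoeff S ≠ 0 := by
    intro h
    rw [hS, map_sum] at h
    have h2 := hc (fun i => PowerSeries.constantCoeff (y i)) (by
      rw [← h]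
      refine Finset.sum_congr rfl fun i _ => ?_
      rw [map_mul, map_pow])
    have h3 := congrFun h2 i₀
    have h4 : PowerSeries.constantCoeff (y i₀) = (x i₀).coeff N := by
      rw [hy, ← PowerSeries.coeff_zero_eq_constantCoeff_apply, PowerSeries.coeff_mk]
      simp
    simp only [Pi.zero_apply] at h3
    rw [h4, hN, coeff_order_eq_zero] at h3
    exact hi₀' h3
  have hsum : (∑ i, (c i : LaurentSeries k) * x i ^ 2) =
      (single (2 * N) (1 : k) : LaurentSeries k) * HahnSeries.ofPowerSeries ℤ k S := by
    rw [hS, map_sum, Finset.mul_sum]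
    refine Finset.sum_congr rfl fun i _ => ?_
    rw [hxy i, mul_pow, map_mul, map_pow]
    have h5 : (single N (1 : k) : LaurentSeries k) ^ 2 = single (2 * N) (1 : k) := by
      rw [pow_two, single_mul_single, mul_one, two_mul]
    rw [h5]
    ring
  obtain ⟨hS1, hS2⟩ := LAU0.order_zero S hS0
  have h6 : (single (2 * N) (1 : k) : LaurentSeries k) ≠ 0 := by
    rw [Ne, single_eq_zero_iff]
    exact one_ne_zero
  rw [hsum]
  refine ⟨mul_ne_zero h6 hS1, ?_⟩
  rw [order_mul h6 hS1, hS2, order_single one_ne_zero, add_zero]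
  exact ⟨N, by ring⟩

end Pool.Agent.N825.WP
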