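import Pool.Agent.N825.WP.Stm

/-!
# Project WP (helper825), part LAU1 (helper862): the two conditions over `k((z))`
-/

set_option autoImplicit false
set_option linter.all false

namespace Pool.Agent.N825.WP.LAU1

open Pool.Agent.N825.WI Pool.Agent.N825.WP

variable {k : Type} [Field k]

/-- sums of squares -/
theorem freal (h0 : S_LAU0) (hk : FReal k) (n : ℕ) (x : Fin n → LaurentSeries k) (hx : x ≠ 0) :
    ∑ i, x i ^ 2 ≠ 0 ∧ Even (HahnSeries.order (∑ i, x i ^ 2)) := by
  have h1 := h0 k n (fun _ => 1) (fun y hy => by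
    simp only [map_one, one_mul] at hy
    funext i
    exact hk n y hy i) x hx
  have h2 : (∑ i, (((1 : PowerSeries k) : LaurentSeries k)) * x i ^ 2) = ∑ i, x i ^ 2 := by
    refine Finset.sum_congr rfl fun i _ => ?_
    rw [PowerSeries.coe_one, one_mul]
  rw [h2] at h1
  exact h1

/-- odd and even orders -/
theorem key (h0 : S_LAU0) (hk : FReal k) (e : ℤ) (he : Odd e) (n m : ℕ)
    (c : Fin n → PowerSeries k)
    (hc : ∀ x : Fin n → k, ∑ i, PowerSeries.constantCoeff (c i) * x i ^ 2 = 0 → x = 0)
    (x : Fin n → LaurentSeries k) (z : Fin m → LaurentSeries k)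
    (h : HahnSeries.single e 1 * (∑ i, (c i : LaurentSeries k) * x i ^ 2) + ∑ i, z i ^ 2 = 0) :
    x = 0 ∧ z = 0 := by
  have hs : (HahnSeries.single e (1 : k)) ≠ 0 := by
    rw [ne_eq, HahnSeries.single_eq_zero_iff]
    exact one_ne_zero
  have hx : x = 0 := by
    by_contra hx
    obtain ⟨h1, h2⟩ := h0 k n c hc x hx
    have hz : z ≠ 0 := by
      rintro rfl
      have h3 : ∑ i : Fin m, ((0 : Fin m → LaurentSeries k) i) ^ 2 = 0 := by
        refine Finset.sum_eq_zero fun i _ => ?_
        simp
      rw [h3, add_zero] at h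
      rcases mul_eq_zero.1 h with h4 | h4
      · exact hs h4
      · exact h1 h4
    obtain ⟨h3, h4⟩ := freal h0 hk m z hz
    have h5 : ∑ i, z i ^ 2 = -(HahnSeries.single e 1 *
        (∑ i, (c i : LaurentSeries k) * x i ^ 2)) := eq_neg_of_add_eq_zero_right h
    rw [h5, HahnSeries.order_neg, HahnSeries.order_mul hs h1,
      HahnSeries.order_single one_ne_zero] at h4
    exact (Int.not_even_iff_odd.2 (he.add_even h2)) h4
  refine ⟨hx, ?_⟩
  by_contra hz
  obtain ⟨h3, h4⟩ := freal h0 hk m z hz
  apply h3
  subst hx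
  have h5 : ∑ i : Fin n, (c i : LaurentSeries k) * ((0 : Fin n → LaurentSeries k) i) ^ 2 = 0 := by
    refine Finset.sum_eq_zero fun i _ => ?_
    simp
  rw [h5, mul_zero, zero_add] at h
  exact h

theorem coe3 : (((3 + 3 * PowerSeries.X : PowerSeries k)) : LaurentSeries k) =
    3 + 3 * HahnSeries.single 1 1 := by
  rw [PowerSeries.coe_add, PowerSeries.coe_mul, PowerSeries.coe_X]
  have h : (((3 : PowerSeries k)) : LaurentSeries k) = 3 := by
    exact map_ofNat (HahnSeries.ofPowerSeries ℤ k) 3
  rw [h]

end Pool.Agent.N825.WP.LAU1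

namespace Pool.Agent.N825.WP

open Pool.Agent.N825.WI LAU1

/-- **LAU1.** -/
theorem t_LAU1 : S_LAU1 := by
  intro h0 k _ hk h3
  have hcc : PowerSeries.constantCoeff (-(3 + 3 * PowerSeries.X : PowerSeries k)) = -3 := by
    have h : PowerSeries.constantCoeff (3 : PowerSeries k) = 3 :=
      map_ofNat (PowerSeries.constantCoeff (R := k)) 3
    simp [h]
  refine ⟨?_, ?_, ?_⟩
  · intro n x hx
    by_contra hcon
    have hx0 : x ≠ 0 := by
      rintro rfl
      exact hcon fun i => rfl
    exact (freal h0 hk n x hx0).1 hx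
  · intro m x y z h
    have h1 := key h0 hk 1 odd_one 2 m ![1, -(3 + 3 * PowerSeries.X)] (by
      intro v hv
      rw [Fin.sum_univ_two] at hv
      simp only [Matrix.cons_val_zero, Matrix.cons_val_one, map_one, one_mul, hcc] at hv
      have h2 := h3 (v 1) (v 0) 0 (by linear_combination -hv)
      funext i
      fin_cases i
      · exact h2.2.1
      · exact h2.1) ![x, y] z (by
      rw [Fin.sum_univ_two]
      simp only [Matrix.cons_val_zero, Matrix.cons_val_one]
      rw [PowerSeries.coe_one, PowerSeries.coe_neg, coe3]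
      rw [← h]
      ring)
    refine ⟨?_, ?_, h1.2⟩
    · have := congrFun h1.1 0
      simpa using this
    · have := congrFun h1.1 1
      simpa using this
  · intro m x y y' z h
    have hs : (HahnSeries.single (-1 : ℤ) (1 : k)) * HahnSeries.single (1 : ℤ) (1 : k) = 1 := by
      rw [HahnSeries.single_mul_single]
      simp
    have h1 := key h0 hk (-1) (by decide) 3 m ![-(3 + 3 * PowerSeries.X), 1, 1] (by
      intro v hv
      rw [Fin.sum_univ_three] at hv
      simp only [Matrix.cons_val_zero, Matrix.cons_val_one, Matrix.cons_val, map_one, one_mul,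
        hcc] at hv
      have h2 := h3 (v 0) (v 1) (v 2) (by linear_combination -hv)
      funext i
      fin_cases i
      · exact h2.1
      · exact h2.2.1
      · exact h2.2.2) ![x, y, y'] z (by
      rw [Fin.sum_univ_three]
      simp only [Matrix.cons_val_zero, Matrix.cons_val_one, Matrix.cons_val]
      rw [PowerSeries.coe_one, PowerSeries.coe_neg, coe3]
      rw [← h]
      linear_combination (-3 * x ^ 2) * hs)
    refine ⟨?_, ?_, ?_, h1.2⟩
    · have := congrFun h1.1 0
      simpa using this
    · have := congrFun h1.1 1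
      simpa using this
    · have := congrFun h1.1 2
      simpa using this

end Pool.Agent.N825.WP
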