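import Pool.Agent.N825.WP.Stm

/-!
# Cardinality of the field of Laurent series and two embeddings of the rational functions (helper353)
-/

set_option autoImplicit false

namespace Pool.Agent.N825.WP.LAU2

open Polynomial
open scoped RatFunc

theorem uncountable_laurent (k : Type) [Field k] : ¬ Countable (LaurentSeries k) := by
  classical
  intro hc
  let g : Set ℕ → PowerSeries k := fun s => PowerSeries.mk fun n => if n ∈ s then (1 : k) else 0
  have hg : Function.Injective g := by
    intro s t h
    ext n
    have h1 : PowerSeries.coeff n (g s) = PowerSeries.coeff n (g t) := by rw [h]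
    simp only [g, PowerSeries.coeff_mk] at h1
    by_cases hs : n ∈ s <;> by_cases ht : n ∈ t <;> simp [hs, ht] at h1 ⊢
  have hi : Function.Injective fun s : Set ℕ => HahnSeries.ofPowerSeries ℤ k (g s) :=
    HahnSeries.ofPowerSeries_injective.comp hg
  obtain ⟨f, hf⟩ := Countable.exists_injective_nat (LaurentSeries k)
  exact Function.cantor_injective _ (hf.comp hi)

theorem inv_alg (k : Type) [Field k] :
    ∃ σ : RatFunc k →+* RatFunc k, σ RatFunc.X = RatFunc.X⁻¹ := by
  have ht : Transcendental k (RatFunc.X⁻¹ : RatFunc k) := by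
    intro h
    exact RatFunc.transcendental_X (K := k) (IsAlgebraic.inv_iff.1 h)
  have hi : Function.Injective (aeval (R := k) (RatFunc.X⁻¹ : RatFunc k)).toRingHom :=
    transcendental_iff_injective.1 ht
  refine ⟨IsFractionRing.lift (A := k[X]) (K := RatFunc k) hi, ?_⟩
  have h1 := IsFractionRing.lift_algebraMap (A := k[X]) (K := RatFunc k) hi X
  rw [RatFunc.algebraMap_X] at h1
  rw [h1]
  simp

theorem t_LAU2 : Pool.Agent.N825.WP.S_LAU2 := by
  intro k _
  refine ⟨uncountable_laurent k, ?_⟩
  obtain ⟨σ, hσ⟩ := inv_alg k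
  refine ⟨algebraMap (RatFunc k) (LaurentSeries k),
    (algebraMap (RatFunc k) (LaurentSeries k)).comp σ, RatFunc.coe_X, ?_⟩
  rw [RingHom.comp_apply, hσ, map_inv₀, RatFunc.coe_X, HahnSeries.inv_single, inv_one]

end Pool.Agent.N825.WP.LAU2
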