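import Pool.Agent.N825.WP.Core

set_option autoImplicit false

/-! The two levels of the construction. -/

namespace Pool.Agent.N825.WP

open Pool.Agent.N825.WI Polynomial

/-- Amalgamation. -/
theorem am (hU1 : S_UNI1) (hU2 : S_UNI2) (hSR : S_STEPR) (hPr : S_PRIM)
    (M₁ M₂ E : Type) [Field M₁] [Field M₂] [Field E] [CharZero M₁] [CharZero M₂]
    (hA₁ : CondA M₁) (hA₂ : CondA M₂) (hc₁ : ¬ Countable M₁) (hc₂ : ¬ Countable M₂)
    (hE : Countable E) (i₁ : E →+* M₁) (i₂ : E →+* M₂) :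
    ∃ (F : Type) (_ : Field F) (j₁ : F →+* M₁) (j₂ : F →+* M₂) (i : E →+* F),
      Countable F ∧ j₁.comp i = i₁ ∧ j₂.comp i = i₂ ∧ CondA F := by
  set j : E →+* M₁ × M₂ := i₁.prod i₂ with hj
  have hinj : Function.Injective j := by
    intro a b hab
    exact i₁.injective (congrArg Prod.fst hab)
  let e : E ≃+* j.range := RingEquiv.ofBijective j.rangeRestrict
    ⟨fun a b hab => hinj (congrArg Subtype.val hab), j.rangeRestrict_surjective⟩
  have hF : IsField j.range := e.symm.toMulEquiv.isField (Field.toIsField E)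
  have hcount : Countable j.range := e.symm.injective.countable
  obtain ⟨S', hle, hS', hS'c, hS'p⟩ := hU2 hU1 hSR M₁ M₂ hA₁ hA₂ hc₁ hc₂ j.range hF hcount
  let : Field S' := hS'.toField
  have hz : CharZero S' := by
    refine ⟨fun m n hmn => ?_⟩
    have h1 : ((m : S') : M₁ × M₂).1 = ((n : S') : M₁ × M₂).1 := by rw [hmn]
    have h2 : ∀ m : ℕ, ((m : S') : M₁ × M₂).1 = (m : M₁) := by
      intro m
      have : ((m : S') : M₁ × M₂) = (m : M₁ × M₂) := rfl
      rw [this]; rfl
    rw [h2, h2] at h1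
    exact_mod_cast h1
  refine ⟨S', hS'.toField, (RingHom.fst M₁ M₂).comp S'.subtype, (RingHom.snd M₁ M₂).comp S'.subtype,
    (Subring.inclusion hle).comp j.rangeRestrict, hS'c, ?_, ?_, ?_⟩
  · ext a; rfl
  · ext a; rfl
  · exact hPr S' hS'p

lemma C2.pull {F M : Type} [Field F] [Field M] (f : F →+* M) {α : F} (h : C2 M (f α)) : C2 F α := by
  intro m x y z hxyz
  have h1 := h m (f x) (f y) (fun i => f (z i)) (by
    have := congrArg f hxyz
    rw [map_zero] at this
    rw [← this]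
    simp only [map_add, map_sub, map_mul, map_pow, map_sum, map_ofNat])
  refine ⟨by simpa using h1.1, by simpa using h1.2.1, ?_⟩
  funext i
  have := congrFun h1.2.2 i
  simpa using this

lemma C3.pull {F M : Type} [Field F] [Field M] (f : F →+* M) {α : F} (h : C3 M (f α)) : C3 F α := by
  intro m x y y' z hxyz
  have h1 := h m (f x) (f y) (f y') (fun i => f (z i)) (by
    have := congrArg f hxyz
    rw [map_zero] at this
    rw [← this]
    simp only [map_add, map_neg, map_mul, map_pow, map_sum, map_ofNat])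
  refine ⟨by simpa using h1.1, by simpa using h1.2.1, by simpa using h1.2.2.1, ?_⟩
  funext i
  have := congrFun h1.2.2.2 i
  simpa using this

lemma real_pull {F M : Type} [Field F] [Field M] (f : F →+* M) (h : FReal M) : FReal F := by
  intro m z hz i
  have h1 := h m (fun i => f (z i)) (by
    have := congrArg f hz
    rw [map_zero] at this
    rw [← this]
    simp only [map_pow, map_sum]) i
  simpa using h1

lemma real_real : FReal ℝ := by
  intro n x hx i
  rw [Finset.sum_eq_zero_iff_of_nonneg (fun i _ => sq_nonneg _)] at hx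
  exact pow_eq_zero_iff (two_ne_zero) |>.1 (hx i (Finset.mem_univ i))

lemma countable_ratFunc (k : Type) [Field k] [Countable k] : Countable (RatFunc k) := by
  have : Countable k[X] := by
    rw [← Cardinal.mk_le_aleph0_iff]
    exact Polynomial.cardinalMk_le_max.trans (max_le Cardinal.mk_le_aleph0 le_rfl)
  refine Function.Surjective.countable (α := k[X] × k[X])
    (f := fun p => algebraMap k[X] (RatFunc k) p.1 / algebraMap k[X] (RatFunc k) p.2) ?_
  intro x
  exact ⟨(x.num, x.denom), RatFunc.num_div_denom x⟩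

/-- The field of constants. -/
theorem levels (hU1 : S_UNI1) (hU2 : S_UNI2) (hSR : S_STEPR) (hPr : S_PRIM) (hRe : S_REALS)
    (hHen : ∀ (k : Type) [Field k] [CharZero k], CondA k → CondA (LaurentSeries k))
    (hL0 : S_LAU0) (hL1 : S_LAU1) (hL2 : S_LAU2) :
    ∃ (F : Type) (_ : Field F) (α : F), Countable F ∧ CondA F ∧ C2 F α ∧ C3 F α := by
  obtain ⟨hR, hQ, h3⟩ := hRe
  have hcR : ¬ Countable ℝ := not_countable
  have hcQ : ¬ Countable ℚ_[3] := by
    intro hc
    have h1 := continuum_le_cardinal_of_nontriviallyNormedField ℚ_[3]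
    have h2 : Cardinal.mk ℚ_[3] ≤ Cardinal.aleph0 := Cardinal.mk_le_aleph0
    exact absurd (h1.trans h2) (not_le.2 Cardinal.aleph0_lt_continuum)
  obtain ⟨k, _, j₁, j₂, i, hkc, -, -, hkA⟩ := am hU1 hU2 hSR hPr ℝ ℚ_[3] ℚ hR hQ hcR hcQ
    inferInstance (algebraMap ℚ ℝ) (algebraMap ℚ ℚ_[3])
  have hkr : FReal k := real_pull j₁ real_real
  have hk0 : CharZero k := hkr.charZero
  have hk3 : ∀ x y z : k, 3 * x ^ 2 = y ^ 2 + z ^ 2 → x = 0 ∧ y = 0 ∧ z = 0 := by
    intro x y z hxyz
    have h4 := h3 (j₂ x) (j₂ y) (j₂ z) (by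
      have := congrArg j₂ hxyz
      simpa only [map_add, map_mul, map_pow, map_ofNat] using this)
    exact ⟨by simpa using h4.1, by simpa using h4.2.1, by simpa using h4.2.2⟩
  obtain ⟨hLr, hLC2, hLC3⟩ := hL1 hL0 k hkr hk3
  obtain ⟨hLc, i₁, i₂, hi₁, hi₂⟩ := hL2 k
  have hL00 : CharZero (LaurentSeries k) := hLr.charZero
  obtain ⟨F, _, l₁, l₂, e, hFc, he₁, he₂, hFA⟩ := am hU1 hU2 hSR hPr (LaurentSeries k)
    (LaurentSeries k) (RatFunc k) (hHen k hkA) (hHen k hkA) hLc hLc (countable_ratFunc k) i₁ i₂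
  refine ⟨F, inferInstance, e RatFunc.X, hFc, hFA, ?_, ?_⟩
  · refine C2.pull l₁ ?_
    have : l₁ (e RatFunc.X) = HahnSeries.single 1 1 := by
      rw [← hi₁, ← he₁]; rfl
    rw [this]; exact hLC2
  · refine C3.pull l₂ ?_
    have : l₂ (e RatFunc.X) = HahnSeries.single (-1) 1 := by
      rw [← hi₂, ← he₂]; rfl
    rw [this]; exact hLC3

/-- One step of the amalgamation. -/
theorem step (hG : S_GEN) (hT : S_TR) (hV : S_VDM) (hS : S_SIGN) (hE : S_EMB) (ha : S_STEPa)
    (hb : S_STEPb) (hc : S_STEPc) : S_STEP := by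
  intro M₁ M₂ _ _ _ _ hA₁ hA₂ hc₁ hc₂ E _ hEc i₁ i₂ f hf hirr hcert
  have hE0 : CharZero E := by
    refine ⟨fun m n hmn => ?_⟩
    have h1 : i₁ m = i₁ n := by rw [hmn]
    rw [map_natCast, map_natCast] at h1
    exact_mod_cast h1
  have key : ∀ (M : Type) [Field M] [CharZero M], CondA M → ¬ Countable M → ∀ (g : E →+* M)
      (U : Univ E f), ∃ j : @RingHom U.E' M U.field.toDivisionRing.toRing.toNonAssocRing.toNonAssocSemiring _,
        j.comp (@algebraMap E U.E' _ U.field.toSemifield.toDivisionSemiring.toSemiring U.alg) = g := by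
    intro M _ _ hA hM g U
    let := U.field
    let := U.alg
    let : Algebra E M := g.toAlgebra
    have hsep : (f.map (algebraMap E M)).Separable := hirr.separable.map
    have hcM : Cert (f.map (algebraMap E M)) := by
      obtain ⟨n, p, hp⟩ := hcert
      refine ⟨n, fun i => (p i).map (algebraMap E M), ?_⟩
      have := Polynomial.map_dvd (algebraMap E M) hp
      simpa [Polynomial.map_sum] using this
    have h2 := ha M hA (f.map (algebraMap E M)) (hf.map _) hsep hcM
    obtain ⟨a, b, had, hbd, hind, hdvd⟩ := hb hG hT hV E M hEc hM f hf hirr h2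
    obtain ⟨φ⟩ := U.emb M a b had hbd hind hdvd
    exact ⟨φ.toRingHom, φ.comp_algebraMap⟩
  obtain ⟨U⟩ := hc hS hE E hEc f hf hirr
  obtain ⟨j₁, hj₁⟩ := key M₁ hA₁ hc₁ i₁ U
  obtain ⟨j₂, hj₂⟩ := key M₂ hA₂ hc₂ i₂ U
  exact ⟨U.E', U.field, j₁, j₂, @algebraMap E U.E' _ _ U.alg, U.count, hj₁, hj₂, U.two⟩

end Pool.Agent.N825.WP
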