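import Pool.Agent.N825.WP.Stm

set_option autoImplicit false

/-! `-1 - l ^ 2` is not a square (helper572). -/

namespace Pool.Agent.N825.WP

open Polynomial

namespace NSQ

theorem rad (D : Type) [Field D] [CharZero D] : IsRadical (X ^ 2 + 1 : D[X]) := by
  have h1 : (X ^ 2 + 1 : D[X]) = X ^ 2 - C (-1) := by simp
  rw [h1]
  have h2 : ((2 : ℕ) : D) ≠ 0 := by
    rw [Nat.cast_ofNat]
    exact two_ne_zero
  exact (separable_X_pow_sub_C (-1 : D) h2 (neg_ne_zero.2 one_ne_zero)).squarefree.isRadical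

theorem deg (D : Type) [Field D] : (X ^ 2 + 1 : D[X]).natDegree = 2 := by
  have h1 : (X ^ 2 + 1 : D[X]) = X ^ 2 + C 1 := by simp
  rw [h1]
  exact natDegree_X_pow_add_C

theorem ne (D : Type) [Field D] : (X ^ 2 + 1 : D[X]) ≠ 0 := by
  intro h
  have h1 := deg D
  rw [h, natDegree_zero] at h1
  omega

theorem desc (D : Type) [Field D] [CharZero D] : ∀ (n : ℕ) (p q : D[X]), q.natDegree = n → q ≠ 0 →
    p ^ 2 = -(X ^ 2 + 1) * q ^ 2 → False := by
  intro n
  induction n using Nat.strong_induction_on with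
  | _ n ih =>
    intro p q hn hq h
    obtain ⟨p1, rfl⟩ := rad D 2 p ⟨-q ^ 2, by rw [h]; ring⟩
    have h1 : (X ^ 2 + 1) * p1 ^ 2 = -q ^ 2 := by
      apply mul_left_cancel₀ (ne D)
      linear_combination h
    obtain ⟨q1, rfl⟩ := rad D 2 q ⟨-p1 ^ 2, by linear_combination h1⟩
    have h2 : p1 ^ 2 = -(X ^ 2 + 1) * q1 ^ 2 := by
      apply mul_left_cancel₀ (ne D)
      linear_combination h1
    have hq1 : q1 ≠ 0 := right_ne_zero_of_mul hq
    rw [natDegree_mul (ne D) hq1, deg] at hn
    exact ih q1.natDegree (by omega) p1 q1 rfl hq1 h2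

end NSQ

open NSQ in
/-- NSQ: `-1 - l ^ 2` is not a square. -/
theorem t_NSQ : S_NSQ := by
  intro D C _ _ _ _ l hl y hy hmem
  have htr : ∀ p : D[X], aeval l p = 0 → p = 0 := transcendental_iff.1 hl
  obtain ⟨r, s, hrs⟩ := (IntermediateField.mem_adjoin_simple_iff D y).1 hmem
  by_cases hs : aeval l s = 0
  · rw [hs, div_zero] at hrs
    apply ne D
    apply htr
    rw [map_add, map_pow, aeval_X, map_one]
    rw [hrs] at hy
    linear_combination hy
  · have h1 : aeval l (r ^ 2 + (X ^ 2 + 1) * s ^ 2) = 0 := by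
      rw [map_add, map_mul, map_add, map_pow, map_pow, map_pow, aeval_X, map_one]
      have h2 : aeval l r = y * aeval l s := by
        rw [hrs, div_mul_cancel₀ _ hs]
      rw [h2]
      linear_combination (aeval l s) ^ 2 * hy
    have h3 := htr _ h1
    have hs0 : s ≠ 0 := by
      rintro rfl
      exact hs (map_zero _)
    exact desc D _ r s rfl hs0 (by linear_combination h3)

end Pool.Agent.N825.WP
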