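import Pool.Agent.N825.WP.Stm

set_option autoImplicit false

namespace Pool.Agent.N825.WP

open Pool.Agent.N825.WI Polynomial

namespace P4a

lemma exists_fin {R : Type} [CommRing R] {c : R} (h : IsSumSq c) :
    ∃ (n : ℕ) (x : Fin n → R), c = ∑ i, x i ^ 2 := by
  induction h with
  | zero => exact ⟨0, fun _ => 0, by simp⟩
  | sq_add a hs ih =>
    obtain ⟨n, x, hx⟩ := ih
    refine ⟨n + 1, Fin.cons a x, ?_⟩
    rw [Fin.sum_univ_succ, Fin.cons_zero]
    simp only [Fin.cons_succ]
    rw [← hx]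
    ring

lemma map_sumSq {R S : Type} [CommRing R] [CommRing S] (f : R →+* S) {c : R} (h : IsSumSq c) :
    IsSumSq (f c) := by
  induction h with
  | zero => rw [map_zero]; exact IsSumSq.zero
  | sq_add a hs ih =>
    rw [map_add, map_mul]
    exact IsSumSq.sq_add _ ih

/-- a sum of squares vanishes only trivially -/
lemma real_add {F : Type} [Field F] (hF : FReal F) {c e : F} (h : IsSumSq c)
    (he : e ^ 2 + c = 0) : c = 0 := by
  obtain ⟨n, x, hx⟩ := exists_fin h
  have h1 := hF (n + 1) (Fin.cons e x) (by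
    rw [Fin.sum_univ_succ, Fin.cons_zero]
    simp only [Fin.cons_succ]
    rw [← hx, he])
  rw [hx]
  refine Finset.sum_eq_zero fun i _ => ?_
  have h2 := h1 i.succ
  rw [Fin.cons_succ] at h2
  rw [h2]
  ring

end P4a

open P4a in
theorem t_P4a : S_P4a := by
  intro F _ _ hF hA c hc
  by_cases hc0 : c = 0
  · exact ⟨0, 0, 0, 0, by rw [hc0]; ring⟩
  have hns : ∀ b : F, b ^ 2 ≠ -c := fun b hb => hc0 (real_add hF hc (e := b) (by rw [hb]; ring))
  have hirr : Irreducible (X ^ 2 - C (-c) : F[X]) :=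
    (X_pow_sub_C_irreducible_iff_of_prime Nat.prime_two).mpr hns
  set p : F[X] := X ^ 2 - C (-c) with hp
  have : Fact (Irreducible p) := ⟨hirr⟩
  have hmonic : p.Monic := monic_X_pow_sub_C _ (by norm_num)
  have : FiniteDimensional F (AdjoinRoot p) :=
    (AdjoinRoot.powerBasis hirr.ne_zero).finite
  set L := AdjoinRoot p with hL
  set t : L := AdjoinRoot.root p with ht
  have ht2 : t ^ 2 = algebraMap F L (-c) := by
    have h1 : AdjoinRoot.mk p p = 0 := AdjoinRoot.mk_self
    have h2 : AdjoinRoot.mk p p = t ^ 2 - algebraMap F L (-c) := by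
      change AdjoinRoot.mk p (X ^ 2 - C (-c)) = _
      rw [map_sub, map_pow, AdjoinRoot.mk_X, AdjoinRoot.mk_C]
      rfl
    rw [h2] at h1
    exact sub_eq_zero.mp h1
  have hinj : Function.Injective (algebraMap F L) := (algebraMap F L).injective
  have ht0 : t ≠ 0 := by
    intro h
    rw [h] at ht2
    have : algebraMap F L (-c) = algebraMap F L 0 := by rw [← ht2, map_zero]; ring
    have := hinj this
    exact hc0 (neg_eq_zero.mp this)
  have hm1 : IsSumSq (-1 : L) := by
    have h1 : (-1 : L) = algebraMap F L c * (t⁻¹ * t⁻¹) := by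
      have h2 : algebraMap F L c = - t ^ 2 := by rw [ht2, map_neg, neg_neg]
      have h3 : t * t⁻¹ = 1 := mul_inv_cancel₀ ht0
      rw [h2]
      linear_combination (t * t⁻¹ + 1) * h3
    rw [h1]
    exact IsSumSq.mul (map_sumSq _ hc) (IsSumSq.mul_self _)
  obtain ⟨a, b, hab⟩ := hA L hm1
  have hform : ∀ z : L, ∃ u v : F, z = algebraMap F L u + algebraMap F L v * t := by
    intro z
    obtain ⟨q, rfl⟩ := AdjoinRoot.mk_surjective z
    have hdeg : (q %ₘ p).natDegree ≤ 1 := by
      have h1 : p.natDegree = 2 := natDegree_X_pow_sub_C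
      have h2 := natDegree_modByMonic_lt q hmonic (by
        intro h
        rw [h] at h1
        simp at h1)
      omega
    obtain ⟨v, u, hvu⟩ := exists_eq_X_add_C_of_natDegree_le_one hdeg
    refine ⟨u, v, ?_⟩
    have h3 : AdjoinRoot.mk p q = AdjoinRoot.mk p (q %ₘ p) := by
      conv_lhs => rw [← modByMonic_add_div q p]
      rw [map_add, map_mul, AdjoinRoot.mk_self, zero_mul, add_zero]
    rw [h3, hvu, map_add, map_mul, AdjoinRoot.mk_X, AdjoinRoot.mk_C, AdjoinRoot.mk_C, add_comm]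
    rfl
  obtain ⟨a0, a1, ha⟩ := hform a
  obtain ⟨b0, b1, hb⟩ := hform b
  have hlin : ∀ u v : F, algebraMap F L u + algebraMap F L v * t = 0 → u = 0 := by
    intro u v h
    by_cases hv : v = 0
    · rw [hv, map_zero, zero_mul, add_zero] at h
      exact hinj (by rw [h, map_zero])
    · exfalso
      have hv' : algebraMap F L v ≠ 0 := fun h0 => hv (hinj (by rw [h0, map_zero]))
      have h1 : t = algebraMap F L (-u / v) := by
        rw [map_div₀, map_neg, eq_div_iff hv']
        linear_combination h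
      refine hns (-u / v) (hinj ?_)
      rw [map_pow, ← h1, ht2]
  have hu : 1 + a0 ^ 2 + b0 ^ 2 - c * (a1 ^ 2 + b1 ^ 2) = 0 := by
    apply hlin _ (2 * (a0 * a1 + b0 * b1))
    rw [ha, hb] at hab
    simp only [map_add, map_sub, map_mul, map_pow, map_one, map_ofNat]
    rw [map_neg] at ht2
    linear_combination hab + ((algebraMap F L a1) ^ 2 + (algebraMap F L b1) ^ 2) * (-ht2)
  have hs : a1 ^ 2 + b1 ^ 2 ≠ 0 := by
    intro h
    rw [h, mul_zero, sub_zero] at hu
    have := hF 3 ![1, a0, b0] (by simp [Fin.sum_univ_succ]; linear_combination hu) 0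
    simp at this
  refine ⟨(a1 - a0 * b1) / (a1 ^ 2 + b1 ^ 2), (b1 + a0 * a1) / (a1 ^ 2 + b1 ^ 2),
    b0 * a1 / (a1 ^ 2 + b1 ^ 2), b0 * b1 / (a1 ^ 2 + b1 ^ 2), ?_⟩
  field_simp
  linear_combination (-(a1 ^ 2 + b1 ^ 2)) * hu

end Pool.Agent.N825.WP
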