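import Pool.Agent.N825.WP.Stm

set_option autoImplicit false

/-! P4b: irreducible polynomials with nonreal residue field are sums of four squares (helper704). -/

namespace Pool.Agent.N825.WP

open Pool.Agent.N825.WI Polynomial

namespace P4b

theorem d4_mul {R : Type} [CommRing R] {x y : R} (hx : D4 x) (hy : D4 y) : D4 (x * y) := by
  obtain ⟨a, b, c, d, rfl⟩ := hx
  obtain ⟨p, q, r, s, rfl⟩ := hy
  exact ⟨a * p + b * q + c * r + d * s, a * q - b * p + c * s - d * r,
    a * r - c * p + d * q - b * s, a * s - d * p + b * r - c * q, by ring⟩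

theorem d4_sq {R : Type} [CommRing R] (c : R) : D4 (c ^ 2) := ⟨c, 0, 0, 0, by ring⟩

theorem d4_map {R S : Type} [CommRing R] [CommRing S] (f : R →+* S) {x : R} (hx : D4 x) :
    D4 (f x) := by
  obtain ⟨a, b, c, d, rfl⟩ := hx
  exact ⟨f a, f b, f c, f d, by simp⟩

/-- the leading coefficient of `a ^ 2 + b ^ 2 + 1` -/
theorem lead {F : Type} [Field F] (hF : FReal F) (a b : F[X]) :
    a ^ 2 + b ^ 2 + 1 ≠ 0 ∧ IsSumSq (a ^ 2 + b ^ 2 + 1 : F[X]).leadingCoeff := by
  obtain ⟨m, hm⟩ : ∃ m, m = max a.natDegree b.natDegree := ⟨_, rfl⟩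
  have ha : a.natDegree ≤ m := hm ▸ le_max_left _ _
  have hb : b.natDegree ≤ m := hm ▸ le_max_right _ _
  have hca : (a ^ 2).coeff (2 * m) = a.coeff m ^ 2 := coeff_pow_of_natDegree_le ha
  have hcb : (b ^ 2).coeff (2 * m) = b.coeff m ^ 2 := coeff_pow_of_natDegree_le hb
  obtain ⟨e, he, he'⟩ : ∃ e : F, (1 : F[X]).coeff (2 * m) = e ^ 2 ∧ (m = 0 → e ≠ 0) := by
    rcases Nat.eq_zero_or_pos m with h | h
    · refine ⟨1, ?_, fun _ => one_ne_zero⟩
      rw [h]
      simp
    · refine ⟨0, ?_, fun h' => absurd h' (by omega)⟩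
      rw [coeff_one, if_neg (by omega)]
      ring
  have hN : (a ^ 2 + b ^ 2 + 1 : F[X]).coeff (2 * m) = a.coeff m ^ 2 + b.coeff m ^ 2 + e ^ 2 := by
    rw [coeff_add, coeff_add, hca, hcb, he]
  have hdeg : (a ^ 2 + b ^ 2 + 1 : F[X]).natDegree ≤ 2 * m := by
    refine (natDegree_add_le _ _).trans (max_le ((natDegree_add_le _ _).trans (max_le ?_ ?_)) ?_)
    · exact natDegree_pow_le.trans (Nat.mul_le_mul_left _ ha)
    · exact natDegree_pow_le.trans (Nat.mul_le_mul_left _ hb)
    · simp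
  have hne : (a ^ 2 + b ^ 2 + 1 : F[X]).coeff (2 * m) ≠ 0 := by
    rw [hN]
    intro h0
    have h1 := hF 3 ![a.coeff m, b.coeff m, e] (by
      rw [Fin.sum_univ_three]
      exact h0)
    have h2 : a.coeff m = 0 := h1 0
    have h3 : b.coeff m = 0 := h1 1
    have h4 : e = 0 := h1 2
    have hm0 : m ≠ 0 := fun h => he' h h4
    rcases le_total a.natDegree b.natDegree with h | h
    · rw [max_eq_right h] at hm
      rw [hm] at h3 hm0
      have : b = 0 := by
        rw [← leadingCoeff_eq_zero]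
        exact h3
      rw [this] at hm0
      exact hm0 natDegree_zero
    · rw [max_eq_left h] at hm
      rw [hm] at h2 hm0
      have : a = 0 := by
        rw [← leadingCoeff_eq_zero]
        exact h2
      rw [this] at hm0
      exact hm0 natDegree_zero
  have hd : (a ^ 2 + b ^ 2 + 1 : F[X]).natDegree = 2 * m :=
    natDegree_eq_of_le_of_coeff_ne_zero hdeg hne
  refine ⟨fun h => hne (by rw [h, coeff_zero]), ?_⟩
  rw [leadingCoeff, hd, hN, pow_two, pow_two, pow_two]
  exact ((IsSumSq.mul_self _).add (IsSumSq.mul_self _)).add (IsSumSq.mul_self _)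

/-- products of monic irreducible factors -/
theorem factors {F : Type} [Field F] (k : ℕ) : ∀ g : F[X], g ≠ 0 → g.natDegree ≤ k →
    D4 g.leadingCoeff → (∀ q : F[X], q.Monic → Irreducible q → q ∣ g →
      D4 (algebraMap F[X] (RatFunc F) q)) → D4 (algebraMap F[X] (RatFunc F) g) := by
  induction k with
  | zero =>
    intro g hg hk hl _
    have h1 : g = C g.leadingCoeff := by
      rw [leadingCoeff, Nat.le_zero.1 hk]
      exact eq_C_of_natDegree_le_zero hk
    rw [h1]
    exact d4_map ((algebraMap F[X] (RatFunc F)).comp C) hl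
  | succ k ih =>
    intro g hg hk hl hq
    by_cases hu : IsUnit g
    · exact ih g hg (by rw [natDegree_eq_zero_of_isUnit hu]; exact Nat.zero_le _) hl hq
    · obtain ⟨q, hqm, hqi, h, rfl⟩ := exists_monic_irreducible_factor g hu
      have hh : h ≠ 0 := right_ne_zero_of_mul hg
      have hd := natDegree_mul hqi.ne_zero hh
      have hqd := hqi.natDegree_pos
      rw [map_mul]
      refine d4_mul (hq q hqm hqi (dvd_mul_right _ _)) (ih h hh (by omega) ?_ ?_)
      · rw [leadingCoeff_mul, hqm.leadingCoeff, one_mul] at hl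
        exact hl
      · intro r hr hri hrd
        exact hq r hr hri (hrd.mul_left q)

end P4b

open P4b in
theorem t_P4b : S_P4b := by
  intro F _ _ hF hA hD
  have key : ∀ n : ℕ, ∀ f : F[X], f.natDegree = n → f.Monic → Irreducible f → Cert f →
      D4 (algebraMap F[X] (RatFunc F) f) := by
    intro n
    induction n using Nat.strong_induction_on with
    | _ n ih =>
    intro f hfn hfm hfi hfc
    have hfact : Fact (Irreducible f) := ⟨hfi⟩
    have hfin : FiniteDimensional F (AdjoinRoot f) :=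
      (AdjoinRoot.powerBasis hfi.ne_zero).finite
    have hsq : IsSumSq (-1 : AdjoinRoot f) := by
      obtain ⟨k, p, hp⟩ := hfc
      have h1 : AdjoinRoot.mk f (1 + ∑ i, p i ^ 2) = 0 := AdjoinRoot.mk_eq_zero.2 hp
      rw [map_add, map_one, map_sum] at h1
      have h2 : (-1 : AdjoinRoot f) = ∑ i, (AdjoinRoot.mk f (p i)) * (AdjoinRoot.mk f (p i)) := by
        have h3 : ∑ i, (AdjoinRoot.mk f) (p i ^ 2) =
            ∑ i, (AdjoinRoot.mk f (p i)) * (AdjoinRoot.mk f (p i)) :=
          Finset.sum_congr rfl fun i _ => by rw [pow_two, map_mul]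
        rw [← h3]
        exact (eq_neg_of_add_eq_zero_right h1).symm
      rw [h2]
      exact IsSumSq.sum_mul_self _ _
    obtain ⟨x, y, hxy⟩ := hA (AdjoinRoot f) hsq
    obtain ⟨a0, rfl⟩ := AdjoinRoot.mk_surjective x
    obtain ⟨b0, rfl⟩ := AdjoinRoot.mk_surjective y
    obtain ⟨a, ha⟩ : ∃ a, a = a0 %ₘ f := ⟨_, rfl⟩
    obtain ⟨b, hb⟩ : ∃ b, b = b0 %ₘ f := ⟨_, rfl⟩
    have hf1 : f ≠ 1 := fun h => hfi.not_isUnit (h ▸ isUnit_one)
    have hda : a.natDegree < f.natDegree := ha ▸ natDegree_modByMonic_lt a0 hfm hf1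
    have hdb : b.natDegree < f.natDegree := hb ▸ natDegree_modByMonic_lt b0 hfm hf1
    have hma : AdjoinRoot.mk f a = AdjoinRoot.mk f a0 := by
      rw [ha, AdjoinRoot.mk_eq_mk, modByMonic_eq_sub_mul_div]
      exact ⟨-(a0 /ₘ f), by ring⟩
    have hmb : AdjoinRoot.mk f b = AdjoinRoot.mk f b0 := by
      rw [hb, AdjoinRoot.mk_eq_mk, modByMonic_eq_sub_mul_div]
      exact ⟨-(b0 /ₘ f), by ring⟩
    have hdvd : f ∣ a ^ 2 + b ^ 2 + 1 := by
      rw [← AdjoinRoot.mk_eq_zero, map_add, map_add, map_pow, map_pow, map_one, hma, hmb, hxy]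
      ring
    obtain ⟨g, hg⟩ := hdvd
    obtain ⟨hN0, hNl⟩ := lead hF a b
    have hg0 : g ≠ 0 := by
      rintro rfl
      rw [mul_zero] at hg
      exact hN0 hg
    have hgd : g.natDegree < n := by
      have h1 : (a ^ 2 + b ^ 2 + 1 : F[X]).natDegree ≤ 2 * (f.natDegree - 1) := by
        refine (natDegree_add_le _ _).trans (max_le ((natDegree_add_le _ _).trans (max_le ?_ ?_)) ?_)
        · exact natDegree_pow_le.trans (Nat.mul_le_mul_left _ (by omega))
        · exact natDegree_pow_le.trans (Nat.mul_le_mul_left _ (by omega))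
        · simp
      rw [hg, natDegree_mul hfi.ne_zero hg0] at h1
      omega
    have hgl : D4 g.leadingCoeff := by
      refine hD _ ?_
      have h1 : (a ^ 2 + b ^ 2 + 1 : F[X]).leadingCoeff = g.leadingCoeff := by
        rw [hg, leadingCoeff_mul, hfm.leadingCoeff, one_mul]
      rw [← h1]
      exact hNl
    have hgD : D4 (algebraMap F[X] (RatFunc F) g) := by
      refine factors n g hg0 hgd.le hgl fun q hqm hqi hqd => ?_
      refine ih q.natDegree ((natDegree_le_of_dvd hqd hg0).trans_lt hgd) q rfl hqm hqi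
        ⟨2, ![a, b], ?_⟩
      rw [Fin.sum_univ_two]
      have h1 : (1 : F[X]) + ((![a, b] : Fin 2 → F[X]) 0 ^ 2 + (![a, b] : Fin 2 → F[X]) 1 ^ 2) =
          f * g := by
        rw [← hg]
        simp
        ring
      rw [h1]
      exact hqd.mul_left f
    have hND : D4 (algebraMap F[X] (RatFunc F) (a ^ 2 + b ^ 2 + 1)) :=
      d4_map _ ⟨a, b, 1, 0, by ring⟩
    have hg0' : algebraMap F[X] (RatFunc F) g ≠ 0 :=
      (map_ne_zero_iff _ (RatFunc.algebraMap_injective F)).2 hg0
    have hfin : algebraMap F[X] (RatFunc F) f = algebraMap F[X] (RatFunc F) (a ^ 2 + b ^ 2 + 1) *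
        algebraMap F[X] (RatFunc F) g * (algebraMap F[X] (RatFunc F) g)⁻¹ ^ 2 := by
      rw [hg, map_mul]
      field_simp
    rw [hfin]
    exact d4_mul (d4_mul hND hgD) (d4_sq _)
  intro f hfm hfi hfc
  exact key _ f rfl hfm hfi hfc

end Pool.Agent.N825.WP
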