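import Pool.Agent.N825.WP.Stm

set_option autoImplicit false

/-! Sums of squares in `F(X)` are sums of four squares (project WP of helper825; file: helper457). -/

namespace Pool.Agent.N825.WP

namespace P4c

open Pool.Agent.N825.WI Polynomial

theorem D4_mul {R : Type} [CommRing R] {x y : R} (hx : D4 x) (hy : D4 y) : D4 (x * y) := by
  obtain ⟨a, b, c, d, rfl⟩ := hx
  obtain ⟨a', b', c', d', rfl⟩ := hy
  exact ⟨a * a' + b * b' + c * c' + d * d', a * b' - b * a' + c * d' - d * c',
    a * c' - b * d' - c * a' + d * b', a * d' + b * c' - c * b' - d * a', by ring⟩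

theorem D4_sq {R : Type} [CommRing R] (x : R) : D4 (x ^ 2) := ⟨x, 0, 0, 0, by ring⟩

theorem D4_map {R S : Type} [CommRing R] [CommRing S] (f : R →+* S) {x : R} (hx : D4 x) :
    D4 (f x) := by
  obtain ⟨a, b, c, d, rfl⟩ := hx
  exact ⟨f a, f b, f c, f d, by simp⟩

theorem ss_fin {R : Type} [CommRing R] {s : R} (hs : IsSumSq s) :
    ∃ (n : ℕ) (p : Fin n → R), s = ∑ i, p i ^ 2 := by
  induction hs with
  | zero => exact ⟨0, ![], by simp⟩
  | sq_add a hs ih =>
    obtain ⟨n, p, rfl⟩ := ih
    exact ⟨n + 1, Fin.cons a p, by rw [Fin.sum_univ_succ]; simp [sq]⟩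

theorem ss_sq {R : Type} [CommRing R] (x : R) : IsSumSq (x ^ 2) := by
  rw [sq]
  exact IsSumSq.mul_self x

theorem ss_D4 {R : Type} [CommRing R] {x : R} (hx : D4 x) : IsSumSq x := by
  obtain ⟨a, b, c, d, rfl⟩ := hx
  exact (((ss_sq a).add (ss_sq b)).add (ss_sq c)).add (ss_sq d)

/-- If `f` is irreducible and has a real residue field, then sums of squares divisible by `f` are
`f ^ 2` times sums of squares. -/
theorem real_div {F : Type} [Field F] {f : F[X]} (hf : Irreducible f) (hc : ¬ Cert f) {s : F[X]}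
    (hs : IsSumSq s) (hd : f ∣ s) : ∃ q, IsSumSq q ∧ s = f ^ 2 * q := by
  induction hs with
  | zero => exact ⟨0, IsSumSq.zero, by simp⟩
  | @sq_add a s hs ih =>
    have ha : f ∣ a := by
      by_contra hna
      apply hc
      have hcop : IsCoprime f a := (hf.coprime_iff_not_dvd).2 hna
      obtain ⟨u, v, huv⟩ := hcop
      have h1 : IsSumSq (v ^ 2 * s) := (ss_sq v).mul hs
      obtain ⟨n, p, hp⟩ := ss_fin h1
      refine ⟨n, p, ?_⟩
      rw [← hp]
      obtain ⟨t, ht⟩ := hd
      refine ⟨v ^ 2 * t + u * (1 + v * a), ?_⟩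
      have h2 : v ^ 2 * (a * a + s) = v ^ 2 * (f * t) := by rw [ht]
      linear_combination h2 - (1 + v * a) * huv
    obtain ⟨b, rfl⟩ := ha
    have hs' : f ∣ s := by
      have h1 : f ∣ f * b * (f * b) := ⟨b * (f * b), by ring⟩
      exact (dvd_add_right h1).1 hd
    obtain ⟨q, hq, rfl⟩ := ih hs'
    exact ⟨b * b + q, IsSumSq.sq_add b hq, by ring⟩

/-- The leading coefficient of a sum of squares is a sum of squares. -/
theorem ss_lc {F : Type} [Field F] (hF : FReal F) {s : F[X]} (hs : IsSumSq s) :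
    IsSumSq s.leadingCoeff := by
  induction hs with
  | zero => simpa using IsSumSq.zero
  | @sq_add a s hs ih =>
    by_cases ha : a = 0
    · rw [ha, zero_mul, zero_add]
      exact ih
    · have hlc : (a * a).leadingCoeff = a.leadingCoeff * a.leadingCoeff := leadingCoeff_mul _ _
      rcases lt_trichotomy (a * a).degree s.degree with h | h | h
      · rw [leadingCoeff_add_of_degree_lt h]
        exact ih
      · have hne : (a * a).leadingCoeff + s.leadingCoeff ≠ 0 := by
          intro h0
          obtain ⟨n, p, hp⟩ := ss_fin ih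
          have h1 := hF (n + 1) (Fin.cons a.leadingCoeff p) (by
            rw [Fin.sum_univ_succ]
            simp only [Fin.cons_zero, Fin.cons_succ]
            rw [← hp, sq, ← hlc]
            exact h0) 0
          rw [Fin.cons_zero] at h1
          exact ha (leadingCoeff_eq_zero.1 h1)
        rw [leadingCoeff_add_of_degree_eq h hne, hlc]
        exact IsSumSq.sq_add _ ih
      · rw [leadingCoeff_add_of_degree_lt' h, hlc]
        exact IsSumSq.mul_self _

/-- Common denominators. -/
theorem den {F : Type} [Field F] {x : RatFunc F} (hx : IsSumSq x) :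
    ∃ d s : F[X], d ≠ 0 ∧ IsSumSq s ∧
      algebraMap F[X] (RatFunc F) s = x * algebraMap F[X] (RatFunc F) d ^ 2 := by
  induction hx with
  | zero => exact ⟨1, 0, one_ne_zero, IsSumSq.zero, by simp⟩
  | @sq_add y x hx ih =>
    obtain ⟨d, s, hd, hs, h⟩ := ih
    have hq : y.denom ≠ 0 := y.denom_ne_zero
    have hq' : algebraMap F[X] (RatFunc F) y.denom ≠ 0 := by
      rw [Ne, map_eq_zero_iff _ (RatFunc.algebraMap_injective F)]
      exact hq
    have hy : y * algebraMap F[X] (RatFunc F) y.denom = algebraMap F[X] (RatFunc F) y.num := by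
      have h1 := RatFunc.num_div_denom y
      rw [← eq_div_iff hq']
      exact h1.symm
    refine ⟨d * y.denom, (y.num * d) * (y.num * d) + s * y.denom ^ 2, mul_ne_zero hd hq,
      IsSumSq.sq_add _ (hs.mul (ss_sq _)), ?_⟩
    rw [map_add, map_mul, map_mul, map_mul, map_mul, map_pow, h, ← hy]
    ring

theorem main_ind {F : Type} [Field F] (hF : FReal F) (h4 : ∀ c : F, IsSumSq c → D4 c)
    (hf4 : ∀ f : F[X], f.Monic → Irreducible f → Cert f → D4 (algebraMap F[X] (RatFunc F) f)) :
    ∀ n : ℕ, ∀ m : ℕ, ∀ h d : F[X], h ≠ 0 → d ≠ 0 → h.natDegree = n → d.natDegree = m →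
      IsSumSq (h * d ^ 2) → D4 (algebraMap F[X] (RatFunc F) h) := by
  intro n
  induction n using Nat.strong_induction_on with
  | _ n ihn =>
  intro m
  induction m using Nat.strong_induction_on with
  | _ m ihm =>
  intro h d hh hd hn hm hs
  by_cases hu : IsUnit h
  · -- constants
    obtain ⟨c, hc, rfl⟩ := Polynomial.isUnit_iff.1 hu
    have h1 := ss_lc hF hs
    rw [leadingCoeff_mul, leadingCoeff_pow, leadingCoeff_C] at h1
    have hl : d.leadingCoeff ≠ 0 := leadingCoeff_ne_zero.2 hd
    have h2 : IsSumSq c := by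
      have h3 := h1.mul (ss_sq (d.leadingCoeff⁻¹))
      have e : c * d.leadingCoeff ^ 2 * d.leadingCoeff⁻¹ ^ 2 = c := by
        field_simp
      rwa [e] at h3
    have h3 := D4_map ((algebraMap F[X] (RatFunc F)).comp C) (h4 c h2)
    exact h3
  · -- an irreducible factor
    obtain ⟨f, hfi, hfm, hfd⟩ : ∃ f : F[X], Irreducible f ∧ f.Monic ∧ f ∣ h := by
      obtain ⟨g, hg, hgd⟩ := WfDvdMonoid.exists_irreducible_factor hu hh
      have hgl : g.leadingCoeff ≠ 0 := leadingCoeff_ne_zero.2 hg.ne_zero
      have hass : Associated g (g * C g.leadingCoeff⁻¹) := by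
        refine ⟨(Polynomial.isUnit_C.2 (isUnit_iff_ne_zero.2 (inv_ne_zero hgl))).unit, rfl⟩
      exact ⟨g * C g.leadingCoeff⁻¹, hass.irreducible hg, monic_mul_leadingCoeff_inv hg.ne_zero,
        (hass.dvd_iff_dvd_left).1 hgd⟩
    obtain ⟨h1, rfl⟩ := hfd
    have hf0 : f ≠ 0 := hfi.ne_zero
    have hh1 : h1 ≠ 0 := right_ne_zero_of_mul hh
    have hfdeg : 0 < f.natDegree := hfi.natDegree_pos
    have hdeg : (f * h1).natDegree = f.natDegree + h1.natDegree := natDegree_mul hf0 hh1
    by_cases hc : Cert f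
    · have hD := hf4 f hfm hfi hc
      obtain ⟨g, s, hg, hs', hgs⟩ := den (ss_D4 hD)
      have e1 : s = f * g ^ 2 := by
        apply RatFunc.algebraMap_injective F
        rw [hgs, map_mul, map_pow]
      have h2 : IsSumSq (h1 * (f * g * d) ^ 2) := by
        have h3 := hs.mul hs'
        rw [e1] at h3
        have e2 : f * h1 * d ^ 2 * (f * g ^ 2) = h1 * (f * g * d) ^ 2 := by ring
        rwa [e2] at h3
      have h3 := ihn h1.natDegree (by omega) (f * g * d).natDegree h1 (f * g * d) hh1
        (mul_ne_zero (mul_ne_zero hf0 hg) hd) rfl rfl h2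
      rw [map_mul]
      exact D4_mul hD h3
    · obtain ⟨q, hq, hq2⟩ := real_div hfi hc hs ⟨h1 * d ^ 2, by ring⟩
      have h2 : h1 * d ^ 2 = f * q := by
        apply mul_left_cancel₀ hf0
        linear_combination hq2
      have h3 : f ∣ h1 ∨ f ∣ d := by
        have h4 : f ∣ h1 * d ^ 2 := ⟨q, h2⟩
        rcases hfi.prime.dvd_or_dvd h4 with h5 | h5
        · exact Or.inl h5
        · exact Or.inr (hfi.prime.dvd_of_dvd_pow h5)
      rcases h3 with ⟨h2', rfl⟩ | ⟨d1, rfl⟩
      · have hh2 : h2' ≠ 0 := right_ne_zero_of_mul hh1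
        have e1 : h2' * d ^ 2 = q := by
          apply mul_left_cancel₀ hf0
          linear_combination h2
        have hdeg2 : (f * h2').natDegree = f.natDegree + h2'.natDegree := natDegree_mul hf0 hh2
        have h5 := ihn h2'.natDegree (by omega) d.natDegree h2' d hh2 hd rfl rfl (by rwa [e1])
        have e2 : algebraMap F[X] (RatFunc F) (f * (f * h2'))
            = (algebraMap F[X] (RatFunc F) f) ^ 2 * algebraMap F[X] (RatFunc F) h2' := by
          rw [map_mul, map_mul]
          ring
        rw [e2]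
        exact D4_mul (D4_sq _) h5
      · have hd1 : d1 ≠ 0 := right_ne_zero_of_mul hd
        have e1 : f * h1 * d1 ^ 2 = q := by
          apply mul_left_cancel₀ (pow_ne_zero 2 hf0)
          linear_combination hq2
        have hdeg2 : (f * d1).natDegree = f.natDegree + d1.natDegree := natDegree_mul hf0 hd1
        exact ihm d1.natDegree (by omega) (f * h1) d1 hh hd1 hn rfl (by rwa [e1])

end P4c

open Pool.Agent.N825.WI Polynomial P4c in
theorem t_P4c : S_P4c := by
  intro F _ _ hF h4 hf4 x hx
  by_cases hx0 : x = 0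
  · rw [hx0]
    exact ⟨0, 0, 0, 0, by simp⟩
  · obtain ⟨d, s, hd, hs, h⟩ := den hx
    have hq : x.denom ≠ 0 := x.denom_ne_zero
    have hq' : algebraMap F[X] (RatFunc F) x.denom ≠ 0 := by
      rw [Ne, map_eq_zero_iff _ (RatFunc.algebraMap_injective F)]
      exact hq
    have hn : x.num ≠ 0 := RatFunc.num_ne_zero hx0
    have hx1 : x * algebraMap F[X] (RatFunc F) x.denom = algebraMap F[X] (RatFunc F) x.num := by
      have h1 := RatFunc.num_div_denom x
      rw [← eq_div_iff hq']
      exact h1.symm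
    have e1 : x.num * x.denom * d ^ 2 = s * x.denom ^ 2 := by
      apply RatFunc.algebraMap_injective F
      rw [map_mul, map_mul, map_pow, map_mul, map_pow, h, ← hx1]
      ring
    have h2 : IsSumSq (x.num * x.denom * d ^ 2) := by
      rw [e1]
      exact hs.mul (ss_sq _)
    have h3 := main_ind hF h4 hf4 _ _ (x.num * x.denom) d (mul_ne_zero hn hq) hd rfl rfl h2
    have e2 : x = algebraMap F[X] (RatFunc F) (x.num * x.denom)
        * (algebraMap F[X] (RatFunc F) x.denom)⁻¹ ^ 2 := by
      rw [map_mul, ← hx1]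
      field_simp
    rw [e2]
    exact D4_mul h3 (D4_sq _)

end Pool.Agent.N825.WP
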