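import Pool.Agent.N825.WP.Stm

set_option autoImplicit false

namespace Pool.Agent.N825.WP

open Polynomial

namespace REALS

theorem map_sumSq {A B : Type} [Field A] [Field B] (f : A →+* B) {x : A} (h : IsSumSq x) :
    IsSumSq (f x) := by
  induction h with
  | zero => rw [map_zero]; exact IsSumSq.zero
  | sq_add a _ ih => rw [map_add, map_mul]; exact IsSumSq.sq_add (f a) ih

theorem real_nonneg {x : ℝ} (h : IsSumSq x) : 0 ≤ x := by
  induction h with
  | zero => exact le_rfl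
  | sq_add a _ ih => exact add_nonneg (mul_self_nonneg a) ih

theorem condA_real : CondA ℝ := by
  intro L _ _ _ h
  rcases Real.nonempty_algEquiv_or L with ⟨⟨e⟩⟩ | ⟨⟨e⟩⟩
  · exfalso
    have h1 := real_nonneg (map_sumSq (e : L →+* ℝ) h)
    rw [map_neg, map_one] at h1
    linarith
  · refine ⟨e.symm Complex.I, 0, ?_⟩
    rw [← map_pow, Complex.I_sq, map_neg, map_one]
    ring

theorem sqrt_neg_two : ∃ z : ℚ_[3], z ^ 2 = -2 := by
  have h3 : ‖(3 : ℤ_[3])‖ < 1 := by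
    have := (PadicInt.norm_int_lt_one_iff_dvd (p := 3) 3).2 (by norm_num)
    simpa using this
  have h2 : ‖(2 : ℤ_[3])‖ = 1 := by
    have h := mt (PadicInt.norm_int_lt_one_iff_dvd (p := 3) 2).1 (by norm_num)
    have h' := PadicInt.norm_le_one (2 : ℤ_[3])
    have h'' : ¬ ‖(2 : ℤ_[3])‖ < 1 := by simpa using h
    exact le_antisymm h' (not_lt.1 h'')
  obtain ⟨z, hz, _⟩ := hensels_lemma (p := 3) (R := ℤ_[3]) (F := X ^ 2 + C 2) (a := 1) (by
    have e1 : (aeval (1 : ℤ_[3])) (X ^ 2 + C 2 : ℤ_[3][X]) = 3 := by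
      simp; norm_num
    have e2 : (aeval (1 : ℤ_[3])) (derivative (X ^ 2 + C 2 : ℤ_[3][X])) = 2 := by
      simp; norm_num
    rw [e1, e2, h2]
    simpa using h3)
  have hz' : z ^ 2 + 2 = 0 := by simpa using hz
  refine ⟨(z : ℚ_[3]), ?_⟩
  have h4 : ((z ^ 2 + 2 : ℤ_[3]) : ℚ_[3]) = 0 := by rw [hz']; rfl
  have h5 : ((z ^ 2 + 2 : ℤ_[3]) : ℚ_[3]) = (z : ℚ_[3]) ^ 2 + 2 := by
    rw [PadicInt.coe_add, PadicInt.coe_pow]
    rfl
  rw [h5] at h4
  linear_combination h4

theorem condA_padic : CondA ℚ_[3] := by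
  intro L _ _ _ _
  obtain ⟨z, hz⟩ := sqrt_neg_two
  refine ⟨1, algebraMap ℚ_[3] L z, ?_⟩
  rw [← map_pow, hz, map_neg, map_ofNat]
  norm_num

theorem unit_case (t : ℤ_[3]) : ‖1 + t ^ 2‖ = 1 := by
  by_contra h
  have h1 : ‖1 + t ^ 2‖ < 1 := lt_of_le_of_ne (PadicInt.norm_le_one _) h
  have h2 : (1 + t ^ 2) ∈ IsLocalRing.maximalIdeal ℤ_[3] := by
    rw [IsLocalRing.mem_maximalIdeal, PadicInt.mem_nonunits]
    exact h1
  rw [← PadicInt.ker_toZMod, RingHom.mem_ker, map_add, map_one, map_pow] at h2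
  revert h2
  generalize PadicInt.toZMod t = s
  revert s
  decide

theorem even_norm (t : ℚ_[3]) : ∃ m : ℤ, ‖1 + t ^ 2‖ = (3 : ℝ) ^ (2 * m) := by
  rcases le_or_gt ‖t‖ 1 with h | h
  · refine ⟨0, ?_⟩
    have h1 := unit_case ⟨t, h⟩
    rw [mul_zero, zpow_zero, ← h1, ← PadicInt.padic_norm_e_of_padicInt]
    push_cast
    rfl
  · have ht : t ≠ 0 := by
      rintro rfl
      rw [norm_zero] at h
      linarith
    refine ⟨-t.valuation, ?_⟩
    have h1 : ‖t‖ = (3 : ℝ) ^ (-t.valuation) := by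
      have := Padic.norm_eq_zpow_neg_valuation ht
      exact_mod_cast this
    have h2 : 1 < ‖t ^ 2‖ := by
      rw [norm_pow]
      nlinarith
    have h3 : ‖(1 : ℚ_[3]) + t ^ 2‖ = max ‖(1 : ℚ_[3])‖ ‖t ^ 2‖ := by
      apply Padic.add_eq_max_of_ne
      rw [norm_one]
      exact h2.ne
    rw [h3, norm_one, max_eq_right h2.le, norm_pow, h1, ← zpow_natCast, ← zpow_mul]
    congr 1
    push_cast
    ring

theorem no_sol (s t : ℚ_[3]) : 1 + t ^ 2 ≠ 3 * s ^ 2 := by
  intro h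
  obtain ⟨m, hm⟩ := even_norm t
  rw [h] at hm
  have hs : s ≠ 0 := by
    rintro rfl
    rw [zero_pow two_ne_zero, mul_zero, norm_zero] at hm
    have : (0 : ℝ) < (3 : ℝ) ^ (2 * m) := by positivity
    linarith
  have h3 : ‖(3 : ℚ_[3])‖ = (3 : ℝ) ^ (-1 : ℤ) := by
    have := Padic.norm_p (p := 3)
    rw [zpow_neg_one]
    exact_mod_cast this
  have h1 : ‖s‖ = (3 : ℝ) ^ (-s.valuation) := by
    have := Padic.norm_eq_zpow_neg_valuation hs
    exact_mod_cast this
  rw [norm_mul, norm_pow, h3, h1, ← zpow_natCast, ← zpow_mul, ← zpow_add₀ (by norm_num)] at hm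
  have h4 := zpow_right_injective₀ (by norm_num : (0 : ℝ) < 3) (by norm_num) hm
  push_cast at h4
  omega

end REALS

theorem t_REALS : S_REALS := by
  refine ⟨REALS.condA_real, REALS.condA_padic, fun x y z h => ?_⟩
  have hy : y = 0 := by
    by_contra hy
    apply REALS.no_sol (x / y) (z / y)
    field_simp
    linear_combination -h
  subst hy
  have hz : z = 0 := by
    by_contra hz
    apply REALS.no_sol (x / z) 0
    field_simp
    linear_combination -h
  subst hz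
  refine ⟨?_, rfl, rfl⟩
  have h1 : 3 * x ^ 2 = 0 := by rw [h]; ring
  have h2 : (3 : ℚ_[3]) ≠ 0 := by norm_num
  have h3 := (mul_eq_zero.1 h1).resolve_left h2
  exact pow_eq_zero_iff two_ne_zero |>.1 h3

end Pool.Agent.N825.WP
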