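import Pool.Agent.N825.WP.Stm

set_option autoImplicit false

/-! SIGN: arbitrary signs from the single sign changes. -/

namespace Pool.Agent.N825.WP.SIGN

open Pool.Agent.N825.WP

/-- Composition of the single sign changes over a finite set. -/
theorem main (h : S_SIGN1) (hT : S_TR) (hV : S_VDM) (hN : S_NSQ) : S_SIGN := by
  classical
  intro E C _ _ _ _ _ n x θ y hx halg hθ hθa hy ε hε
  have key : ∀ s : Finset (Fin n), ∃ σ : C ≃ₐ[E] C, (∀ i, σ (x i) = x i) ∧
      (∀ k, σ (θ k) = θ k) ∧ ∀ k, σ (y k) = if k ∈ s then -y k else y k := by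
    intro s
    induction s using Finset.induction_on with
    | empty => exact ⟨AlgEquiv.refl, fun _ => rfl, fun _ => rfl, fun k => by simp⟩
    | insert k₀ s hk₀ ih =>
      obtain ⟨σ, h1, h2, h3⟩ := ih
      obtain ⟨τ, t1, t2, t3, t4⟩ := h hT hV hN E C n x θ y hx halg hθ hθa hy k₀
      refine ⟨τ.trans σ, fun i => ?_, fun k => ?_, fun k => ?_⟩
      · rw [AlgEquiv.trans_apply, t1, h1]
      · rw [AlgEquiv.trans_apply, t2, h2]
      · rw [AlgEquiv.trans_apply]
        by_cases hk : k = k₀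
        · subst hk
          rw [t3, map_neg, h3 k, if_neg hk₀, if_pos (Finset.mem_insert_self _ _)]
        · rw [t4 k hk, h3 k]
          simp only [Finset.mem_insert, hk, false_or]
  obtain ⟨σ, h1, h2, h3⟩ := key (Finset.univ.filter fun k => ε k = -1)
  refine ⟨σ, h1, h2, fun k => ?_⟩
  rw [h3 k]
  have hmem : (k ∈ Finset.univ.filter fun k => ε k = -1) ↔ ε k = -1 := by simp
  by_cases hk : ε k = -1
  · rw [if_pos (hmem.2 hk), hk, neg_one_mul]
  · rw [if_neg (fun hc => hk (hmem.1 hc)), (hε k).resolve_right hk, one_mul]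

end Pool.Agent.N825.WP.SIGN

namespace Pool.Agent.N825.WP

/-- SIGN: arbitrary signs. -/
theorem t_SIGN (h : S_SIGN1) (hT : S_TR) (hV : S_VDM) (hN : S_NSQ) : S_SIGN :=
  SIGN.main h hT hV hN

end Pool.Agent.N825.WP
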