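import Pool.Agent.N825.WP.Stm

set_option autoImplicit false
set_option linter.all false

/-! SIGN1: changing the sign of one of the square roots (helper545). -/

namespace Pool.Agent.N825.WP

open Polynomial

namespace SIGN1

/-- An automorphism over `D` which changes the sign of the square root of a nonsquare. -/
theorem flip {K Ω : Type} [Field K] [Field Ω] [CharZero Ω] [Algebra K Ω] [IsAlgClosed Ω]
    [Algebra.IsAlgebraic K Ω] (d : K) (y : Ω) (hy : y ^ 2 = algebraMap K Ω d)
    (hn : ∀ r : K, algebraMap K Ω r ≠ y) : ∃ σ : Ω ≃ₐ[K] Ω, σ y = -y := by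
  have hclos : IsAlgClosure K Ω := ⟨inferInstance, inferInstance⟩
  have hnorm : Normal K Ω := IsAlgClosure.normal K Ω
  have hmon : (X ^ 2 - C d : K[X]).Monic := monic_X_pow_sub_C d two_ne_zero
  have hdeg : (X ^ 2 - C d : K[X]).natDegree = 2 := natDegree_X_pow_sub_C
  have hirr : Irreducible (X ^ 2 - C d : K[X]) := by
    rw [Polynomial.Monic.irreducible_iff_roots_eq_zero_of_degree_le_three hmon
      (by rw [hdeg]) (by rw [hdeg]; norm_num)]
    rw [Multiset.eq_zero_iff_forall_notMem]
    intro r hr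
    rw [mem_roots hmon.ne_zero, IsRoot.def, eval_sub, eval_pow, eval_X, eval_C, sub_eq_zero] at hr
    have h1 : (algebraMap K Ω r) ^ 2 = y ^ 2 := by rw [hy, ← hr, map_pow]
    rcases sq_eq_sq_iff_eq_or_eq_neg.1 h1 with h | h
    · exact hn r h
    · exact hn (-r) (by rw [map_neg, h, neg_neg])
  have hmin : minpoly K y = X ^ 2 - C d := by
    refine (minpoly.eq_of_irreducible_of_monic hirr ?_ hmon).symm
    simp [hy]
  obtain ⟨σ, hσ⟩ := minpoly.exists_algEquiv_of_root' (K := K) (L := Ω) (x := -y) (y := y)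
    (Algebra.IsAlgebraic.isAlgebraic y) (by
      rw [hmin]
      simp [hy])
  exact ⟨σ, hσ⟩

end SIGN1

open SIGN1 in
theorem t_SIGN1 : S_SIGN1 := by
  intro hTR hVDM hNSQ E C _ _ _ _ _ n x θ y hx hCalg hθ hθalg hy k₀
  obtain ⟨hV1, hV2⟩ := hVDM hTR E C n x θ hθ
  have hl := hV1 hθalg hx
  obtain ⟨l, hldef⟩ : ∃ l : Fin n → C, l = fun k => ∑ i, x i * θ k ^ (i : ℕ) := ⟨_, rfl⟩
  have hly : ∀ k, y k ^ 2 = -1 - l k ^ 2 := fun k => by rw [hldef]; exact hy k
  have hVl : ∀ K : Subfield C, (∀ k, θ k ∈ K) → (∀ k, l k ∈ K) → ∀ i, x i ∈ K := by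
    intro K h1 h2
    exact hV2 K h1 fun k => by have := h2 k; rw [hldef] at this; exact this
  rw [← hldef] at hl
  clear hy hV1 hV2 hldef
  let D0 : IntermediateField E C := IntermediateField.adjoin E (l '' {k | k ≠ k₀})
  let D : IntermediateField D0 C := algebraicClosure D0 C
  have ht0 : Transcendental D0 (l k₀) := by
    have h1 := hl.transcendental_adjoin (s := {k | k ≠ k₀}) (i := k₀) (by simp)
    exact IntermediateField.transcendental_adjoin_iff.2 h1
  have htD : Transcendental D (l k₀) := by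
    intro halg
    exact ht0 (halg.restrictScalars D0)
  have hcD : CharZero D := charZero_of_injective_algebraMap (algebraMap D0 D).injective
  let D1 : IntermediateField D C := IntermediateField.adjoin D {l k₀}
  have hns : y k₀ ∉ D1 := hNSQ D C (l k₀) htD (y k₀) (hly k₀)
  -- memberships
  have hD : ∀ c : C, IsAlgebraic D0 c → c ∈ D1 := by
    intro c hc
    have h1 : c ∈ D := mem_algebraicClosure_iff.2 hc
    exact D1.algebraMap_mem ⟨c, h1⟩
  have hD0 : ∀ c : C, c ∈ D0 → c ∈ D1 := by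
    intro c hc
    exact hD c (isAlgebraic_algebraMap (⟨c, hc⟩ : D0))
  have hE : ∀ e : E, algebraMap E C e ∈ D1 := fun e => hD0 _ (D0.algebraMap_mem e)
  have hθ1 : ∀ k, θ k ∈ D1 := fun k => hD _ ((hθalg k).tower_top D0)
  have hlk : ∀ k, k ≠ k₀ → l k ∈ D0 := fun k hk =>
    IntermediateField.subset_adjoin E _ ⟨k, hk, rfl⟩
  have hl0 : l k₀ ∈ D1 := IntermediateField.subset_adjoin D _ rfl
  have hl1 : ∀ k, l k ∈ D1 := by
    intro k
    by_cases hk : k = k₀
    · rw [hk]; exact hl0
    · exact hD0 _ (hlk k hk)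
  have hyk : ∀ k, k ≠ k₀ → y k ∈ D1 := by
    intro k hk
    apply hD
    have h1 : IsAlgebraic D0 (y k ^ 2) := by
      rw [hly k]
      have h2 : (-1 - l k ^ 2 : C) = algebraMap D0 C (-1 - ⟨l k, hlk k hk⟩ ^ 2) := by
        rw [map_sub, map_neg, map_one, map_pow]
        rfl
      rw [h2]
      exact isAlgebraic_algebraMap _
    exact h1.of_pow (by norm_num)
  have hx1 : ∀ i, x i ∈ D1 := hVl D1.toSubfield hθ1 hl1
  -- `C` is algebraic over `D1`
  have hK : ∀ c : C, c ∈ IntermediateField.adjoin E (Set.range x) → c ∈ D1 := by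
    intro c hc
    have h1 : IntermediateField.adjoin E (Set.range x) ≤
        (D1.toSubfield.toIntermediateField hE : IntermediateField E C) := by
      rw [IntermediateField.adjoin_le_iff]
      rintro _ ⟨i, rfl⟩
      exact hx1 i
    exact h1 hc
  have hCD : Algebra.IsAlgebraic D1 C := by
    let ι : IntermediateField.adjoin E (Set.range x) →+* D1 :=
      { toFun := fun c => ⟨c.1, hK c.1 c.2⟩
        map_one' := rfl
        map_mul' := fun _ _ => rfl
        map_zero' := rfl
        map_add' := fun _ _ => rfl }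
    letI : Algebra (IntermediateField.adjoin E (Set.range x)) D1 := ι.toAlgebra
    haveI : IsScalarTower (IntermediateField.adjoin E (Set.range x)) D1 C :=
      IsScalarTower.of_algebraMap_eq fun _ => rfl
    exact ⟨fun c => (hCalg.isAlgebraic c).tower_top D1⟩
  obtain ⟨σ, hσ⟩ := flip (K := D1) (-1 - ⟨l k₀, hl0⟩ ^ 2) (y k₀) (by
      rw [hly k₀, map_sub, map_neg, map_one, map_pow]
      rfl) (by
      intro r hr
      exact hns (hr ▸ r.2))
  have hfix : ∀ c : C, c ∈ D1 → σ c = c := fun c hc => σ.commutes ⟨c, hc⟩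
  refine ⟨AlgEquiv.ofRingEquiv (f := σ.toRingEquiv) (fun e => hfix _ (hE e)), fun i => ?_,
    fun k => ?_, ?_, fun k hk => ?_⟩
  · exact hfix _ (hx1 i)
  · exact hfix _ (hθ1 k)
  · exact hσ
  · exact hfix _ (hyk k hk)

end Pool.Agent.N825.WP
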