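import Pool.Agent.N825.WP.Stm
import Pool.Agent.Y604.Z1.Main

/-! Project WP (helper825), task SPR (helper78): Springer's theorem for diagonal forms. -/

set_option autoImplicit false

namespace Pool.Agent.N825.WP

open Polynomial Pool.Agent.N825.WI

namespace SPR

theorem diag_sum {R : Type} [CommRing R] {n : ℕ} (c : Fin n → R) (w : Fin n → R) :
    ∑ i, ∑ j, (if i = j then c i else 0) * w i * w j = ∑ i, c i * w i ^ 2 := by
  refine Finset.sum_congr rfl fun i _ => ?_
  rw [Finset.sum_eq_single i]
  · rw [if_pos rfl]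
    ring
  · intro j _ hj
    rw [if_neg (Ne.symm hj)]
    ring
  · intro h
    exact absurd (Finset.mem_univ i) h

theorem main (F L : Type) [Field F] [CharZero F] [Field L] [Algebra F L] [FiniteDimensional F L]
    (hodd : Odd (Module.finrank F L)) (n : ℕ) (c : Fin n → F)
    (hc : ∀ x : Fin n → F, ∑ i, c i * x i ^ 2 = 0 → x = 0) (x : Fin n → L)
    (hx : ∑ i, algebraMap F L (c i) * x i ^ 2 = 0) : x = 0 := by
  classical
  obtain ⟨θ, hθ⟩ := Field.exists_primitive_element F L
  have hint : IsIntegral F θ := IsIntegral.of_finite F θ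
  have hdeg : (minpoly F θ).natDegree = Module.finrank F L :=
    (Field.primitive_element_iff_minpoly_natDegree_eq F θ).1 hθ
  have hrep : ∀ y : L, ∃ v : F[X], aeval θ v = y := by
    intro y
    have h1 : y ∈ (IntermediateField.adjoin F {θ}) := by
      rw [hθ]
      exact IntermediateField.mem_top
    have h2 : y ∈ (IntermediateField.adjoin F {θ}).toSubalgebra := h1
    rw [IntermediateField.adjoin_simple_toSubalgebra_of_isAlgebraic hint.isAlgebraic,
      Algebra.adjoin_singleton_eq_range_aeval] at h2
    exact h2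
  choose v hv using fun i => hrep (x i)
  by_contra hne
  obtain ⟨i₀, hi₀⟩ : ∃ i, x i ≠ 0 := by
    by_contra hcon
    push Not at hcon
    exact hne (funext hcon)
  refine Pool.Agent.Y604.Z1.springer_poly (fun i j : Fin n => if i = j then c i else 0)
    (fun w hw => hc w ?_) (minpoly F θ).natDegree (minpoly F θ) (minpoly.irreducible hint)
    (hdeg ▸ hodd) rfl v ⟨i₀, fun hd => hi₀ ?_⟩ ?_
  · rwa [diag_sum] at hw
  · obtain ⟨w, hw⟩ := hd
    rw [← hv i₀, hw, map_mul, minpoly.aeval, zero_mul]
  · have e : ∑ i, ∑ j, C ((fun i j : Fin n => if i = j then c i else 0) i j) * v i * v j =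
        ∑ i, C (c i) * v i ^ 2 := by
      rw [← diag_sum (fun i => C (c i)) v]
      refine Finset.sum_congr rfl fun i _ => Finset.sum_congr rfl fun j _ => ?_
      by_cases hij : i = j
      · simp [hij]
      · simp [hij]
    rw [e]
    apply minpoly.dvd
    rw [map_sum, ← hx]
    refine Finset.sum_congr rfl fun i _ => ?_
    rw [map_mul, aeval_C, map_pow, hv]

end SPR

theorem t_SPR : S_SPR := by
  intro F L _ _ _ f hf n c hc x hx
  let _ : Algebra F L := f.toAlgebra
  have : FiniteDimensional F L := hf.1
  exact SPR.main F L hf.2 n c hc x hx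

end Pool.Agent.N825.WP
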