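import Pool.Agent.N825.WP.Stm

set_option autoImplicit false

/-! STEPR and PRIM (helper896). -/

namespace Pool.Agent.N825.WP

open Pool.Agent.N825.WI Polynomial

theorem t_STEPR (h : S_STEP) : S_STEPR := by
  intro M₁ M₂ _ _ _ _ hA1 hA2 hu1 hu2 S hS hc f hf hirr hcert
  let fS : Field S := hS.toField
  obtain ⟨E', fE', j₁, j₂, i, hE', h1, h2, a, b, hab⟩ := h M₁ M₂ hA1 hA2 hu1 hu2 S hc
    ((RingHom.fst M₁ M₂).comp S.subtype) ((RingHom.snd M₁ M₂).comp S.subtype) f hf hirr hcert
  have hj : ∀ s : S, (j₁.prod j₂) (i s) = (s : M₁ × M₂) := by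
    intro s
    refine Prod.ext ?_ ?_
    · exact DFunLike.congr_fun h1 s
    · exact DFunLike.congr_fun h2 s
  have hle : S ≤ (j₁.prod j₂).range := fun s hs => ⟨i ⟨s, hs⟩, hj ⟨s, hs⟩⟩
  refine ⟨(j₁.prod j₂).range, hle, ?_, ?_, ?_⟩
  · exact (RingEquiv.ofBijective (j₁.prod j₂).rangeRestrict
      ⟨(j₁.prod j₂).rangeRestrict.injective,
        (j₁.prod j₂).rangeRestrict_surjective⟩).symm.toMulEquiv.isField (Field.toIsField E')
  · exact (j₁.prod j₂).rangeRestrict_surjective.countable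
  · refine ⟨a.map (j₁.prod j₂).rangeRestrict, b.map (j₁.prod j₂).rangeRestrict, ?_⟩
    have h3 := Polynomial.map_dvd (j₁.prod j₂).rangeRestrict hab
    rw [Polynomial.map_map] at h3
    have h4 : (j₁.prod j₂).rangeRestrict.comp i = Subring.inclusion hle := by
      ext1 s
      exact Subtype.ext (hj s)
    rw [h4] at h3
    simpa only [Polynomial.map_add, Polynomial.map_pow, Polynomial.map_one] using h3

theorem t_PRIM : S_PRIM := by
  intro F _ _ h L _ _ _ hsq
  obtain ⟨θ, hθ⟩ := Field.exists_primitive_element F L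
  have hint : IsIntegral F θ := IsIntegral.of_finite F θ
  have hsurj : ∀ x : L, ∃ p : F[X], aeval θ p = x := by
    intro x
    have h1 : x ∈ (Algebra.adjoin F {θ}) := by
      rw [← IntermediateField.adjoin_simple_toSubalgebra_of_isAlgebraic hint.isAlgebraic, hθ]
      trivial
    rw [Algebra.adjoin_singleton_eq_range_aeval] at h1
    exact h1
  have hs : ∀ x : L, IsSumSq x → ∃ (n : ℕ) (p : Fin n → F[X]), x = ∑ i, (aeval θ (p i)) ^ 2 := by
    intro x hx
    induction hx with
    | zero => exact ⟨0, Fin.elim0, by simp⟩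
    | sq_add a hs ih =>
      obtain ⟨n, p, hp⟩ := ih
      obtain ⟨q, hq⟩ := hsurj a
      refine ⟨n + 1, Fin.cons q p, ?_⟩
      rw [Fin.sum_univ_succ]
      simp only [Fin.cons_zero, Fin.cons_succ]
      rw [← hp, hq, pow_two]
  obtain ⟨n, p, hp⟩ := hs _ hsq
  have hc : Cert (minpoly F θ) := by
    refine ⟨n, p, minpoly.dvd F θ ?_⟩
    rw [map_add, map_one, map_sum]
    simp only [map_pow]
    rw [← hp]
    ring
  obtain ⟨a, b, hab⟩ := h (minpoly F θ) (minpoly.monic hint) (minpoly.irreducible hint) hc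
  refine ⟨aeval θ a, aeval θ b, ?_⟩
  obtain ⟨c, hc'⟩ := hab
  have h5 := congrArg (aeval θ) hc'
  rw [map_mul, minpoly.aeval, zero_mul, map_add, map_add, map_one, map_pow, map_pow] at h5
  exact eq_neg_of_add_eq_zero_left h5

end Pool.Agent.N825.WP
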