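import Pool.Agent.N825.WP.Stm

set_option autoImplicit false

/-! Project WP, STEPa: `-1` is a sum of two squares modulo a separable polynomial. -/

namespace Pool.Agent.N825.WP

open Polynomial

namespace STEPa

variable {M : Type} [Field M]

theorem cert_of_dvd {f g : M[X]} (h : f ∣ g) (hg : Cert g) : Cert f := by
  obtain ⟨n, p, hp⟩ := hg
  exact ⟨n, p, h.trans hp⟩

/-- one irreducible polynomial -/
theorem two_irr (hM : CondA M) {p : M[X]} (hp : Irreducible p) (hC : Cert p) : Two p := by
  obtain ⟨n, q, hq⟩ := hC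
  have : Fact (Irreducible p) := ⟨hp⟩
  have hfin : FiniteDimensional M (AdjoinRoot p) := (AdjoinRoot.powerBasis hp.ne_zero).finite
  have h1 : IsSumSq (-1 : AdjoinRoot p) := by
    have h2 : AdjoinRoot.mk p (1 + ∑ i, q i ^ 2) = 0 := AdjoinRoot.mk_eq_zero.2 hq
    rw [map_add, map_one, map_sum] at h2
    have h3 : (-1 : AdjoinRoot p) = ∑ i, AdjoinRoot.mk p (q i) ^ 2 := by
      rw [neg_eq_iff_add_eq_zero, ← h2]
      simp only [map_pow]
    rw [h3]
    exact IsSumSq.sum_sq _ _
  obtain ⟨a, b, hab⟩ := hM (AdjoinRoot p) h1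
  obtain ⟨A, rfl⟩ := AdjoinRoot.mk_surjective a
  obtain ⟨B, rfl⟩ := AdjoinRoot.mk_surjective b
  refine ⟨A, B, ?_⟩
  rw [← AdjoinRoot.mk_eq_zero, map_add, map_add, map_pow, map_pow, map_one, hab, neg_add_cancel]

/-- the product of coprime polynomials -/
theorem two_mul {x y : M[X]} (h : IsCoprime x y) (hx : Two x) (hy : Two y) : Two (x * y) := by
  obtain ⟨u, v, huv⟩ := h
  obtain ⟨a, b, s, hs⟩ := hx
  obtain ⟨a', b', t, ht⟩ := hy
  refine ⟨a * v * y + a' * u * x, b * v * y + b' * u * x, ?_⟩
  apply IsCoprime.mul_dvd ⟨u, v, huv⟩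
  · have e1 : a * v * y + a' * u * x = a + x * (u * (a' - a)) := by
      linear_combination a * huv
    have e2 : b * v * y + b' * u * x = b + x * (u * (b' - b)) := by
      linear_combination b * huv
    rw [e1, e2]
    refine ⟨s + 2 * a * (u * (a' - a)) + x * (u * (a' - a)) ^ 2 + 2 * b * (u * (b' - b)) +
      x * (u * (b' - b)) ^ 2, ?_⟩
    linear_combination hs
  · have e1 : a * v * y + a' * u * x = a' + y * (v * (a - a')) := by
      linear_combination a' * huv
    have e2 : b * v * y + b' * u * x = b' + y * (v * (b - b')) := by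
      linear_combination b' * huv
    rw [e1, e2]
    refine ⟨t + 2 * a' * (v * (a - a')) + y * (v * (a - a')) ^ 2 + 2 * b' * (v * (b - b')) +
      y * (v * (b - b')) ^ 2, ?_⟩
    linear_combination ht

theorem two_sqf (hM : CondA M) (f : M[X]) : Squarefree f → Cert f → Two f := by
  refine UniqueFactorizationMonoid.induction_on_coprime
    (P := fun f : M[X] => Squarefree f → Cert f → Two f) f ?_ ?_ ?_ ?_
  · intro h
    exact absurd h not_squarefree_zero
  · intro x hx _ _
    exact ⟨0, 0, hx.dvd⟩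
  · intro p i hp hs hC
    rcases Nat.lt_or_ge i 2 with hi | hi
    · interval_cases i
      · refine ⟨0, 0, ?_⟩
        rw [pow_zero]
        exact one_dvd _
      · rw [pow_one] at hC ⊢
        exact two_irr hM hp.irreducible hC
    · exfalso
      apply hp.not_unit
      apply hs p
      rw [← sq]
      exact pow_dvd_pow p hi
  · intro x y hxy h1 h2 hs hC
    exact two_mul hxy.isCoprime (h1 hs.of_mul_left (cert_of_dvd (dvd_mul_right x y) hC))
      (h2 hs.of_mul_right (cert_of_dvd (dvd_mul_left y x) hC))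

end STEPa

theorem t_STEPa : S_STEPa := by
  intro M _ _ hM f _ hsep hC
  exact STEPa.two_sqf hM f hsep.squarefree hC

end Pool.Agent.N825.WP
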