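import Pool.Agent.N825.WP.Stm

/-!
# Project WP, part STEPb (helper713): generic representations of `-1` as a sum of two squares
-/

set_option autoImplicit false

namespace Pool.Agent.N825.WP.STEPb

open Polynomial Pool.Agent.N825.WP

/-- the roots -/
theorem roots {E C : Type} [Field E] [Field C] [IsAlgClosed C] [Algebra E C] {f : E[X]}
    (hf : f.Monic) (hs : f.Separable) :
    ∃ θ : Fin f.natDegree → C, Function.Injective θ ∧ (∀ k, aeval (θ k) f = 0) ∧
      ∀ z, aeval z f = 0 → ∃ k, θ k = z := by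
  classical
  have hcard : Fintype.card (f.rootSet C) = f.natDegree :=
    card_rootSet_eq_natDegree hs (IsAlgClosed.splits _)
  let e : Fin f.natDegree ≃ f.rootSet C := (Fintype.equivFinOfCardEq hcard).symm
  refine ⟨fun k => (e k : C), Subtype.val_injective.comp e.injective, fun k => ?_, fun z hz => ?_⟩
  · exact (mem_rootSet.1 (e k).2).2
  · exact ⟨e.symm ⟨z, mem_rootSet.2 ⟨hf.ne_zero, hz⟩⟩, by simp⟩

/-- the rotation, modulo `F` -/
theorem rotate {R : Type} [Field R] (F μ a0 b0 : R[X]) (hF : F.Monic) (hF1 : F ≠ 1)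
    (hcop : IsCoprime (1 + μ ^ 2) F) (hAB : F ∣ a0 ^ 2 + b0 ^ 2 + 1) :
    ∃ a b : R[X], a.natDegree < F.natDegree ∧ b.natDegree < F.natDegree ∧
      F ∣ a ^ 2 + b ^ 2 + 1 ∧ F ∣ (1 + μ ^ 2) * a - ((1 - μ ^ 2) * a0 - 2 * μ * b0) := by
  obtain ⟨u, v, huv⟩ := hcop
  refine ⟨(((1 - μ ^ 2) * a0 - 2 * μ * b0) * u) %ₘ F, ((2 * μ * a0 + (1 - μ ^ 2) * b0) * u) %ₘ F,
    natDegree_modByMonic_lt _ hF hF1, natDegree_modByMonic_lt _ hF hF1, ?_, ?_⟩
  · have h1 := modByMonic_add_div (((1 - μ ^ 2) * a0 - 2 * μ * b0) * u) F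
    have h2 := modByMonic_add_div ((2 * μ * a0 + (1 - μ ^ 2) * b0) * u) F
    rw [← AdjoinRoot.mk_eq_zero] at hAB ⊢
    have g1 := congrArg (AdjoinRoot.mk F) h1
    have g2 := congrArg (AdjoinRoot.mk F) h2
    have g3 := congrArg (AdjoinRoot.mk F) huv
    simp only [map_add, map_mul, map_sub, map_pow, map_one, map_ofNat, AdjoinRoot.mk_self, zero_mul,
      mul_zero, add_zero] at g1 g2 g3 hAB ⊢
    rw [g1, g2]
    linear_combination ((AdjoinRoot.mk F u) * (1 + (AdjoinRoot.mk F μ) ^ 2)) ^ 2 * hAB -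
      ((AdjoinRoot.mk F u) * (1 + (AdjoinRoot.mk F μ) ^ 2) + 1) * g3
  · have h1 := modByMonic_add_div (((1 - μ ^ 2) * a0 - 2 * μ * b0) * u) F
    rw [← AdjoinRoot.mk_eq_zero]
    have g1 := congrArg (AdjoinRoot.mk F) h1
    have g3 := congrArg (AdjoinRoot.mk F) huv
    simp only [map_add, map_mul, map_sub, map_pow, map_one, map_ofNat, AdjoinRoot.mk_self, zero_mul,
      mul_zero, add_zero] at g1 g3 ⊢
    rw [g1]
    linear_combination ((1 - (AdjoinRoot.mk F μ) ^ 2) * (AdjoinRoot.mk F a0) -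
      2 * (AdjoinRoot.mk F μ) * (AdjoinRoot.mk F b0)) * g3

/-- the main part -/
theorem core (hTR : S_TR) (hV : S_VDM) (E M C : Type) [Field E] [Field M] [Field C] [CharZero C]
    [IsAlgClosed C] [Algebra E M] [Algebra M C] [Algebra E C] [IsScalarTower E M C] (f : E[X])
    (hf : f.Monic) (hs : f.Separable) (hn : 0 < f.natDegree) (A0 B0 : E[X])
    (hAB : f ∣ A0 ^ 2 + B0 ^ 2 + 1) (m : Fin f.natDegree → M) (hm : AlgebraicIndependent E m) :
    ∃ a b : M[X], a.natDegree < f.natDegree ∧ b.natDegree < f.natDegree ∧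
      AlgebraicIndependent E (fun k : Fin f.natDegree => a.coeff k) ∧
      f.map (algebraMap E M) ∣ a ^ 2 + b ^ 2 + 1 := by
  classical
  obtain ⟨θ, hθinj, hθroot, hθall⟩ := roots (C := C) hf hs
  have hm' : AlgebraicIndependent E (fun k => algebraMap M C (m k)) :=
    hm.map' (f := IsScalarTower.toAlgHom E M C) (algebraMap M C).injective
  obtain ⟨hV1, -⟩ := hV hTR E C _ (fun k => algebraMap M C (m k)) θ hθinj
  have hval := hV1 (fun k => ⟨f, hf.ne_zero, hθroot k⟩) hm'
  obtain ⟨μ, hμd⟩ : ∃ μ : M[X], μ = ∑ i, Polynomial.C (m i) * X ^ (i : ℕ) := ⟨_, rfl⟩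
  have hμ : ∀ k, aeval (θ k) μ = ∑ i, algebraMap M C (m i) * θ k ^ (i : ℕ) := by
    intro k
    rw [hμd, map_sum]
    refine Finset.sum_congr rfl fun i _ => ?_
    rw [map_mul, map_pow, aeval_C, aeval_X]
  obtain ⟨F, hF⟩ : ∃ F : M[X], F = f.map (algebraMap E M) := ⟨_, rfl⟩
  have hFd : F.natDegree = f.natDegree := by rw [hF, natDegree_map]
  have hFm : F.Monic := by rw [hF]; exact hf.map _
  have hF1 : F ≠ 1 := by
    intro h
    rw [← hFd, h, natDegree_one] at hn
    exact lt_irrefl _ hn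
  have hFr : ∀ z : C, aeval z F = aeval z f := fun z => by rw [hF, aeval_map_algebraMap]
  have hcop : IsCoprime (1 + μ ^ 2) F := by
    rw [isCoprime_iff_aeval_ne_zero_of_isAlgClosed M C]
    intro z
    by_contra hcon
    push Not at hcon
    obtain ⟨h1, h2⟩ := hcon
    rw [hFr] at h2
    obtain ⟨k, rfl⟩ := hθall z h2
    rw [map_add, map_one, map_pow, hμ] at h1
    apply hval.transcendental k
    refine ⟨X ^ 2 + 1, ?_, ?_⟩
    · have : (X ^ 2 + 1 : E[X]).Monic := by
        rw [← C_1]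
        exact monic_X_pow_add_C 1 two_ne_zero
      exact this.ne_zero
    · rw [map_add, map_one, map_pow, aeval_X, add_comm]
      exact h1
  obtain ⟨a, b, ha, hb, hab, hrel⟩ := rotate F μ (A0.map (algebraMap E M))
    (B0.map (algebraMap E M)) hFm hF1 hcop (by
      have h1 := Polynomial.map_dvd (algebraMap E M) hAB
      rw [Polynomial.map_add, Polynomial.map_add, Polynomial.map_pow, Polynomial.map_pow,
        Polynomial.map_one, ← hF] at h1
      exact h1)
  rw [hFd] at ha hb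
  refine ⟨a, b, ha, hb, ?_, by rw [← hF]; exact hab⟩
  -- independence
  refine AlgebraicIndependent.of_comp (IsScalarTower.toAlgHom E M C) ?_
  refine hTR E C _ (fun k => algebraMap M C (m k)) _ hm' ?_
  obtain ⟨D, hD⟩ : ∃ D, D = IntermediateField.adjoin E (Set.range
    ((IsScalarTower.toAlgHom E M C) ∘ fun k : Fin f.natDegree => a.coeff k)) := ⟨_, rfl⟩
  rw [← hD]
  obtain ⟨K, hK⟩ : ∃ K, K = algebraicClosure D C := ⟨_, rfl⟩
  have hKmem : ∀ z : C, z ∈ K ↔ IsAlgebraic D z := fun z => by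
    rw [hK, mem_algebraicClosure_iff]
  have hE : ∀ z : E, algebraMap E C z ∈ K := by
    intro z
    rw [hKmem, IsScalarTower.algebraMap_apply E D C]
    exact isAlgebraic_algebraMap _
  have hθK : ∀ k, θ k ∈ K := by
    intro k
    rw [hKmem]
    exact IsAlgebraic.tower_top D ⟨f, hf.ne_zero, hθroot k⟩
  have hpol : ∀ (P : E[X]) (k : Fin f.natDegree), aeval (θ k) P ∈ K := by
    intro P k
    rw [aeval_eq_sum_range]
    refine sum_mem fun i _ => ?_
    rw [Algebra.smul_def]
    exact mul_mem (hE _) (pow_mem (hθK k) _)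
  have hA : ∀ k, aeval (θ k) a ∈ K := by
    intro k
    rw [aeval_eq_sum_range]
    refine sum_mem fun i hi => ?_
    rw [Algebra.smul_def]
    refine mul_mem ?_ (pow_mem (hθK k) _)
    rw [Finset.mem_range] at hi
    have h1 : algebraMap M C (a.coeff i) ∈ D := by
      rw [hD]
      exact IntermediateField.subset_adjoin E _ ⟨⟨i, by omega⟩, rfl⟩
    rw [hKmem]
    exact isAlgebraic_algebraMap (⟨_, h1⟩ : D)
  have hy : ∀ k, ∑ i, algebraMap M C (m i) * θ k ^ (i : ℕ) ∈ K := by
    intro k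
    rw [← hμ k]
    obtain ⟨y, hyd⟩ : ∃ y, y = aeval (θ k) μ := ⟨_, rfl⟩
    rw [← hyd]
    have e1 : (aeval (θ k) A0) ^ 2 + (aeval (θ k) B0) ^ 2 + 1 = 0 := by
      obtain ⟨q, hq⟩ := hAB
      have h1 := congrArg (aeval (θ k)) hq
      rwa [map_add, map_add, map_pow, map_pow, map_one, map_mul, hθroot, zero_mul] at h1
    have e2 : (1 + y ^ 2) * aeval (θ k) a =
        (1 - y ^ 2) * aeval (θ k) A0 - 2 * y * aeval (θ k) B0 := by
      obtain ⟨q, hq⟩ := hrel
      have h1 := congrArg (aeval (θ k)) hq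
      rw [map_mul, hFr, hθroot, zero_mul] at h1
      simp only [map_add, map_mul, map_sub, map_pow, map_one, map_ofNat,
        aeval_map_algebraMap] at h1
      rw [hyd]
      linear_combination h1
    have hp := hpol A0 k
    have hq := hpol B0 k
    have hAk := hA k
    obtain ⟨p, hpd⟩ : ∃ p, p = aeval (θ k) A0 := ⟨_, rfl⟩
    obtain ⟨q, hqd⟩ : ∃ q, q = aeval (θ k) B0 := ⟨_, rfl⟩
    obtain ⟨A, hAd⟩ : ∃ A, A = aeval (θ k) a := ⟨_, rfl⟩
    rw [← hpd, ← hqd] at e1
    rw [← hpd, ← hqd, ← hAd] at e2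
    rw [← hpd] at hp
    rw [← hqd] at hq
    rw [← hAd] at hAk
    have hyK : IsAlgebraic K y := by
      refine ⟨Polynomial.C (⟨A + p, add_mem hAk hp⟩ : K) * X ^ 2 +
        Polynomial.C (⟨q + q, add_mem hq hq⟩ : K) * X +
        Polynomial.C (⟨A - p, sub_mem hAk hp⟩ : K), ?_, ?_⟩
      · intro h0
        have c2 := congrArg (fun P => P.coeff 2) h0
        have c1 := congrArg (fun P => P.coeff 1) h0
        have c0 := congrArg (fun P => P.coeff 0) h0
        simp only [coeff_add, coeff_C_mul, coeff_X_pow, coeff_X, coeff_C] at c2 c1 c0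
        norm_num at c2 c1 c0
        have d2 : A + p = 0 := congrArg Subtype.val c2
        have d1 : q + q = 0 := congrArg Subtype.val c1
        have d0 : A - p = 0 := congrArg Subtype.val c0
        have hp0 : p = 0 := by linear_combination (d2 - d0) / 2
        have hq0 : q = 0 := by linear_combination d1 / 2
        rw [hp0, hq0] at e1
        norm_num at e1
      · simp only [map_add, map_mul, map_pow, aeval_X, aeval_C]
        show (A + p) * y ^ 2 + (q + q) * y + (A - p) = 0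
        linear_combination e2
    rw [hKmem]
    subst hK
    exact hyK.restrictScalars D
  obtain ⟨-, hV2⟩ := hV hTR E C _ (fun k => algebraMap M C (m k)) θ hθinj
  intro k
  rw [← hKmem]
  exact hV2 K.toSubfield hθK hy k

theorem core' (hTR : S_TR) (hV : S_VDM) (E M C : Type) [Field E] [Field M] [Field C] [CharZero C]
    [IsAlgClosed C] [Algebra E M] [Algebra M C] [Algebra E C] [IsScalarTower E M C] (f : E[X])
    (hf : f.Monic) (hs : f.Separable) (n : ℕ) (hfn : f.natDegree = n) (hn : 0 < n) (A0 B0 : E[X])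
    (hAB : f ∣ A0 ^ 2 + B0 ^ 2 + 1) (m : Fin n → M) (hm : AlgebraicIndependent E m) :
    ∃ a b : M[X], a.natDegree < n ∧ b.natDegree < n ∧
      AlgebraicIndependent E (fun k : Fin n => a.coeff k) ∧
      f.map (algebraMap E M) ∣ a ^ 2 + b ^ 2 + 1 := by
  subst hfn
  exact core hTR hV E M C f hf hs hn A0 B0 hAB m hm

open Cardinal in
theorem countable_adjoin {E M : Type} [Field E] [Field M] [Algebra E M] (hE : Countable E)
    (S : Finset M) : Countable (IntermediateField.adjoin E (S : Set M)) := by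
  rw [← mk_le_aleph0_iff]
  refine (IntermediateField.cardinalMk_adjoin_le E (S : Set M)).trans ?_
  rw [sup_le_iff, sup_le_iff]
  refine ⟨⟨mk_le_aleph0_iff.2 hE, ?_⟩, le_rfl⟩
  exact mk_le_aleph0_iff.2 (S.countable_toSet.to_subtype)

theorem lift {E M : Type} [Field E] [Field M] [Algebra E M] (S : Finset M) (a : M[X])
    (h : a.coeffs ⊆ S) : ∃ A : (IntermediateField.adjoin E (S : Set M))[X],
      A.map (algebraMap _ M) = a := by
  rw [← mem_lifts, lifts_iff_coeff_lifts]
  intro n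
  by_cases h0 : a.coeff n = 0
  · exact ⟨0, by rw [h0, map_zero]⟩
  · exact ⟨⟨a.coeff n, IntermediateField.subset_adjoin E _ (h (coeff_mem_coeffs h0))⟩, rfl⟩

end Pool.Agent.N825.WP.STEPb

namespace Pool.Agent.N825.WP

open Polynomial

theorem t_STEPb : S_STEPb := by
  classical
  intro hG hTR hV E M _ _ _ _ hE hM f hf hirr hTwo
  obtain ⟨a0, b0, hab⟩ := hTwo
  have hn : 0 < f.natDegree := hirr.natDegree_pos
  have hE1 := STEPb.countable_adjoin (E := E) hE (a0.coeffs ∪ b0.coeffs)
  obtain ⟨A0, hA0⟩ := STEPb.lift (E := E) (a0.coeffs ∪ b0.coeffs) a0 Finset.subset_union_left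
  obtain ⟨B0, hB0⟩ := STEPb.lift (E := E) (a0.coeffs ∪ b0.coeffs) b0 Finset.subset_union_right
  generalize IntermediateField.adjoin E ((a0.coeffs ∪ b0.coeffs : Finset M) : Set M) = E1
    at hE1 A0 hA0 B0 hB0
  have hchar : CharZero E := ((algebraMap E M).charZero_iff (algebraMap E M).injective).2 inferInstance
  obtain ⟨m, hm⟩ := hG E1 M hE1 hM f.natDegree
  have hmap : (f.map (algebraMap E E1)).map (algebraMap E1 M) = f.map (algebraMap E M) := by
    rw [map_map, ← IsScalarTower.algebraMap_eq]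
  obtain ⟨a, b, ha, hb, hind, hdvd⟩ := STEPb.core' hTR hV E1 M (AlgebraicClosure M)
    (f.map (algebraMap E E1)) (hf.map _) hirr.separable.map f.natDegree (natDegree_map _) hn A0 B0
    (by
      rw [← map_dvd_map (algebraMap E1 M) (algebraMap E1 M).injective (hf.map _), hmap,
        Polynomial.map_add, Polynomial.map_add, Polynomial.map_pow, Polynomial.map_pow,
        Polynomial.map_one, hA0, hB0]
      exact hab) m hm
  rw [hmap] at hdvd
  exact ⟨a, b, ha, hb, hind.restrictScalars (algebraMap E E1).injective, hdvd⟩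

end Pool.Agent.N825.WP
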