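import Pool.Agent.N825.WP.Stm

/-!
# Construction of the universal field (part STEPc of project WP of helper825; by helper400)
-/

set_option autoImplicit false

namespace Pool.Agent.N825.WP

open Pool.Agent.N825.WI Polynomial

namespace STEPc

theorem exists_Om (E : Type) [Field E] (hE : Countable E) (n : ℕ) :
    ∃ (Ω : Type) (_ : Field Ω) (_ : Algebra E Ω) (_ : IsAlgClosed Ω) (x : Fin n → Ω),
      Countable Ω ∧ AlgebraicIndependent E x ∧
      Algebra.IsAlgebraic (IntermediateField.adjoin E (Set.range x)) Ω := by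
  let P := MvPolynomial (Fin n) E
  let K := FractionRing P
  let Ω := AlgebraicClosure K
  let g : P →ₐ[E] Ω := IsScalarTower.toAlgHom E P Ω
  have hg : Function.Injective g := by
    have h1 : (g : P → Ω) = algebraMap K Ω ∘ algebraMap P K := by
      funext p
      exact IsScalarTower.algebraMap_apply P K Ω p
    rw [h1]
    exact (algebraMap K Ω).injective.comp (IsFractionRing.injective P K)
  let x : Fin n → Ω := fun i => g (MvPolynomial.X i)
  refine ⟨Ω, inferInstance, inferInstance, inferInstance, x, ?_, ?_, ?_⟩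
  · -- countability
    have hP : Countable P := by
      rw [← Cardinal.mk_le_aleph0_iff]
      refine (MvPolynomial.cardinalMk_le_max (σ := Fin n) (R := E)).trans ?_
      simp only [max_le_iff, le_refl, and_true]
      exact ⟨Cardinal.mk_le_aleph0_iff.2 hE, (Cardinal.lt_aleph0_of_finite _).le⟩
    have h2 : Algebra.IsAlgebraic P Ω :=
      (IsFractionRing.comap_isAlgebraic_iff (A := P) (K := K) (C := Ω)).2 inferInstance
    have h3 : FaithfulSMul P Ω := (faithfulSMul_iff_algebraMap_injective P Ω).2 hg
    have h4 : Module.IsTorsionFree P Ω := inferInstance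
    rw [← Cardinal.mk_le_aleph0_iff]
    refine (Algebra.IsAlgebraic.cardinalMk_le_max P Ω).trans ?_
    exact max_le (Cardinal.mk_le_aleph0_iff.2 hP) le_rfl
  · exact (MvPolynomial.algebraicIndependent_X (Fin n) E).map' hg
  · -- algebraicity
    have hmemP : ∀ p : P, g p ∈ IntermediateField.adjoin E (Set.range x) := by
      intro p
      have h1 : g p ∈ Algebra.adjoin E (Set.range x) := by
        have h2 : g = MvPolynomial.aeval x := by
          apply MvPolynomial.algHom_ext
          intro i
          rw [MvPolynomial.aeval_X]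
        rw [Algebra.adjoin_range_eq_range_aeval, h2]
        exact ⟨p, rfl⟩
      exact IntermediateField.algebra_adjoin_le_adjoin E _ h1
    have hmem : ∀ a : K, algebraMap K Ω a ∈ IntermediateField.adjoin E (Set.range x) := by
      intro a
      obtain ⟨p, q, hq, rfl⟩ := IsFractionRing.div_surjective (A := P) a
      rw [map_div₀]
      exact div_mem (hmemP p) (hmemP q)
    let φ : K →+* IntermediateField.adjoin E (Set.range x) :=
      (algebraMap K Ω).codRestrict (IntermediateField.adjoin E (Set.range x)).toSubfield hmem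
    let _ : Algebra K (IntermediateField.adjoin E (Set.range x)) := φ.toAlgebra
    have : IsScalarTower K (IntermediateField.adjoin E (Set.range x)) Ω :=
      IsScalarTower.of_algebraMap_eq fun _ => rfl
    exact Algebra.IsAlgebraic.tower_top (K := K) (IntermediateField.adjoin E (Set.range x))

theorem exists_theta (E : Type) [Field E] [CharZero E] (Ω : Type) [Field Ω] [Algebra E Ω]
    [IsAlgClosed Ω] (f : E[X]) (hf : Irreducible f) :
    ∃ θ : Fin f.natDegree → Ω, Function.Injective θ ∧ ∀ k, aeval (θ k) f = 0 := by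
  classical
  have hcard := card_rootSet_eq_natDegree (K := Ω) hf.separable (IsAlgClosed.splits _)
  obtain ⟨e⟩ : Nonempty (Fin f.natDegree ≃ f.rootSet Ω) := by
    rw [← Fintype.card_eq, Fintype.card_fin, hcard]
  refine ⟨fun k => (e k : Ω), fun a b hab => e.injective (Subtype.ext hab), fun k => ?_⟩
  exact (mem_rootSet.1 (e k).2).2

/-- an irreducible polynomial divides a polynomial which vanishes at all of its roots -/
theorem dvd_of_roots (E : Type) [Field E] [CharZero E] (Ω : Type) [Field Ω] [Algebra E Ω]
    [IsAlgClosed Ω] (f : E[X]) (hmon : f.Monic) (θ : Fin f.natDegree → Ω)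
    (hθ : Function.Injective θ) (hr : ∀ k, aeval (θ k) f = 0) (g : Polynomial Ω)
    (hg : ∀ k, g.eval (θ k) = 0) : f.map (algebraMap E Ω) ∣ g := by
  have h1 : ∏ k : Fin f.natDegree, (X - Polynomial.C (θ k)) ∣ g := by
    apply Finset.prod_dvd_of_coprime
    · intro i _ j _ hij
      exact pairwise_coprime_X_sub_C hθ hij
    · intro k _
      exact dvd_iff_isRoot.2 (hg k)
  have h2 : ∏ k : Fin f.natDegree, (X - Polynomial.C (θ k)) ∣ f.map (algebraMap E Ω) := by
    apply Finset.prod_dvd_of_coprime
    · intro i _ j _ hij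
      exact pairwise_coprime_X_sub_C hθ hij
    · intro k _
      rw [dvd_iff_isRoot, IsRoot.def, eval_map_algebraMap]
      exact hr k
  have h3 : (∏ k : Fin f.natDegree, (X - Polynomial.C (θ k))).Monic := monic_prod_of_monic _ _
    fun k _ => monic_X_sub_C _
  have h4 : (∏ k : Fin f.natDegree, (X - Polynomial.C (θ k))).natDegree = f.natDegree := by
    rw [natDegree_prod_of_monic _ _ fun k _ => monic_X_sub_C _]
    simp
  have h5 : f.map (algebraMap E Ω) = ∏ k : Fin f.natDegree, (X - Polynomial.C (θ k)) := by
    apply eq_of_monic_of_dvd_of_natDegree_le h3 (hmon.map _) h2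
    rw [h4]
    exact natDegree_map_le
  rw [h5]
  exact h1

end STEPc

theorem t_STEPc : S_STEPc := by
  intro hSIGN hEMB E _ _ hE f hmon hirr
  classical
  obtain ⟨Ω, _, _, _, x, hC, hx, halg⟩ := STEPc.exists_Om E hE f.natDegree
  have : CharZero Ω := charZero_of_injective_algebraMap (algebraMap E Ω).injective
  obtain ⟨θ, hθ, hr⟩ := STEPc.exists_theta E Ω f hirr
  have hy : ∀ k, ∃ y : Ω, y ^ 2 = -1 - (∑ i, x i * θ k ^ (i : ℕ)) ^ 2 := fun k =>
    IsAlgClosed.exists_pow_nat_eq _ (by norm_num)
  choose y hy using hy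
  have hinj : Set.InjOn θ (Finset.univ : Finset (Fin f.natDegree)) := hθ.injOn
  obtain ⟨B, hB⟩ : ∃ B : Polynomial Ω, B = Lagrange.interpolate Finset.univ θ y := ⟨_, rfl⟩
  have hB1 : ∀ k, B.eval (θ k) = y k := fun k => by
    rw [hB]
    exact Lagrange.eval_interpolate_at_node y hinj (Finset.mem_univ k)
  have hB2 : B.degree < f.natDegree := by
    have h := Lagrange.degree_interpolate_lt y hinj
    rw [Finset.card_univ, Fintype.card_fin] at h
    rw [hB]
    exact h
  have hn : 0 < f.natDegree := hirr.natDegree_pos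
  have hB3 : B.natDegree < f.natDegree := by
    by_cases h0 : B = 0
    · rw [h0, natDegree_zero]
      exact hn
    · exact (natDegree_lt_iff_degree_lt h0).2 hB2
  set E' := IntermediateField.adjoin E (Set.range x ∪ Set.range B.coeff) with hE'
  have hxm : ∀ i, x i ∈ E' := fun i =>
    IntermediateField.subset_adjoin E _ (Or.inl ⟨i, rfl⟩)
  have hBm : ∀ i, B.coeff i ∈ E' := fun i =>
    IntermediateField.subset_adjoin E _ (Or.inr ⟨i, rfl⟩)
  refine ⟨{ E' := E', count := ?_, two := ?_, emb := ?_ }⟩
  · exact Subtype.countable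
  · refine ⟨∑ i : Fin f.natDegree, Polynomial.C (⟨x i, hxm i⟩ : E') * X ^ (i : ℕ),
      ∑ i ∈ Finset.range f.natDegree, monomial i (⟨B.coeff i, hBm i⟩ : E'), ?_⟩
    rw [← map_dvd_map' (algebraMap E' Ω), Polynomial.map_map, ← IsScalarTower.algebraMap_eq]
    apply STEPc.dvd_of_roots E Ω f hmon θ hθ hr
    intro k
    have e1 : (∑ i ∈ Finset.range f.natDegree, monomial i (⟨B.coeff i, hBm i⟩ : E')).map
        (algebraMap E' Ω) = B := by
      rw [Polynomial.map_sum]
      conv_rhs => rw [B.as_sum_range' f.natDegree hB3]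
      refine Finset.sum_congr rfl fun i _ => ?_
      rw [map_monomial]
      rfl
    have e2 : ((∑ i : Fin f.natDegree, Polynomial.C (⟨x i, hxm i⟩ : E') * X ^ (i : ℕ)).map
        (algebraMap E' Ω)).eval (θ k) = ∑ i, x i * θ k ^ (i : ℕ) := by
      rw [Polynomial.map_sum, eval_finsetSum]
      refine Finset.sum_congr rfl fun i _ => ?_
      rw [Polynomial.map_mul, Polynomial.map_pow, Polynomial.map_C, Polynomial.map_X, eval_mul, eval_C, eval_pow, eval_X]
      rfl
    rw [Polynomial.map_add, Polynomial.map_add, Polynomial.map_pow, Polynomial.map_pow,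
      Polynomial.map_one, e1, eval_add, eval_add, eval_pow, eval_pow, e2, hB1, hy, eval_one]
    ring
  · intro M _ _ a b ha hb hab hdvd
    exact hEMB hSIGN E Ω f.natDegree x θ y f B rfl hn hx halg hθ hr hy hB1 hB2 M a b ha hb hab hdvd

end Pool.Agent.N825.WP
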