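import Pool.Agent.N825.WP.Stm

set_option autoImplicit false

namespace Pool.Agent.N825.WP

open Polynomial

namespace STEPc2

theorem countable_mv (n : ℕ) (E : Type) [Field E] [Countable E] :
    Countable (MvPolynomial (Fin n) E) := by
  rw [← Cardinal.mk_le_aleph0_iff]
  refine MvPolynomial.cardinalMk_le_max.trans ?_
  simp [Cardinal.mk_le_aleph0]

theorem t_STEPc : S_STEPc := by
  intro hS hE E _ _ hc f hf hirr
  set n := f.natDegree with hn
  have hn0 : 0 < n := hirr.natDegree_pos
  let R := MvPolynomial (Fin n) E
  let K := FractionRing R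
  let C := AlgebraicClosure K
  have hinj : Function.Injective (algebraMap R C) := by
    rw [IsScalarTower.algebraMap_eq R K C]
    exact (algebraMap K C).injective.comp (IsFractionRing.injective R K)
  let x : Fin n → C := fun i => algebraMap R C (MvPolynomial.X i)
  have hx : AlgebraicIndependent E x := by
    have h1 : AlgebraicIndependent E (MvPolynomial.X : Fin n → R) :=
      MvPolynomial.algebraicIndependent_X (Fin n) E
    exact h1.map' (f := IsScalarTower.toAlgHom E R C) hinj
  have hcR : Countable R := countable_mv n E
  have hcK : Countable K := by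
    refine Function.Surjective.countable (α := R × R)
      (f := fun p => algebraMap R K p.1 / algebraMap R K p.2) ?_
    intro y
    obtain ⟨a, b, hb, rfl⟩ := IsFractionRing.div_surjective (A := R) y
    exact ⟨(a, b), rfl⟩
  have hcC : Countable C := by
    rw [← Cardinal.mk_le_aleph0_iff]
    refine (Algebra.IsAlgebraic.cardinalMk_le_max K C).trans ?_
    exact max_le Cardinal.mk_le_aleph0 le_rfl
  have hch : CharZero C := charZero_of_injective_algebraMap (algebraMap E C).injective
  have halg : Algebra.IsAlgebraic (IntermediateField.adjoin E (Set.range x)) C := by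
    set A := IntermediateField.adjoin E (Set.range x) with hA
    have hxA : ∀ i, x i ∈ A := fun i => IntermediateField.subset_adjoin _ _ ⟨i, rfl⟩
    have ha : ∀ a : R, algebraMap R C a ∈ A := by
      intro a
      induction a using MvPolynomial.induction_on with
      | C r =>
        have : algebraMap R C (MvPolynomial.C r) = algebraMap E C r := rfl
        rw [this]; exact A.algebraMap_mem r
      | add p q hp hq => rw [map_add]; exact A.add_mem hp hq
      | mul_X p i hp => rw [map_mul]; exact A.mul_mem hp (hxA i)
    have hmem : ∀ k : K, algebraMap K C k ∈ A.toSubfield := by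
      intro k
      obtain ⟨a, b, hb, rfl⟩ := IsFractionRing.div_surjective (A := R) k
      rw [map_div₀, ← IsScalarTower.algebraMap_apply, ← IsScalarTower.algebraMap_apply]
      exact A.div_mem (ha a) (ha b)
    let g : K →+* A := (algebraMap K C).codRestrict A.toSubfield hmem
    refine ⟨fun c => ?_⟩
    obtain ⟨p, hp, hpc⟩ := (Algebra.IsAlgebraic.isAlgebraic (R := K) c)
    refine ⟨p.map g, (Polynomial.map_ne_zero_iff g.injective).2 hp, ?_⟩
    rw [Polynomial.aeval_def, Polynomial.eval₂_map]
    exact hpc
  have hsep : (f.map (algebraMap E C)).Separable := hirr.separable.map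
  have hcard : Fintype.card (f.rootSet C) = n := by
    rw [Polynomial.card_rootSet_eq_natDegree hirr.separable (IsAlgClosed.splits _)]
  let e : Fin n ≃ f.rootSet C := (Fintype.equivFinOfCardEq hcard).symm
  let θ : Fin n → C := fun k => (e k : C)
  have hθ : Function.Injective θ := Subtype.val_injective.comp e.injective
  have hθf : ∀ k, aeval (θ k) f = 0 := fun k => (Polynomial.mem_rootSet.1 (e k).2).2
  have hy : ∀ k, ∃ y : C, y ^ 2 = -1 - (∑ i, x i * θ k ^ (i : ℕ)) ^ 2 := fun k =>
    IsAlgClosed.exists_pow_nat_eq _ (by norm_num)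
  choose y hy using hy
  let B : C[X] := Lagrange.interpolate Finset.univ θ y
  have hB : ∀ k, B.eval (θ k) = y k := fun k =>
    Lagrange.eval_interpolate_at_node y (hθ.injOn) (Finset.mem_univ k)
  have hBd : B.degree < n := by
    have := Lagrange.degree_interpolate_lt (s := Finset.univ) y (hθ.injOn)
    rw [Finset.card_univ, Fintype.card_fin] at this
    exact this
  let L := IntermediateField.adjoin E (Set.range x ∪ Set.range B.coeff)
  have hxL : ∀ i, x i ∈ L := fun i =>
    IntermediateField.subset_adjoin _ _ (Or.inl ⟨i, rfl⟩)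
  have hBL : ∀ j, B.coeff j ∈ L := fun j =>
    IntermediateField.subset_adjoin _ _ (Or.inr ⟨j, rfl⟩)
  refine ⟨{ E' := L, count := inferInstance, two := ?_, emb := ?_ }⟩
  · let A' : L[X] := ∑ i : Fin n, Polynomial.C ⟨x i, hxL i⟩ * Polynomial.X ^ (i : ℕ)
    let B' : L[X] := ∑ j ∈ Finset.range n, Polynomial.C ⟨B.coeff j, hBL j⟩ * Polynomial.X ^ j
    have hA' : A'.map (algebraMap L C) =
        ∑ i : Fin n, Polynomial.C (x i) * Polynomial.X ^ (i : ℕ) := by
      simp only [A', Polynomial.map_sum, Polynomial.map_mul, Polynomial.map_pow, Polynomial.map_X,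
        Polynomial.map_C]
      rfl
    have hB' : B'.map (algebraMap L C) = B := by
      simp only [B', Polynomial.map_sum, Polynomial.map_mul, Polynomial.map_pow, Polynomial.map_X,
        Polynomial.map_C]
      have hnd : B.natDegree < n := by
        by_cases h0 : B = 0
        · rw [h0]; simpa using hn0
        · exact (Polynomial.natDegree_lt_iff_degree_lt h0).2 hBd
      conv_rhs => rw [B.as_sum_range_C_mul_X_pow' hnd]
      rfl
    refine ⟨A', B', ?_⟩
    rw [← Polynomial.map_dvd_map' (algebraMap L C), Polynomial.map_map,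
      ← IsScalarTower.algebraMap_eq, Polynomial.map_add, Polynomial.map_add, Polynomial.map_pow,
      Polynomial.map_pow, hA', hB', Polynomial.map_one]
    set G : C[X] := (∑ i : Fin n, Polynomial.C (x i) * Polynomial.X ^ (i : ℕ)) ^ 2 + B ^ 2 + 1
      with hG
    by_cases hG0 : G = 0
    · rw [hG0]; exact dvd_zero _
    refine (IsAlgClosed.splits (f.map (algebraMap E C))).dvd_of_roots_le_roots
      (hf.map _).ne_zero ?_
    rw [Multiset.le_iff_subset (Polynomial.nodup_roots hsep)]
    intro r hr
    have hr' : aeval r f = 0 := by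
      rw [Polynomial.mem_roots (hf.map _).ne_zero, Polynomial.IsRoot.def,
        Polynomial.eval_map_algebraMap] at hr
      exact hr
    have hrs : r ∈ f.rootSet C := Polynomial.mem_rootSet.2 ⟨hf.ne_zero, hr'⟩
    obtain ⟨k, hk⟩ := e.surjective ⟨r, hrs⟩
    have hrk : θ k = r := by
      show ((e k : f.rootSet C) : C) = r
      rw [hk]
    rw [Polynomial.mem_roots hG0, Polynomial.IsRoot.def, hG, ← hrk, Polynomial.eval_add,
      Polynomial.eval_add, Polynomial.eval_pow, Polynomial.eval_pow, hB k, hy k,
      Polynomial.eval_finsetSum]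
    simp only [Polynomial.eval_mul, Polynomial.eval_C, Polynomial.eval_pow, Polynomial.eval_X,
      Polynomial.eval_one]
    ring
  · intro M _ _ a b ha hb hab hdvd
    exact hE hS E C n x θ y f B hn.symm hn0 hx halg hθ hθf hy hB hBd M a b ha hb hab hdvd

end STEPc2

end Pool.Agent.N825.WP
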