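import Pool.Agent.N825.WI.Def

set_option autoImplicit false

/-! A field with `w`-invariant at least three and Pythagoras number at most four: statements. -/

namespace Pool.Agent.N825.WP

open Pool.Agent.N825.WI Polynomial

/-- In every finite extension in which `-1` is a sum of squares, it is a sum of two squares. -/
def CondA (F : Type) [Field F] : Prop :=
  ∀ (L : Type) [Field L] [Algebra F L] [FiniteDimensional F L], IsSumSq (-1 : L) →
    ∃ a b : L, a ^ 2 + b ^ 2 = -1

/-- `-1` is a sum of squares modulo `f`. -/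
def Cert {R : Type} [CommRing R] (f : R[X]) : Prop :=
  ∃ (n : ℕ) (p : Fin n → R[X]), f ∣ 1 + ∑ i, p i ^ 2

/-- `-1` is a sum of two squares modulo `f`. -/
def Two {R : Type} [CommRing R] (f : R[X]) : Prop :=
  ∃ a b : R[X], f ∣ a ^ 2 + b ^ 2 + 1

/-- A sum of four squares. -/
def D4 {R : Type} [CommRing R] (x : R) : Prop := ∃ a b c d : R, x = a ^ 2 + b ^ 2 + c ^ 2 + d ^ 2

/-! ### Forms -/

/-- First condition on the element `α`. -/
def C2 (F : Type) [Field F] (α : F) : Prop :=
  ∀ (m : ℕ) (x y : F) (z : Fin m → F),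
    α * x ^ 2 - α * (3 * α + 3) * y ^ 2 + ∑ i, z i ^ 2 = 0 → x = 0 ∧ y = 0 ∧ z = 0

/-- Second condition on the element `α`. -/
def C3 (F : Type) [Field F] (α : F) : Prop :=
  ∀ (m : ℕ) (x y y' : F) (z : Fin m → F),
    -(3 * α + 3) * x ^ 2 + α * y ^ 2 + α * y' ^ 2 + ∑ i, z i ^ 2 = 0 →
      x = 0 ∧ y = 0 ∧ y' = 0 ∧ z = 0

/-- SPR: the theorem of Springer for diagonal forms. -/
def S_SPR : Prop :=
  ∀ (F L : Type) [Field F] [CharZero F] [Field L] (f : F →+* L), OddHom f →
    ∀ (n : ℕ) (c : Fin n → F), (∀ x : Fin n → F, ∑ i, c i * x i ^ 2 = 0 → x = 0) →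
      ∀ x : Fin n → L, ∑ i, f (c i) * x i ^ 2 = 0 → x = 0

/-- LAU0: values of an anisotropic diagonal form have even order. -/
def S_LAU0 : Prop :=
  ∀ (k : Type) [Field k] (n : ℕ) (c : Fin n → PowerSeries k),
    (∀ x : Fin n → k, ∑ i, PowerSeries.constantCoeff (c i) * x i ^ 2 = 0 → x = 0) →
    ∀ x : Fin n → LaurentSeries k, x ≠ 0 →
      (∑ i, (c i : LaurentSeries k) * x i ^ 2) ≠ 0 ∧
        Even (HahnSeries.order (∑ i, (c i : LaurentSeries k) * x i ^ 2))

/-- LAU1: the conditions for Laurent series, `α = X` and `α = X⁻¹`. -/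
def S_LAU1 : Prop :=
  S_LAU0 → ∀ (k : Type) [Field k], FReal k →
    (∀ x y z : k, 3 * x ^ 2 = y ^ 2 + z ^ 2 → x = 0 ∧ y = 0 ∧ z = 0) →
    FReal (LaurentSeries k) ∧ C2 (LaurentSeries k) (HahnSeries.single 1 1) ∧
      C3 (LaurentSeries k) (HahnSeries.single (-1) 1)

/-- LAU2: cardinality and embeddings. -/
def S_LAU2 : Prop :=
  ∀ (k : Type) [Field k], ¬ Countable (LaurentSeries k) ∧
    ∃ i₁ i₂ : RatFunc k →+* LaurentSeries k,
      i₁ RatFunc.X = HahnSeries.single 1 1 ∧ i₂ RatFunc.X = HahnSeries.single (-1) 1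

/-- REALS: the real numbers and the 3-adic numbers. -/
def S_REALS : Prop :=
  CondA ℝ ∧ CondA ℚ_[3] ∧
    ∀ x y z : ℚ_[3], 3 * x ^ 2 = y ^ 2 + z ^ 2 → x = 0 ∧ y = 0 ∧ z = 0

/-! ### Four squares -/

/-- P4a: a sum of squares is a sum of four squares. -/
def S_P4a : Prop :=
  ∀ (F : Type) [Field F] [CharZero F], FReal F → CondA F → ∀ c : F, IsSumSq c → D4 c

/-- P4b: an irreducible polynomial with nonreal residue field is a sum of four squares. -/
def S_P4b : Prop :=
  ∀ (F : Type) [Field F] [CharZero F], FReal F → CondA F → (∀ c : F, IsSumSq c → D4 c) →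
    ∀ f : F[X], f.Monic → Irreducible f → Cert f → D4 (algebraMap F[X] (RatFunc F) f)

/-- P4c: the general case. -/
def S_P4c : Prop :=
  ∀ (F : Type) [Field F] [CharZero F], FReal F → (∀ c : F, IsSumSq c → D4 c) →
    (∀ f : F[X], f.Monic → Irreducible f → Cert f → D4 (algebraMap F[X] (RatFunc F) f)) →
    ∀ x : RatFunc F, IsSumSq x → D4 x

/-! ### Laurent series fields -/

/-- HENa: a finite extension of `k⟦X⟧` is henselian at `X`. -/
def S_HENa : Prop :=
  ∀ (k : Type) [Field k] (B : Type) [CommRing B] [IsDomain B] [Algebra (PowerSeries k) B]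
    [Module.Finite (PowerSeries k) B], Function.Injective (algebraMap (PowerSeries k) B) →
    HenselianRing B (Ideal.span {algebraMap (PowerSeries k) B PowerSeries.X})

/-- HENb: it is local if it is a Dedekind domain. -/
def S_HENb : Prop :=
  S_HENa → ∀ (k : Type) [Field k] (B : Type) [CommRing B] [IsDedekindDomain B]
    [Algebra (PowerSeries k) B] [Module.Finite (PowerSeries k) B],
    Function.Injective (algebraMap (PowerSeries k) B) → IsLocalRing B

/-- HENc: square roots. -/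
def S_HENc : Prop :=
  ∀ (B : Type) [CommRing B] [IsDomain B] [IsLocalRing B] (x : B), IsUnit (2 : B) →
    HenselianRing B (Ideal.span {x}) → (∃ N : ℕ, IsLocalRing.maximalIdeal B ^ N ≤ Ideal.span {x}) →
    ∀ y b : B, b ∉ IsLocalRing.maximalIdeal B → b ^ 2 - y ∈ IsLocalRing.maximalIdeal B →
      ∃ c : B, c ^ 2 = y

/-- HEN1: the integral closure `B` of `k⟦X⟧` in a finite extension of `k((X))` is a local ring
which is henselian, and its residue field is finite over `k`. -/
def S_HEN1 : Prop :=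
  S_HENa → S_HENb → S_HENc →
  ∀ (k : Type) [Field k] [CharZero k] (L : Type) [Field L] [Algebra (LaurentSeries k) L]
    [FiniteDimensional (LaurentSeries k) L],
    ∃ (B : Subring L) (κ : Type) (_ : Field κ) (_ : Algebra k κ) (res : B →+* κ),
      FiniteDimensional k κ ∧ Function.Surjective res ∧
      (∀ x : L, x ≠ 0 → x ∈ B ∨ x⁻¹ ∈ B) ∧
      ∀ y b : B, res b ≠ 0 → res (b ^ 2) = res y → ∃ c : B, c ^ 2 = y

/-- HEN2: conclusion. -/
def S_HEN2 : Prop :=
  S_HENa → S_HENb → S_HENc → S_HEN1 →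
    ∀ (k : Type) [Field k] [CharZero k], CondA k → CondA (LaurentSeries k)

/-! ### Amalgamation -/

/-- GEN: generic elements. -/
def S_GEN : Prop :=
  ∀ (E M : Type) [Field E] [Field M] [Algebra E M], Countable E → ¬ Countable M →
    ∀ n : ℕ, ∃ m : Fin n → M, AlgebraicIndependent E m

/-- TR: `n` elements on which `n` algebraically independent elements depend are independent. -/
def S_TR : Prop :=
  ∀ (E C : Type) [Field E] [Field C] [Algebra E C] (n : ℕ) (m x : Fin n → C),
    AlgebraicIndependent E m →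
    (∀ k, IsAlgebraic (IntermediateField.adjoin E (Set.range x)) (m k)) →
    AlgebraicIndependent E x

/-- STEPa: `-1` is a sum of two squares modulo a separable polynomial. -/
def S_STEPa : Prop :=
  ∀ (M : Type) [Field M] [CharZero M], CondA M → ∀ f : M[X], f.Monic → f.Separable → Cert f → Two f

/-- VDM: the values of the generic polynomial at algebraic elements are independent. -/
def S_VDM : Prop :=
  S_TR → ∀ (E C : Type) [Field E] [Field C] [Algebra E C] (n : ℕ) (x θ : Fin n → C),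
    Function.Injective θ →
    ((∀ k, IsAlgebraic E (θ k)) → AlgebraicIndependent E x →
      AlgebraicIndependent E (fun k => ∑ i, x i * θ k ^ (i : ℕ))) ∧
    ∀ K : Subfield C, (∀ k, θ k ∈ K) → (∀ k, ∑ i, x i * θ k ^ (i : ℕ) ∈ K) → ∀ i, x i ∈ K

/-- STEPb: generic representations. -/
def S_STEPb : Prop :=
  S_GEN → S_TR → S_VDM → ∀ (E M : Type) [Field E] [Field M] [CharZero M] [Algebra E M], Countable E →
    ¬ Countable M → ∀ f : E[X], f.Monic → Irreducible f → Two (f.map (algebraMap E M)) →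
    ∃ a b : M[X], a.natDegree < f.natDegree ∧ b.natDegree < f.natDegree ∧
      AlgebraicIndependent E (fun k : Fin f.natDegree => a.coeff k) ∧
      f.map (algebraMap E M) ∣ a ^ 2 + b ^ 2 + 1

/-- NSQ: `-1 - l ^ 2` is not a square. -/
def S_NSQ : Prop :=
  ∀ (D C : Type) [Field D] [Field C] [CharZero D] [Algebra D C] (l : C), Transcendental D l →
    ∀ y : C, y ^ 2 = -1 - l ^ 2 → y ∉ IntermediateField.adjoin D {l}

/-- SIGN1: changing the sign of one of the square roots. -/
def S_SIGN1 : Prop :=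
  S_TR → S_VDM → S_NSQ → ∀ (E C : Type) [Field E] [Field C] [CharZero C] [Algebra E C] [IsAlgClosed C] (n : ℕ)
    (x θ y : Fin n → C), AlgebraicIndependent E x →
    Algebra.IsAlgebraic (IntermediateField.adjoin E (Set.range x)) C →
    Function.Injective θ → (∀ k, IsAlgebraic E (θ k)) →
    (∀ k, y k ^ 2 = -1 - (∑ i, x i * θ k ^ (i : ℕ)) ^ 2) → ∀ k₀ : Fin n,
      ∃ σ : C ≃ₐ[E] C, (∀ i, σ (x i) = x i) ∧ (∀ k, σ (θ k) = θ k) ∧ σ (y k₀) = -y k₀ ∧
        ∀ k, k ≠ k₀ → σ (y k) = y k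

/-- SIGN: arbitrary signs. -/
def S_SIGN : Prop :=
  ∀ (E C : Type) [Field E] [Field C] [CharZero C] [Algebra E C] [IsAlgClosed C] (n : ℕ)
    (x θ y : Fin n → C), AlgebraicIndependent E x →
    Algebra.IsAlgebraic (IntermediateField.adjoin E (Set.range x)) C →
    Function.Injective θ → (∀ k, IsAlgebraic E (θ k)) →
    (∀ k, y k ^ 2 = -1 - (∑ i, x i * θ k ^ (i : ℕ)) ^ 2) →
    ∀ ε : Fin n → C, (∀ k, ε k = 1 ∨ ε k = -1) →
      ∃ σ : C ≃ₐ[E] C, (∀ i, σ (x i) = x i) ∧ (∀ k, σ (θ k) = θ k) ∧ ∀ k, σ (y k) = ε k * y k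

/-- The universal field. -/
structure Univ (E : Type) [Field E] (f : E[X]) where
  E' : Type
  [field : Field E']
  [alg : Algebra E E']
  count : Countable E'
  two : Two (f.map (algebraMap E E'))
  emb : ∀ (M : Type) [Field M] [Algebra E M] (a b : M[X]), a.natDegree < f.natDegree →
    b.natDegree < f.natDegree →
    AlgebraicIndependent E (fun k : Fin f.natDegree => a.coeff k) →
    f.map (algebraMap E M) ∣ a ^ 2 + b ^ 2 + 1 → Nonempty (E' →ₐ[E] M)

/-- EMB: the embedding of the universal field. -/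
def S_EMB : Prop :=
  S_SIGN → ∀ (E C : Type) [Field E] [Field C] [CharZero C] [Algebra E C] [IsAlgClosed C] (n : ℕ)
    (x θ y : Fin n → C) (f : E[X]) (B : C[X]), f.natDegree = n → 0 < n →
    AlgebraicIndependent E x →
    Algebra.IsAlgebraic (IntermediateField.adjoin E (Set.range x)) C →
    Function.Injective θ → (∀ k, aeval (θ k) f = 0) →
    (∀ k, y k ^ 2 = -1 - (∑ i, x i * θ k ^ (i : ℕ)) ^ 2) →
    (∀ k, B.eval (θ k) = y k) → B.degree < n →
    ∀ (M : Type) [Field M] [Algebra E M] (a b : M[X]), a.natDegree < n → b.natDegree < n →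
      AlgebraicIndependent E (fun k : Fin n => a.coeff k) →
      f.map (algebraMap E M) ∣ a ^ 2 + b ^ 2 + 1 →
      Nonempty (IntermediateField.adjoin E (Set.range x ∪ Set.range B.coeff) →ₐ[E] M)

/-- STEPc: the field generated by a generic representation. -/
def S_STEPc : Prop :=
  S_SIGN → S_EMB → ∀ (E : Type) [Field E] [CharZero E], Countable E → ∀ f : E[X], f.Monic →
    Irreducible f → Nonempty (Univ E f)

/-- STEP: one polynomial. -/
def S_STEP : Prop :=
  ∀ (M₁ M₂ : Type) [Field M₁] [Field M₂] [CharZero M₁] [CharZero M₂], CondA M₁ → CondA M₂ →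
    ¬ Countable M₁ → ¬ Countable M₂ → ∀ (E : Type) [Field E], Countable E →
    ∀ (i₁ : E →+* M₁) (i₂ : E →+* M₂) (f : E[X]), f.Monic → Irreducible f → Cert f →
    ∃ (E' : Type) (_ : Field E') (j₁ : E' →+* M₁) (j₂ : E' →+* M₂) (i : E →+* E'),
      Countable E' ∧ j₁.comp i = i₁ ∧ j₂.comp i = i₂ ∧ Two (f.map i)

/-- STEPR: one polynomial, for subrings of the product. -/
def S_STEPR : Prop :=
  ∀ (M₁ M₂ : Type) [Field M₁] [Field M₂] [CharZero M₁] [CharZero M₂], CondA M₁ → CondA M₂ →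
    ¬ Countable M₁ → ¬ Countable M₂ → ∀ S : Subring (M₁ × M₂), IsField S → Countable S →
    ∀ f : S[X], f.Monic → Irreducible f → Cert f →
    ∃ (S' : Subring (M₁ × M₂)) (h : S ≤ S'), IsField S' ∧ Countable S' ∧
      Two (f.map (Subring.inclusion h))

/-- UNI1: all polynomials over `S`. -/
def S_UNI1 : Prop :=
  S_STEPR →
  ∀ (M₁ M₂ : Type) [Field M₁] [Field M₂] [CharZero M₁] [CharZero M₂], CondA M₁ → CondA M₂ →
    ¬ Countable M₁ → ¬ Countable M₂ → ∀ S : Subring (M₁ × M₂), IsField S → Countable S →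
    ∃ (S' : Subring (M₁ × M₂)) (h : S ≤ S'), IsField S' ∧ Countable S' ∧
      ∀ f : S[X], f.Monic → Cert f → Irreducible (f.map (Subring.inclusion h)) →
        Two (f.map (Subring.inclusion h))

/-- UNI2: the union of the chain. -/
def S_UNI2 : Prop :=
  S_UNI1 → S_STEPR →
  ∀ (M₁ M₂ : Type) [Field M₁] [Field M₂] [CharZero M₁] [CharZero M₂], CondA M₁ → CondA M₂ →
    ¬ Countable M₁ → ¬ Countable M₂ → ∀ S : Subring (M₁ × M₂), IsField S → Countable S →
    ∃ (S' : Subring (M₁ × M₂)), S ≤ S' ∧ IsField S' ∧ Countable S' ∧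
      ∀ f : S'[X], f.Monic → Irreducible f → Cert f → Two f

/-- PRIM: the criterion for condition (A) by polynomials. -/
def S_PRIM : Prop :=
  ∀ (F : Type) [Field F] [CharZero F],
    (∀ f : F[X], f.Monic → Irreducible f → Cert f → Two f) → CondA F

end Pool.Agent.N825.WP
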