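import Pool.Agent.N825.WP.Stm

/-!
# WP/TR (helper787, project WP of helper825): `n` elements on which `n` algebraically independent elements
# depend are algebraically independent
-/

set_option autoImplicit false

namespace Pool.Agent.N825.WP

theorem t_TR : S_TR := by
  intro E C _ _ _ n m x hm hx
  have hI : (AlgebraicIndependent.matroid E C).Indep (Set.range m) :=
    AlgebraicIndependent.matroid_indep_iff.2 hm.to_subtype_range
  have hsub : Set.range m ⊆ (AlgebraicIndependent.matroid E C).closure (Set.range x) := by
    rw [AlgebraicIndependent.matroid_closure_eq]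
    rintro _ ⟨k, rfl⟩
    rw [SetLike.mem_coe, Subalgebra.mem_algebraicClosure]
    exact IntermediateField.isAlgebraic_adjoin_iff.1 (hx k)
  have h1 : (Set.range m).encard = (n : ℕ∞) := by
    rw [← Set.image_univ, hm.injective.encard_image, Set.encard_univ]
    simp
  have h2 : (Set.range x).encard ≤ (n : ℕ∞) := by
    rw [← Set.image_univ]
    refine (Set.encard_image_le _ _).trans ?_
    rw [Set.encard_univ]
    simp
  have h3 : (n : ℕ∞) ≤ (AlgebraicIndependent.matroid E C).eRk (Set.range x) := by
    rw [← h1, ← Matroid.eRk_closure_eq]
    exact hI.encard_le_eRk_of_subset hsub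
  have hfin : (Set.range x).Finite := Set.finite_range x
  have hX : (AlgebraicIndependent.matroid E C).Indep (Set.range x) := by
    rw [Matroid.indep_iff_eRk_eq_encard_of_finite hfin]
    exact le_antisymm (Matroid.eRk_le_encard _ _) (h2.trans h3)
  have h4 : (n : ℕ∞) ≤ (Set.range x).encard := h3.trans (Matroid.eRk_le_encard _ _)
  have hinj : Function.Injective x := by
    have h5 : (Set.univ : Set (Fin n)).encard ≤ (x '' Set.univ).encard := by
      rw [Set.image_univ, Set.encard_univ]
      simpa using h4
    have h6 := (Set.finite_univ (α := Fin n)).injOn_of_encard_image_eq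
      (le_antisymm (Set.encard_image_le _ _) h5)
    exact Set.injOn_univ.1 h6
  exact AlgebraicIndependent.of_subtype_range hinj (AlgebraicIndependent.matroid_indep_iff.1 hX)

end Pool.Agent.N825.WP
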