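import Pool.Agent.N825.WP.Stm

/-! WP/UNI1 (helper833): all polynomials over a countable subring which is a field. -/

set_option autoImplicit false

namespace Pool.Agent.N825.WP

open Pool.Agent.N825.WI Polynomial

namespace UNI1

theorem cert_map {R R' : Type} [CommRing R] [CommRing R'] (φ : R →+* R') {f : R[X]}
    (h : Cert f) : Cert (f.map φ) := by
  obtain ⟨n, p, hp⟩ := h
  refine ⟨n, fun i => (p i).map φ, ?_⟩
  have := Polynomial.map_dvd φ hp
  simpa [Polynomial.map_add, Polynomial.map_sum, Polynomial.map_pow] using this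

theorem two_map {R R' : Type} [CommRing R] [CommRing R'] (φ : R →+* R') {f : R[X]}
    (h : Two f) : Two (f.map φ) := by
  obtain ⟨a, b, hp⟩ := h
  refine ⟨a.map φ, b.map φ, ?_⟩
  have := Polynomial.map_dvd φ hp
  simpa [Polynomial.map_add, Polynomial.map_pow] using this

theorem countable_poly (R : Type) [CommRing R] [Countable R] : Countable R[X] := by
  refine Function.Surjective.countable
    (f := fun c : (Σ n : ℕ, (Fin n → R)) => ∑ i : Fin c.1, C (c.2 i) * X ^ (i : ℕ)) ?_
  intro p
  refine ⟨⟨p.natDegree + 1, fun i => p.coeff i⟩, ?_⟩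
  show ∑ i : Fin (p.natDegree + 1), C (p.coeff i) * X ^ (i : ℕ) = p
  rw [Fin.sum_univ_eq_sum_range (fun i => C (p.coeff i) * X ^ i) (p.natDegree + 1)]
  exact p.as_sum_range_C_mul_X_pow.symm

end UNI1

open UNI1

theorem t_UNI1 : S_UNI1 := by
  intro hR M₁ M₂ _ _ _ _ hA₁ hA₂ hc₁ hc₂ S hS hSc
  classical
  have := countable_poly S
  obtain ⟨e, he⟩ := exists_surjective_nat S[X]
  have step0 : ∀ (t : {T : Subring (M₁ × M₂) // S ≤ T ∧ IsField T ∧ Countable T}) (k : ℕ),
      ∃ t' : {T : Subring (M₁ × M₂) // S ≤ T ∧ IsField T ∧ Countable T}, t.1 ≤ t'.1 ∧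
        ((e k).Monic → Cert (e k) → Irreducible ((e k).map (Subring.inclusion t.2.1)) →
          Two ((e k).map (Subring.inclusion t'.2.1))) := by
    intro t k
    by_cases h : (e k).Monic ∧ Cert (e k) ∧ Irreducible ((e k).map (Subring.inclusion t.2.1))
    · obtain ⟨h1, h2, h3⟩ := h
      obtain ⟨S', hle, hf, hcn, htwo⟩ := hR M₁ M₂ hA₁ hA₂ hc₁ hc₂ t.1 t.2.2.1 t.2.2.2
        ((e k).map (Subring.inclusion t.2.1)) (h1.map _) h3 (cert_map _ h2)
      refine ⟨⟨S', t.2.1.trans hle, hf, hcn⟩, hle, fun _ _ _ => ?_⟩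
      rw [Polynomial.map_map] at htwo
      exact htwo
    · refine ⟨t, le_rfl, fun h1 h2 h3 => absurd ⟨h1, h2, h3⟩ h⟩
  choose step hle htwo using step0
  obtain ⟨s, hs⟩ : ∃ s : ℕ → {T : Subring (M₁ × M₂) // S ≤ T ∧ IsField T ∧ Countable T},
      ∀ k, s (k + 1) = step (s k) k :=
    ⟨fun n => Nat.rec ⟨S, le_rfl, hS, hSc⟩ (fun k t => step t k) n, fun k => rfl⟩
  have hmono : Monotone (fun k => (s k).1) := by
    refine monotone_nat_of_le_succ fun k => ?_
    show (s k).1 ≤ (s (k + 1)).1
    rw [hs]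
    exact hle _ _
  have hdir : Directed (· ≤ ·) (fun k => (s k).1) := hmono.directed_le
  have hmem : ∀ x : M₁ × M₂, x ∈ (⨆ k, (s k).1) ↔ ∃ k, x ∈ (s k).1 := fun x =>
    Subring.mem_iSup_of_directed hdir
  have hsk : ∀ k, (s k).1 ≤ ⨆ k, (s k).1 := fun k => le_iSup (fun k => (s k).1) k
  refine ⟨⨆ k, (s k).1, (s 0).2.1.trans (hsk 0), ?_, ?_, ?_⟩
  · refine ⟨⟨0, 1, ?_⟩, fun x y => mul_comm x y, ?_⟩
    · intro h
      have := congrArg Subtype.val h
      simp at this
    · rintro ⟨x, hx⟩ hne
      obtain ⟨k, hk⟩ := (hmem x).1 hx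
      have hne' : (⟨x, hk⟩ : (s k).1) ≠ 0 := by
        intro h
        apply hne
        have := congrArg Subtype.val h
        exact Subtype.ext this
      obtain ⟨y, hy⟩ := (s k).2.2.1.mul_inv_cancel hne'
      refine ⟨⟨y.1, hsk k y.2⟩, ?_⟩
      have := congrArg Subtype.val hy
      exact Subtype.ext this
  · have : ((⨆ k, (s k).1 : Subring (M₁ × M₂)) : Set (M₁ × M₂)).Countable := by
      have e1 : ((⨆ k, (s k).1 : Subring (M₁ × M₂)) : Set (M₁ × M₂)) =
          ⋃ k, ((s k).1 : Set (M₁ × M₂)) := by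
        ext x
        rw [SetLike.mem_coe, hmem, Set.mem_iUnion]
        rfl
      rw [e1]
      refine Set.countable_iUnion fun k => ?_
      have := (s k).2.2.2
      exact Set.to_countable _
    exact this.to_subtype
  · intro f h1 h2 h3
    obtain ⟨k, rfl⟩ := he f
    have hf1 : IsField (⨆ k, (s k).1 : Subring (M₁ × M₂)) := by
      refine ⟨⟨0, 1, ?_⟩, fun x y => mul_comm x y, ?_⟩
      · intro h
        have := congrArg Subtype.val h
        simp at this
      · rintro ⟨x, hx⟩ hne
        obtain ⟨k, hk⟩ := (hmem x).1 hx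
        have hne' : (⟨x, hk⟩ : (s k).1) ≠ 0 := by
          intro h
          apply hne
          have := congrArg Subtype.val h
          exact Subtype.ext this
        obtain ⟨y, hy⟩ := (s k).2.2.1.mul_inv_cancel hne'
        refine ⟨⟨y.1, hsk k y.2⟩, ?_⟩
        have := congrArg Subtype.val hy
        exact Subtype.ext this
    have : IsDomain (⨆ k, (s k).1 : Subring (M₁ × M₂)) := hf1.isDomain
    have : IsDomain (s k).1 := (s k).2.2.1.isDomain
    have h4 : Irreducible ((e k).map (Subring.inclusion (s k).2.1)) := by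
      refine Polynomial.Monic.irreducible_of_irreducible_map (Subring.inclusion (hsk k)) _
        (h1.map _) ?_
      rw [Polynomial.map_map]
      exact h3
    have h5 := htwo (s k) k h1 h2 h4
    have h6 : Two ((e k).map (Subring.inclusion (s (k + 1)).2.1)) := by
      have : ∀ t t' : {T : Subring (M₁ × M₂) // S ≤ T ∧ IsField T ∧ Countable T}, t = t' →
          Two ((e k).map (Subring.inclusion t.2.1)) →
          Two ((e k).map (Subring.inclusion t'.2.1)) := by
        rintro t t' rfl h
        exact h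
      exact this _ _ (hs k).symm h5
    have h7 := two_map (Subring.inclusion (hsk (k + 1))) h6
    rw [Polynomial.map_map] at h7
    exact h7

end Pool.Agent.N825.WP
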