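import Pool.Agent.N825.WP.Stm

set_option autoImplicit false

/-! The union of the chain (by helper374). -/

namespace Pool.Agent.N825.WP.UNI2

open Polynomial Filter

section chain

variable {R : Type} [CommRing R] (T : ℕ → Subring R) (hT : Monotone T)

include hT in
theorem mem_sup {x : R} : x ∈ (⨆ m, T m) ↔ ∃ m, x ∈ T m :=
  Subring.mem_iSup_of_directed hT.directed_le

include hT in
theorem isField_sup [Nontrivial R] (hF : ∀ m, IsField (T m)) : IsField ↥(⨆ m, T m) := by
  refine ⟨⟨0, 1, fun h => zero_ne_one (congrArg Subtype.val h)⟩, mul_comm, ?_⟩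
  rintro ⟨a, ha⟩ hne
  obtain ⟨m, hm⟩ := (mem_sup T hT).1 ha
  obtain ⟨b, hb⟩ := (hF m).mul_inv_cancel (a := ⟨a, hm⟩) (fun h => hne (by
    have h1 : a = 0 := congrArg (fun x : T m => (x : R)) h
    exact Subtype.ext h1))
  have h2 : a * (b : R) = 1 := congrArg (fun x : T m => (x : R)) hb
  exact ⟨⟨b, (mem_sup T hT).2 ⟨m, b.2⟩⟩, Subtype.ext h2⟩

include hT in
theorem countable_sup (hc : ∀ m, Countable (T m)) : Countable ↥(⨆ m, T m) := by
  have h1 : ((⨆ m, T m : Subring R) : Set R) = ⋃ m, (T m : Set R) := by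
    ext x
    rw [SetLike.mem_coe, mem_sup T hT, Set.mem_iUnion]
    rfl
  have h2 : (⋃ m, (T m : Set R)).Countable := Set.countable_iUnion fun m => (hc m).to_set
  rw [← h1] at h2
  exact h2.to_subtype

include hT in
theorem lift_ev (g : (↥(⨆ m, T m))[X]) : ∀ᶠ m in atTop,
    ∃ g0 : (T m)[X], g0.map (Subring.inclusion (le_iSup T m)) = g := by
  have h1 : ∀ n ∈ g.support, ∀ᶠ m in atTop, ((g.coeff n : ↥(⨆ m, T m)) : R) ∈ T m := by
    intro n _
    obtain ⟨m, hm⟩ := (mem_sup T hT).1 (g.coeff n).2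
    filter_upwards [eventually_ge_atTop m] with m' hm'
    exact hT hm' hm
  filter_upwards [(Filter.eventually_all_finset _).2 h1] with m hm
  have h2 : g ∈ lifts (Subring.inclusion (le_iSup T m)) := by
    rw [lifts_iff_coeff_lifts]
    intro n
    by_cases hn : n ∈ g.support
    · exact ⟨⟨_, hm n hn⟩, rfl⟩
    · rw [notMem_support_iff.1 hn]
      exact ⟨0, map_zero _⟩
  exact (mem_lifts _).1 h2

theorem cert_lift {A B : Type} [CommRing A] [CommRing B] (φ : A →+* B)
    (hφ : Function.Injective φ) {f0 q0 : A[X]} {n : ℕ} {p0 : Fin n → A[X]}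
    (h : (1 + ∑ i, (p0 i).map φ ^ 2 : B[X]) = f0.map φ * q0.map φ) : Cert f0 := by
  refine ⟨n, p0, q0, Polynomial.map_injective φ hφ ?_⟩
  rw [Polynomial.map_add, Polynomial.map_one, Polynomial.map_sum, Polynomial.map_mul, ← h]
  simp only [Polynomial.map_pow]

theorem two_map {A B : Type} [CommRing A] [CommRing B] (φ : A →+* B) {f : A[X]} (h : Two f) :
    Two (f.map φ) := by
  obtain ⟨a, b, hab⟩ := h
  refine ⟨a.map φ, b.map φ, ?_⟩
  have := Polynomial.map_dvd φ hab
  simpa using this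

include hT in
theorem union [Nontrivial R] (hF : ∀ m, IsField (T m))
    (hp : ∀ m (h : T m ≤ T (m + 1)) (f : (T m)[X]), f.Monic → Cert f →
      Irreducible (f.map (Subring.inclusion h)) → Two (f.map (Subring.inclusion h)))
    (f : (↥(⨆ m, T m))[X]) (hm : f.Monic) (hirr : Irreducible f) (hc : Cert f) : Two f := by
  obtain ⟨n, p, q, hq⟩ := hc
  have h1 := (lift_ev T hT f).and ((lift_ev T hT q).and
    (eventually_all.2 fun i => lift_ev T hT (p i)))
  obtain ⟨m, ⟨f0, hf0⟩, ⟨q0, hq0⟩, h3⟩ := h1.exists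
  choose p0 hp0 using h3
  have hinj := Subring.inclusion_injective (le_iSup T m)
  have hf0m : f0.Monic := monic_of_injective hinj (by rw [hf0]; exact hm)
  have hle : T m ≤ T (m + 1) := hT (Nat.le_succ m)
  have hcomp : (Subring.inclusion (le_iSup T (m + 1))).comp (Subring.inclusion hle) =
      Subring.inclusion (le_iSup T m) := rfl
  have hff : (f0.map (Subring.inclusion hle)).map (Subring.inclusion (le_iSup T (m + 1))) = f := by
    rw [Polynomial.map_map, hcomp, hf0]
  have := (hF (m + 1)).isDomain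
  have := (isField_sup T hT hF).isDomain
  have h4 : Irreducible (f0.map (Subring.inclusion hle)) := by
    refine Polynomial.Monic.irreducible_of_irreducible_map
      (Subring.inclusion (le_iSup T (m + 1))) _ (hf0m.map _) ?_
    rw [hff]
    exact hirr
  have h5 := two_map (Subring.inclusion (le_iSup T (m + 1))) (hp m hle f0 hf0m
    (cert_lift (Subring.inclusion (le_iSup T m)) hinj (q0 := q0) (p0 := p0) (by
      simp only [hp0]
      rw [hq, hf0, hq0])) h4)
  rwa [hff] at h5

end chain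

end Pool.Agent.N825.WP.UNI2

namespace Pool.Agent.N825.WP

open Polynomial

/-- **The union of the chain.** -/
theorem t_UNI2 : S_UNI2 := by
  intro hU hS M₁ M₂ _ _ _ _ hA1 hA2 hn1 hn2 S hSF hSc
  have hnext := hU hS M₁ M₂ hA1 hA2 hn1 hn2
  let P : Type := {T : Subring (M₁ × M₂) // IsField T ∧ Countable T}
  have hstep : ∀ T : P, ∃ T' : P, ∃ h : T.1 ≤ T'.1, ∀ f : T.1[X], f.Monic → Cert f →
      Irreducible (f.map (Subring.inclusion h)) → Two (f.map (Subring.inclusion h)) := by
    rintro ⟨T, hT1, hT2⟩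
    obtain ⟨T', h, h1, h2, h3⟩ := hnext T hT1 hT2
    exact ⟨⟨T', h1, h2⟩, h, h3⟩
  choose next hle hnx using hstep
  let T : ℕ → P := fun m => Nat.rec ⟨S, hSF, hSc⟩ (fun _ t => next t) m
  have hsucc : ∀ m, T (m + 1) = next (T m) := fun m => rfl
  have hmono : Monotone (fun m => (T m).1) := monotone_nat_of_le_succ fun m => by
    rw [hsucc]
    exact hle (T m)
  refine ⟨⨆ m, (T m).1, le_iSup (fun m => (T m).1) 0,
    UNI2.isField_sup _ hmono fun m => (T m).2.1, UNI2.countable_sup _ hmono fun m => (T m).2.2, ?_⟩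
  intro f h1 h2 h3
  exact UNI2.union (fun m => (T m).1) hmono (fun m => (T m).2.1)
    (fun m h g hg1 hg2 hg3 => hnx (T m) g hg1 hg2 hg3) f h1 h2 h3

end Pool.Agent.N825.WP
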