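import Pool.Agent.N825.WP.Stm

set_option autoImplicit false

/-! VDM: power sums in conjugate bases. -/

namespace Pool.Agent.N825.WP

namespace VDM

theorem second (C : Type) [Field C] (n : ℕ) (x θ : Fin n → C) (hθ : Function.Injective θ)
    (K : Subfield C) (hK : ∀ k, θ k ∈ K) (hl : ∀ k, ∑ i, x i * θ k ^ (i:ℕ) ∈ K) :
    ∀ i, x i ∈ K := by
  classical
  set θ' : Fin n → K := fun k => ⟨θ k, hK k⟩ with hθ'
  set l' : Fin n → K := fun k => ⟨∑ i, x i * θ k ^ (i:ℕ), hl k⟩ with hl'
  have hinj' : Function.Injective θ' := by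
    intro a b h
    apply hθ
    exact congrArg Subtype.val h
  have hdet : (Matrix.vandermonde θ').det ≠ 0 := Matrix.det_vandermonde_ne_zero_iff.mpr hinj'
  have hdetC : (Matrix.vandermonde θ).det ≠ 0 := Matrix.det_vandermonde_ne_zero_iff.mpr hθ
  have hu : IsUnit (Matrix.vandermonde θ').det := isUnit_iff_ne_zero.mpr hdet
  set x' : Fin n → K := (Matrix.vandermonde θ')⁻¹.mulVec l' with hx'
  have h1 : (Matrix.vandermonde θ').mulVec x' = l' := by
    rw [hx', Matrix.mulVec_mulVec, Matrix.mul_nonsing_inv _ hu, Matrix.one_mulVec]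
  have h2 : (Matrix.vandermonde θ).mulVec (fun i => (x' i : C)) =
      (Matrix.vandermonde θ).mulVec x := by
    funext k
    have h3 := congrArg Subtype.val (congrFun h1 k)
    simp only [Matrix.mulVec, dotProduct, Matrix.vandermonde_apply, hl', hθ'] at h3 ⊢
    rw [AddSubmonoidClass.coe_finsetSum] at h3
    simp only [MulMemClass.coe_mul, SubmonoidClass.coe_pow] at h3
    rw [h3]
    exact Finset.sum_congr rfl (fun i _ => mul_comm _ _)
  have h4 := Matrix.mulVec_injective_iff_isUnit.mpr
    ((Matrix.isUnit_iff_isUnit_det _).mpr (isUnit_iff_ne_zero.mpr hdetC)) h2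
  intro i
  have h5 := congrFun h4 i
  rw [← h5]
  exact (x' i).2

end VDM

theorem t_VDM : S_VDM := by
  intro hTR E C _ _ _ n x θ hθ
  refine ⟨fun hal hx => ?_, fun K hK hl => VDM.second C n x θ hθ K hK hl⟩
  apply hTR E C n x _ hx
  intro k
  set F := IntermediateField.adjoin E (Set.range fun k => ∑ i, x i * θ k ^ (i:ℕ)) with hF
  have h := VDM.second C n x θ hθ (algebraicClosure F C).toSubfield ?_ ?_ k
  · exact (mem_algebraicClosure_iff).mp h
  · intro j
    show θ j ∈ algebraicClosure F C
    rw [mem_algebraicClosure_iff]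
    exact (hal j).extendScalars (algebraMap E F).injective
  · intro j
    show _ ∈ algebraicClosure F C
    rw [mem_algebraicClosure_iff]
    have : ∑ i, x i * θ j ^ (i:ℕ) ∈ F := IntermediateField.subset_adjoin E _ ⟨j, rfl⟩
    exact isAlgebraic_algebraMap (⟨_, this⟩ : F)

end Pool.Agent.N825.WP
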